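import Pool.Agent.Vrd.Geo

/-!
The lower bound: for suitable points the expected complexity is at least a constant times `n^(3/2)`
-/

set_option autoImplicit false

namespace Pool.Agent.Vrl

open MeasureTheory Set Vor Vrd
open scoped ENNReal NNReal

/-- the first unit vector times 4 -/
noncomputable def p1 : E := WithLp.toLp 2 ![4, 0, 0]

/-- the second unit vector times 4 -/
noncomputable def p2 : E := WithLp.toLp 2 ![0, 4, 0]

/-- the points: near `p1` for even numbers, near `p2` for odd numbers -/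
noncomputable def pts (n : ℕ) (m : Fin n) : E :=
  if m.val % 2 = 0 then WithLp.toLp 2 ![4, 0, (m : ℝ) / (10 * n)]
  else WithLp.toLp 2 ![0, 4, (m : ℝ) / (10 * n)]

/-- the even and the odd indices -/
def ev (n : ℕ) : Finset (Fin n) := Finset.univ.filter fun m => m.val % 2 = 0

/-- the odd indices -/
def od (n : ℕ) : Finset (Fin n) := Finset.univ.filter fun m => ¬ m.val % 2 = 0

/-- both lines are within `ρ` of `x`, all the others at distance at least `2ρ` -/
def Good {n : ℕ} (a : Fin n → E) (ρ : ℝ) (x : E) (i j : Fin n) : Set (Fin n → E) :=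
  {v | dv (v i) (x - a i) < ρ ∧ dv (v j) (x - a j) < ρ ∧
    ∀ m, m ≠ i → m ≠ j → 2 * ρ ≤ dv (v m) (x - a m)}

/-- the test points -/
noncomputable def tst (ρ : ℝ) (M : ℕ) : Finset E :=
  (Fintype.piFinset fun _ : Fin 3 => Finset.range M).image
    (fun k => (WithLp.toLp 2 (fun c => 21 * ρ * (k c : ℝ)) : E))

-- BEGIN pin
/-- The third coordinates `m/(10 n)` are different. -/
theorem pts_injective (n : ℕ) : Function.Injective (pts n) := by
  intro m m' h
  have hn : (0 : ℝ) < n := by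
    have := m.pos
    exact_mod_cast this
  have key : (m : ℝ) / (10 * n) = (m' : ℝ) / (10 * n) := by
    have h2 : (pts n m) 2 = (pts n m') 2 := by rw [h]
    have e1 : ∀ k : Fin n, (pts n k) 2 = (k : ℝ) / (10 * n) := by
      intro k
      unfold pts
      split_ifs <;> simp
    rw [e1, e1] at h2
    exact h2
  have h3 : (m : ℝ) = (m' : ℝ) := by
    have h10 : (10 * (n : ℝ)) ≠ 0 := by positivity
    field_simp at key
    exact key
  exact Fin.ext (by exact_mod_cast h3)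
-- END pin

-- BEGIN pne
/-- `m/(10 n) ≤ 1/10`. -/
theorem pts_near (n : ℕ) (m : Fin n) :
    (m ∈ ev n → ‖pts n m - p1‖ ≤ 1 / 10) ∧ (m ∈ od n → ‖pts n m - p2‖ ≤ 1 / 10) := by
  have hn : (0 : ℝ) < n := by
    have := m.pos
    exact_mod_cast this
  have hm : (m : ℝ) ≤ n := by exact_mod_cast m.isLt.le
  have hq0 : 0 ≤ (m : ℝ) / (10 * n) := by positivity
  have hq : (m : ℝ) / (10 * n) ≤ 1 / 10 := by
    rw [div_le_div_iff₀ (by positivity) (by norm_num)]
    linarith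
  constructor
  · intro h
    have h' : m.val % 2 = 0 := (Finset.mem_filter.1 h).2
    unfold pts p1
    rw [if_pos h', EuclideanSpace.norm_eq]
    have : ∑ i : Fin 3, ‖((WithLp.toLp 2 ![4, 0, (m : ℝ) / (10 * n)] : E) -
        (WithLp.toLp 2 ![4, 0, 0] : E)) i‖ ^ 2 = ((m : ℝ) / (10 * n)) ^ 2 := by
      simp [Fin.sum_univ_three]
    rw [this, Real.sqrt_sq hq0]
    exact hq
  · intro h
    have h' : ¬ m.val % 2 = 0 := (Finset.mem_filter.1 h).2
    unfold pts p2
    rw [if_neg h', EuclideanSpace.norm_eq]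
    have : ∑ i : Fin 3, ‖((WithLp.toLp 2 ![0, 4, (m : ℝ) / (10 * n)] : E) -
        (WithLp.toLp 2 ![0, 4, 0] : E)) i‖ ^ 2 = ((m : ℝ) / (10 * n)) ^ 2 := by
      simp [Fin.sum_univ_three]
    rw [this, Real.sqrt_sq hq0]
    exact hq
-- END pne

-- BEGIN eoc
/-- `n = 2k` or `2k+1`. For instance the injections `k ↦ 2k`, `k ↦ 2k+1` of `Fin (n/2)`, `n/2 ≥ n/3` for `n ≥ 2`. -/
theorem card_ev_od {n : ℕ} (hn : 2 ≤ n) : (n : ℝ) / 3 ≤ (ev n).card ∧ (n : ℝ) / 3 ≤ (od n).card := by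
  have h1 : n / 2 ≤ (ev n).card := by
    have h := Finset.card_le_card_of_injOn (s := (Finset.univ : Finset (Fin (n / 2)))) (t := ev n)
      (fun k => (⟨2 * k.val, by have := k.2; omega⟩ : Fin n)) (fun k _ => by
        show (⟨2 * k.val, _⟩ : Fin n) ∈ (ev n : Set (Fin n))
        rw [Finset.mem_coe]
        unfold ev
        rw [Finset.mem_filter]
        refine ⟨Finset.mem_univ _, ?_⟩
        show 2 * k.val % 2 = 0
        omega) (fun k _ l _ hkl => by
        have h2 : 2 * k.val = 2 * l.val := congrArg Fin.val hkl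
        exact Fin.ext (by omega))
    rwa [Finset.card_univ, Fintype.card_fin] at h
  have h2 : n / 2 ≤ (od n).card := by
    have h := Finset.card_le_card_of_injOn (s := (Finset.univ : Finset (Fin (n / 2)))) (t := od n)
      (fun k => (⟨2 * k.val + 1, by have := k.2; omega⟩ : Fin n)) (fun k _ => by
        show (⟨2 * k.val + 1, _⟩ : Fin n) ∈ (od n : Set (Fin n))
        rw [Finset.mem_coe]
        unfold od
        rw [Finset.mem_filter]
        refine ⟨Finset.mem_univ _, ?_⟩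
        show ¬ (2 * k.val + 1) % 2 = 0
        omega) (fun k _ l _ hkl => by
        have h2 : 2 * k.val + 1 = 2 * l.val + 1 := congrArg Fin.val hkl
        exact Fin.ext (by omega))
    rwa [Finset.card_univ, Fintype.card_fin] at h
  have h3 : n ≤ 3 * (ev n).card := by omega
  have h4 : n ≤ 3 * (od n).card := by omega
  have h5 : (n : ℝ) ≤ 3 * (ev n).card := by exact_mod_cast h3
  have h6 : (n : ℝ) ≤ 3 * (od n).card := by exact_mod_cast h4
  constructor <;> linarith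
-- END eoc

-- BEGIN dst
private theorem dst_norm : ‖p1‖ = 4 ∧ ‖p2‖ = 4 := by
  constructor
  · rw [p1, EuclideanSpace.norm_eq, Fin.sum_univ_three]
    change √(‖(4 : ℝ)‖ ^ 2 + ‖(0 : ℝ)‖ ^ 2 + ‖(0 : ℝ)‖ ^ 2) = 4
    rw [show ‖(4 : ℝ)‖ ^ 2 + ‖(0 : ℝ)‖ ^ 2 + ‖(0 : ℝ)‖ ^ 2 = 4 ^ 2 by norm_num,
      Real.sqrt_sq (by norm_num)]
  · rw [p2, EuclideanSpace.norm_eq, Fin.sum_univ_three]
    change √(‖(0 : ℝ)‖ ^ 2 + ‖(4 : ℝ)‖ ^ 2 + ‖(0 : ℝ)‖ ^ 2) = 4
    rw [show ‖(0 : ℝ)‖ ^ 2 + ‖(4 : ℝ)‖ ^ 2 + ‖(0 : ℝ)‖ ^ 2 = 4 ^ 2 by norm_num,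
      Real.sqrt_sq (by norm_num)]

private theorem dst_tri {p q x : E} (hp : ‖p‖ = 4) (hq : ‖q - p‖ ≤ 1 / 10) (hx : ‖x‖ ≤ 1 / 4) :
    3 ≤ ‖x - q‖ ∧ ‖x - q‖ ≤ 5 := by
  have h1 : ‖q‖ ≤ ‖q - p‖ + ‖p‖ := by
    have h := norm_add_le (q - p) p
    rwa [sub_add_cancel] at h
  have h2 : ‖p‖ ≤ ‖q - p‖ + ‖q‖ := by
    have h := norm_add_le (p - q) q
    rw [sub_add_cancel] at h
    rwa [norm_sub_rev p q] at h
  have h3 : ‖x - q‖ ≤ ‖x‖ + ‖q‖ := norm_sub_le x q
  have h4 : ‖q‖ ≤ ‖x - q‖ + ‖x‖ := by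
    have h := norm_add_le (q - x) x
    rw [sub_add_cancel] at h
    rwa [norm_sub_rev q x] at h
  constructor <;> linarith

/-- `‖x‖ ≤ 1/4`, `‖p1‖ = ‖p2‖ = 4`, triangle inequality. -/
theorem pts_dist {n : ℕ} (m : Fin n) {x : E} (hx : ‖x‖ ≤ 1 / 4) :
    3 ≤ ‖x - pts n m‖ ∧ ‖x - pts n m‖ ≤ 5 := by
  by_cases hm : m.val % 2 = 0
  · exact dst_tri dst_norm.1 ((pts_near n m).1 (by simp [ev, hm])) hx
  · exact dst_tri dst_norm.2 ((pts_near n m).2 (by simpa [od] using hm)) hx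
-- END dst

-- BEGIN ivt
/-- `dv (v i) (x - a i) = infDist x (line i) < ρ` (`Vrd.infDist_dv`): there are `y i` in line `i`, `y j` in line `j` with
`dist x (y i), dist x (y j) < ρ` (`Metric.infDist_lt_iff`). On the segment `y i + t (y j - y i)`, `t ∈ [0,1]` the continuous function
`infDist · (line i) - infDist · (line j)` is `≤ 0` at `t = 0` and `≥ 0` at `t = 1`: a zero `z`. There
`infDist z (line i) = infDist z (line j) ≤ min (dist z (y i)) (dist z (y j)) ≤ dist (y i) (y j) / 2 < ρ`, and `dist z x < ρ` (ball convex),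
so the other lines have distance `≥ 2ρ - dist z x > ρ` from `z`. -/
theorem near_pair_of_good {n : ℕ} {v a : Fin n → E} {ρ : ℝ} {x : E} {i j : Fin n}
    (h : v ∈ Good a ρ x i j) : ∃ z, Near v a z = {i, j} := by
  obtain ⟨hi, hj, hm⟩ := h
  rw [← infDist_dv] at hi hj
  have hne : ∀ m, (line (a m) (v m)).Nonempty := fun m => ⟨a m + (0 : ℝ) • v m, 0, rfl⟩
  obtain ⟨yi, hyi, hxi⟩ := (Metric.infDist_lt_iff (hne i)).1 hi
  obtain ⟨yj, hyj, hxj⟩ := (Metric.infDist_lt_iff (hne j)).1 hj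
  have hcont : ∀ m, Continuous fun t : ℝ => Metric.infDist (yi + t • (yj - yi)) (line (a m) (v m)) := by
    intro m
    refine (Metric.continuous_infDist_pt _).comp ?_
    exact continuous_const.add (continuous_id.smul continuous_const)
  have hz0 : Metric.infDist (yi + (0 : ℝ) • (yj - yi)) (line (a i) (v i)) -
      Metric.infDist (yi + (0 : ℝ) • (yj - yi)) (line (a j) (v j)) ≤ 0 := by
    rw [zero_smul, add_zero, Metric.infDist_zero_of_mem hyi]
    have := Metric.infDist_nonneg (x := yi) (s := line (a j) (v j))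
    linarith
  have hz1 : 0 ≤ Metric.infDist (yi + (1 : ℝ) • (yj - yi)) (line (a i) (v i)) -
      Metric.infDist (yi + (1 : ℝ) • (yj - yi)) (line (a j) (v j)) := by
    rw [one_smul, add_sub_cancel, Metric.infDist_zero_of_mem hyj]
    have := Metric.infDist_nonneg (x := yj) (s := line (a i) (v i))
    linarith
  obtain ⟨t, ht, hft⟩ := intermediate_value_Icc (zero_le_one' ℝ)
    (((hcont i).sub (hcont j)).continuousOn) (⟨hz0, hz1⟩ : (0 : ℝ) ∈ Icc _ _)
  obtain ⟨z, hz⟩ : ∃ z : E, z = yi + t • (yj - yi) := ⟨_, rfl⟩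
  have heq : Metric.infDist z (line (a i) (v i)) = Metric.infDist z (line (a j) (v j)) := by
    rw [hz]
    exact sub_eq_zero.1 hft
  have hzx : dist z x < ρ := by
    have h1 := (convex_ball x ρ).add_smul_sub_mem (x := yi) (y := yj) (by rw [Metric.mem_ball, dist_comm]; exact hxi)
      (by rw [Metric.mem_ball, dist_comm]; exact hxj) ht
    rw [Metric.mem_ball, ← hz] at h1
    exact h1
  have hyy : ‖yj - yi‖ < 2 * ρ := by
    have h1 := dist_triangle yj x yi
    rw [dist_eq_norm, dist_comm yj x] at h1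
    linarith
  have hLi : Metric.infDist z (line (a i) (v i)) ≤ t * ‖yj - yi‖ := by
    refine (Metric.infDist_le_dist_of_mem hyi).trans (le_of_eq ?_)
    rw [hz, dist_eq_norm, add_sub_cancel_left, norm_smul, Real.norm_of_nonneg ht.1]
  have hLj : Metric.infDist z (line (a j) (v j)) ≤ (1 - t) * ‖yj - yi‖ := by
    refine (Metric.infDist_le_dist_of_mem hyj).trans (le_of_eq ?_)
    have h1 : yi + t • (yj - yi) - yj = -((1 - t) • (yj - yi)) := by
      rw [sub_smul, one_smul]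
      abel
    rw [hz, dist_eq_norm, h1, norm_neg, norm_smul, Real.norm_of_nonneg (by linarith [ht.2])]
  have hLρ : Metric.infDist z (line (a i) (v i)) < ρ := by linarith
  have hoth : ∀ m, m ≠ i → m ≠ j → ρ < Metric.infDist z (line (a m) (v m)) := by
    intro m hmi hmj
    have h1 := hm m hmi hmj
    rw [← infDist_dv] at h1
    have h2 := Metric.infDist_le_infDist_add_dist (s := line (a m) (v m)) (x := x) (y := z)
    rw [dist_comm] at h2
    linarith
  refine ⟨z, ?_⟩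
  ext m
  constructor
  · intro h1
    by_contra h2
    have hmi : m ≠ i := fun h3 => h2 (by rw [h3]; exact Or.inl rfl)
    have hmj : m ≠ j := fun h3 => h2 (by rw [h3]; exact Or.inr rfl)
    have h3 := hoth m hmi hmj
    have h4 : Metric.infDist z (line (a m) (v m)) ≤ Metric.infDist z (line (a i) (v i)) := h1 i
    linarith
  · intro h1 m'
    have hmz : Metric.infDist z (line (a m) (v m)) = Metric.infDist z (line (a i) (v i)) := by
      rcases h1 with h1 | h1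
      · rw [h1]
      · rw [h1, heq]
    rw [hmz]
    by_cases hmi : m' = i
    · rw [hmi]
    · by_cases hmj : m' = j
      · rw [hmj, heq]
      · exact (hLρ.trans (hoth m' hmi hmj)).le
-- END ivt

-- BEGIN unq
private theorem unq_line {v y y' : E} {ρ : ℝ} (hρ1 : ρ ≤ 1 / 10) (hy : 3 ≤ ‖y‖)
    (hw : ‖y - y'‖ ≤ 1 / 2) (h1 : dv v y < ρ) (h2 : dv v y' < ρ) :
    ∃ β : ℝ, ‖(y - y') - β • y‖ ≤ 3 * ρ := by
  have hv : v ≠ 0 := by
    rintro rfl
    have : dv (0 : E) y = ‖y‖ := by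
      unfold dv dl
      rw [smul_zero, smul_zero, sub_zero]
    rw [this] at h1
    linarith
  have hu : ‖(‖v‖⁻¹ • v : E)‖ = 1 := by
    rw [norm_smul, norm_inv, norm_norm, inv_mul_cancel₀ (norm_ne_zero_iff.2 hv)]
  unfold dv dl at h1 h2
  generalize (‖v‖⁻¹ • v : E) = u at hu h1 h2
  have hρ0 : 0 ≤ ρ := (norm_nonneg _).trans h1.le
  have hα : |(inner ℝ u (y - y') : ℝ)| ≤ 1 / 2 := by
    have := abs_real_inner_le_norm u (y - y')
    rw [hu, one_mul] at this
    exact this.trans hw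
  have hτ : 2 ≤ |(inner ℝ u y : ℝ)| := by
    have h3 : ‖y‖ ≤ ‖y - (inner ℝ u y : ℝ) • u‖ + ‖(inner ℝ u y : ℝ) • u‖ := by
      have := norm_add_le (y - (inner ℝ u y : ℝ) • u) ((inner ℝ u y : ℝ) • u)
      rwa [sub_add_cancel] at this
    rw [norm_smul, hu, mul_one, Real.norm_eq_abs] at h3
    linarith
  have hτ0 : (inner ℝ u y : ℝ) ≠ 0 := by
    intro h
    rw [h, abs_zero] at hτ
    linarith
  refine ⟨(inner ℝ u (y - y') : ℝ) / (inner ℝ u y : ℝ), ?_⟩
  have hβ : |(inner ℝ u (y - y') : ℝ) / (inner ℝ u y : ℝ)| ≤ 1 / 4 := by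
    rw [abs_div, div_le_iff₀ (by linarith)]
    linarith
  have e1 : (y - y') - ((inner ℝ u (y - y') : ℝ) / (inner ℝ u y : ℝ)) • y =
      ((y - (inner ℝ u y : ℝ) • u) - (y' - (inner ℝ u y' : ℝ) • u)) -
        ((inner ℝ u (y - y') : ℝ) / (inner ℝ u y : ℝ)) • (y - (inner ℝ u y : ℝ) • u) := by
    rw [smul_sub _ y, smul_smul, div_mul_cancel₀ _ hτ0, inner_sub_right, sub_smul]
    abel
  rw [e1]
  have h5 := norm_sub_le ((y - (inner ℝ u y : ℝ) • u) - (y' - (inner ℝ u y' : ℝ) • u))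
    (((inner ℝ u (y - y') : ℝ) / (inner ℝ u y : ℝ)) • (y - (inner ℝ u y : ℝ) • u))
  have h6 := norm_sub_le (y - (inner ℝ u y : ℝ) • u) (y' - (inner ℝ u y' : ℝ) • u)
  rw [norm_smul, Real.norm_eq_abs] at h5
  have h7 : |(inner ℝ u (y - y') : ℝ) / (inner ℝ u y : ℝ)| * ‖y - (inner ℝ u y : ℝ) • u‖ ≤
      1 / 4 * ρ := mul_le_mul hβ h1.le (norm_nonneg _) (by norm_num)
  linarith

private theorem unq_p1 : ‖p1‖ = 4 := by
  unfold p1
  rw [EuclideanSpace.norm_eq, Fin.sum_univ_three]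
  simp

private theorem unq_p2 : ‖p2‖ = 4 := by
  unfold p2
  rw [EuclideanSpace.norm_eq, Fin.sum_univ_three]
  simp

private theorem unq_orth : (inner ℝ p1 p2 : ℝ) = 0 := by
  unfold p1 p2
  rw [PiLp.inner_apply, Fin.sum_univ_three]
  simp

/-- `w = x - x'`, `‖w‖ ≤ 1/2`. With `u = ‖v‖⁻¹ • v` (the case `v = 0`: `dv 0 (x - a) = ‖x - a‖ ≥ 3`, impossible):
`x - a = τ u + f`, `‖f‖ < ρ`, `w = α u + e`, `‖e‖ < 2ρ` (`e = f - f'`, linearity of `z ↦ z - ⟪u,z⟫ u`), `|α| ≤ ‖w‖`,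
`|τ| ≥ 3 - ρ ≥ 2`, so `‖w - β (x - a)‖ ≤ 2ρ + (‖w‖/2) ρ ≤ 3ρ` with `β = α/τ`. In the same way `‖w - β' (x - a')‖ ≤ 3ρ`. So
`‖β (x - a) - β' (x - a')‖ ≤ 6ρ`; `|⟪x - a, x - a'⟫| ≤ 3` (`‖a - p1‖, ‖a' - p2‖ ≤ 1/10`, `⟪p1,p2⟫ = 0`) and `‖x - a‖, ‖x - a'‖ ≥ 3` give
`6 (β² + β'²) ≤ 36 ρ²`, `|β| ≤ 3ρ`, `‖w‖ ≤ 5 |β| + 3ρ ≤ 18 ρ`. -/
theorem unique_point {v v' a a' x x' : E} {ρ : ℝ} (hρ : 0 < ρ) (hρ1 : ρ ≤ 1 / 10)
    (ha : ‖a - p1‖ ≤ 1 / 10) (ha' : ‖a' - p2‖ ≤ 1 / 10) (hx : ‖x‖ ≤ 1 / 4) (hx' : ‖x'‖ ≤ 1 / 4)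
    (h1 : dv v (x - a) < ρ) (h2 : dv v (x' - a) < ρ) (h3 : dv v' (x - a') < ρ)
    (h4 : dv v' (x' - a') < ρ) : ‖x - x'‖ ≤ 20 * ρ := by
  have hw : ‖x - x'‖ ≤ 1 / 2 := by
    have := norm_sub_le x x'
    linarith
  -- decomposition
  have q1 : ‖x - (a - p1)‖ ≤ 7 / 20 := by
    have := norm_sub_le x (a - p1)
    linarith
  have q2 : ‖x - (a' - p2)‖ ≤ 7 / 20 := by
    have := norm_sub_le x (a' - p2)
    linarith
  have r1 : x - a = (x - (a - p1)) - p1 := by abel
  have r2 : x - a' = (x - (a' - p2)) - p2 := by abel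
  have n1 : 3 ≤ ‖x - a‖ := by
    have := norm_sub_norm_le p1 (x - (a - p1))
    rw [unq_p1, norm_sub_rev p1, ← r1] at this
    linarith
  have n2 : 3 ≤ ‖x - a'‖ := by
    have := norm_sub_norm_le p2 (x - (a' - p2))
    rw [unq_p2, norm_sub_rev p2, ← r2] at this
    linarith
  have n3 : ‖x - a‖ ≤ 5 := by
    have := norm_sub_le (x - (a - p1)) p1
    rw [unq_p1, ← r1] at this
    linarith
  have hin : |(inner ℝ (x - a) (x - a') : ℝ)| ≤ 3 := by
    rw [r1, r2]
    clear r1 r2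
    generalize x - (a - p1) = s at q1 ⊢
    generalize x - (a' - p2) = t at q2 ⊢
    rw [inner_sub_left, inner_sub_right, inner_sub_right, unq_orth, sub_zero]
    have i1 := abs_real_inner_le_norm s t
    have i2 := abs_real_inner_le_norm s p2
    have i3 := abs_real_inner_le_norm p1 t
    rw [unq_p2] at i2
    rw [unq_p1] at i3
    have i4 : ‖s‖ * ‖t‖ ≤ 7 / 20 * (7 / 20) :=
      mul_le_mul q1 q2 (norm_nonneg _) (by norm_num)
    have j1 := abs_le.1 i1
    have j2 := abs_le.1 i2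
    have j3 := abs_le.1 i3
    rw [abs_le]
    constructor <;> linarith [j1.1, j1.2, j2.1, j2.2, j3.1, j3.2]
  have d1 : (x - a) - (x' - a) = x - x' := by abel
  have d2 : (x - a') - (x' - a') = x - x' := by abel
  obtain ⟨β, hβ⟩ := unq_line hρ1 n1 (by rw [d1]; exact hw) h1 h2
  obtain ⟨β', hβ'⟩ := unq_line hρ1 n2 (by rw [d2]; exact hw) h3 h4
  rw [d1] at hβ
  rw [d2] at hβ'
  have h6 : ‖β • (x - a) - β' • (x - a')‖ ≤ 6 * ρ := by
    have e : β • (x - a) - β' • (x - a') = ((x - x') - β' • (x - a')) - ((x - x') - β • (x - a)) := by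
      abel
    rw [e]
    have := norm_sub_le ((x - x') - β' • (x - a')) ((x - x') - β • (x - a))
    linarith
  have h7 : ‖β • (x - a) - β' • (x - a')‖ ^ 2 =
      β ^ 2 * ‖x - a‖ ^ 2 - 2 * (β * β' * (inner ℝ (x - a) (x - a') : ℝ)) +
        β' ^ 2 * ‖x - a'‖ ^ 2 := by
    rw [norm_sub_sq_real, real_inner_smul_left, real_inner_smul_right, norm_smul, norm_smul,
      mul_pow, mul_pow, Real.norm_eq_abs, Real.norm_eq_abs, sq_abs, sq_abs]
    ring
  have h8 : ‖β • (x - a) - β' • (x - a')‖ ^ 2 ≤ 36 * ρ ^ 2 := by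
    have := pow_le_pow_left₀ (norm_nonneg _) h6 2
    calc _ ≤ (6 * ρ) ^ 2 := this
      _ = 36 * ρ ^ 2 := by ring
  have h9 : |β * β' * (inner ℝ (x - a) (x - a') : ℝ)| ≤ |β * β'| * 3 := by
    rw [abs_mul]
    exact mul_le_mul_of_nonneg_left hin (abs_nonneg _)
  have h10 : 2 * |β * β'| ≤ β ^ 2 + β' ^ 2 := by
    rw [abs_mul]
    have := sq_nonneg (|β| - |β'|)
    have e1 := sq_abs β
    have e2 := sq_abs β'
    nlinarith
  have h11 : 9 * β ^ 2 ≤ β ^ 2 * ‖x - a‖ ^ 2 := by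
    have : (9 : ℝ) ≤ ‖x - a‖ ^ 2 := by nlinarith
    nlinarith [sq_nonneg β]
  have h12 : 9 * β' ^ 2 ≤ β' ^ 2 * ‖x - a'‖ ^ 2 := by
    have : (9 : ℝ) ≤ ‖x - a'‖ ^ 2 := by nlinarith
    nlinarith [sq_nonneg β']
  have h13 : β ^ 2 ≤ (3 * ρ) ^ 2 := by
    have k1 := (abs_le.1 h9).2
    have k2 := sq_nonneg β'
    nlinarith [sq_nonneg ρ]
  have h14 : |β| ≤ 3 * ρ := abs_le_of_sq_le_sq h13 (by linarith)
  have h15 : ‖x - x'‖ ≤ ‖(x - x') - β • (x - a)‖ + ‖β • (x - a)‖ := by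
    have := norm_add_le ((x - x') - β • (x - a)) (β • (x - a))
    rwa [sub_add_cancel] at this
  rw [norm_smul, Real.norm_eq_abs] at h15
  have h16 : |β| * ‖x - a‖ ≤ 3 * ρ * 5 := mul_le_mul h14 n3 (norm_nonneg _) (by linarith)
  linarith
-- END unq

-- BEGIN prb
/-- `Good` is a product set (`Set.pi univ`): `Measure.pi_pi`. The factors `i`, `j`: `Vrd.hit_lower`, `ρ ≤ 3 ≤ ‖x - a‖ ≤ 5`:
at least `c ρ²/400`. The others: `1 - μ{dv < 2ρ} ≥ 1 - 20 C (2ρ/3)² ≥ 1 - 9 C ρ² ≥ 1 - 1/(2n)` (`Vrd.hit_upper`), the product of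
at most `n` of them is at least `1/2` (Bernoulli: `one_add_mul_le_pow`). -/
theorem good_prob {n : ℕ} {c C : ℝ≥0} {μ : Fin n → Measure E} [∀ i, IsProbabilityMeasure (μ i)]
    (hμ : ∀ i, μ i ≤ C • volume.restrict (Metric.closedBall (0 : E) 1))
    (hμ' : ∀ i, c • volume.restrict (Metric.closedBall (0 : E) 1) ≤ μ i) {a : Fin n → E} {ρ : ℝ}
    (hρ : 0 < ρ) (hρ1 : ρ ≤ 1) (hρC : 9 * C * ρ ^ 2 ≤ 1 / (2 * n)) {x : E}
    (hx : ∀ m, 3 ≤ ‖x - a m‖ ∧ ‖x - a m‖ ≤ 5) {i j : Fin n} (hij : i ≠ j) :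
    MeasurableSet (Good a ρ x i j) ∧
    ENNReal.ofReal (c ^ 2 * ρ ^ 4 / 320000) ≤ Measure.pi μ (Good a ρ x i j) := by
  classical
  have hn : 0 < n := lt_of_le_of_lt (Nat.zero_le _) i.2
  have hnR : (0 : ℝ) < n := by exact_mod_cast hn
  set S : Fin n → Set E := fun m =>
    if m = i ∨ m = j then {v | dv v (x - a m) < ρ} else {v | 2 * ρ ≤ dv v (x - a m)} with hS
  have hGood : Good a ρ x i j = Set.pi Set.univ S := by
    ext v
    simp only [Good, Set.mem_setOf_eq, Set.mem_pi, Set.mem_univ, forall_true_left, hS]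
    constructor
    · rintro ⟨h1, h2, h3⟩ m
      by_cases hm : m = i ∨ m = j
      · rw [if_pos hm]
        rcases hm with rfl | rfl
        · exact h1
        · exact h2
      · rw [if_neg hm]
        rw [not_or] at hm
        exact h3 m hm.1 hm.2
    · intro h
      refine ⟨?_, ?_, fun m hm1 hm2 => ?_⟩
      · have := h i
        rw [if_pos (Or.inl rfl)] at this
        exact this
      · have := h j
        rw [if_pos (Or.inr rfl)] at this
        exact this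
      · have := h m
        rw [if_neg (not_or.2 ⟨hm1, hm2⟩)] at this
        exact this
  have hSm : ∀ m, MeasurableSet (S m) := by
    intro m
    simp only [hS]
    split_ifs
    · exact measurableSet_lt (dv_measurable _) measurable_const
    · exact measurableSet_le measurable_const (dv_measurable _)
  have hz : ∀ m, x - a m ≠ 0 := by
    intro m h
    have := (hx m).1
    rw [h, norm_zero] at this
    linarith
  refine ⟨by rw [hGood]; exact MeasurableSet.univ_pi hSm, ?_⟩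
  rw [hGood, Measure.pi_pi]
  set A : ℝ := c * ρ ^ 2 / 400 with hA
  set B : ℝ := 1 - 1 / (2 * n) with hB
  have hA0 : 0 ≤ A := by positivity
  have hn1 : (1 : ℝ) ≤ n := by exact_mod_cast hn
  have hinv : 1 / (2 * (n : ℝ)) ≤ 1 / 2 := by
    apply one_div_le_one_div_of_le (by norm_num)
    linarith
  have hinv0 : 0 < 1 / (2 * (n : ℝ)) := by positivity
  have hB0 : 0 ≤ B := by rw [hB]; linarith
  have hB1 : B ≤ 1 := by rw [hB]; linarith
  have hfac : ∀ m, ENNReal.ofReal (if m = i ∨ m = j then A else B) ≤ μ m (S m) := by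
    intro m
    by_cases hm : m = i ∨ m = j
    · simp only [hS, if_pos hm]
      refine le_trans ?_ (hit_lower (hμ' m) (hz m) hρ (by linarith [(hx m).1]))
      apply ENNReal.ofReal_le_ofReal
      have h5 : ρ / 5 ≤ ρ / ‖x - a m‖ :=
        div_le_div_of_nonneg_left hρ.le (by linarith [(hx m).1]) (hx m).2
      have h6 : (ρ / 5) ^ 2 ≤ (ρ / ‖x - a m‖) ^ 2 := pow_le_pow_left₀ (by positivity) h5 2
      have hc0 : (0 : ℝ) ≤ c := c.2
      have h7 := mul_le_mul_of_nonneg_left h6 hc0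
      rw [hA]
      have h8 : (c : ℝ) * ρ ^ 2 / 400 = (c : ℝ) * (ρ / 5) ^ 2 / 16 := by ring
      rw [h8]
      linarith
    · simp only [hS, if_neg hm]
      have hcompl : {v : E | 2 * ρ ≤ dv v (x - a m)} = {v : E | dv v (x - a m) < 2 * ρ}ᶜ := by
        ext v
        simp
      have hmeas : MeasurableSet {v : E | dv v (x - a m) < 2 * ρ} :=
        measurableSet_lt (dv_measurable _) measurable_const
      rw [hcompl, prob_compl_eq_one_sub hmeas]
      have h1 := hit_upper (hμ m) (hz m) (r := 2 * ρ) (by linarith)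
      have h2 : 20 * (C : ℝ) * (2 * ρ / ‖x - a m‖) ^ 2 ≤ 1 / (2 * n) := by
        have h5 : 2 * ρ / ‖x - a m‖ ≤ 2 * ρ / 3 :=
          div_le_div_of_nonneg_left (by linarith) (by norm_num) (hx m).1
        have h6 : (2 * ρ / ‖x - a m‖) ^ 2 ≤ (2 * ρ / 3) ^ 2 :=
          pow_le_pow_left₀ (by have := (hx m).1; positivity) h5 2
        have hC0 : (0 : ℝ) ≤ C := C.2
        have h7 := mul_le_mul_of_nonneg_left h6 hC0
        have h8 : 0 ≤ (C : ℝ) * ρ ^ 2 := by positivity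
        nlinarith
      have h3 : μ m {v : E | dv v (x - a m) < 2 * ρ} ≤ ENNReal.ofReal (1 / (2 * n)) :=
        le_trans h1 (ENNReal.ofReal_le_ofReal h2)
      calc ENNReal.ofReal B = 1 - ENNReal.ofReal (1 / (2 * n)) := by
            rw [hB, ENNReal.ofReal_sub _ hinv0.le, ENNReal.ofReal_one]
        _ ≤ 1 - μ m {v : E | dv v (x - a m) < 2 * ρ} := tsub_le_tsub_left h3 1
  refine le_trans ?_ (Finset.prod_le_prod' fun m _ => hfac m)
  rw [← ENNReal.ofReal_prod_of_nonneg (fun m _ => by split_ifs <;> assumption)]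
  apply ENNReal.ofReal_le_ofReal
  rw [Finset.prod_ite, Finset.prod_const, Finset.prod_const]
  have hcard : (Finset.univ.filter fun m : Fin n => m = i ∨ m = j).card = 2 := by
    have : (Finset.univ.filter fun m : Fin n => m = i ∨ m = j) = {i, j} := by
      ext m
      simp
    rw [this, Finset.card_pair hij]
  rw [hcard]
  have hcard2 : (Finset.univ.filter fun m : Fin n => ¬ (m = i ∨ m = j)).card ≤ n := by
    refine le_trans (Finset.card_le_univ _) ?_
    simp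
  have hBn : (1 / 2 : ℝ) ≤ B ^ n := by
    have := one_add_mul_le_pow (a := -(1 / (2 * (n : ℝ)))) (by linarith) n
    have h2 : (1 : ℝ) + n * -(1 / (2 * (n : ℝ))) = 1 / 2 := by
      field_simp
      ring
    rw [h2] at this
    rw [hB, sub_eq_add_neg]
    exact this
  have hBk : (1 / 2 : ℝ) ≤ B ^ (Finset.univ.filter fun m : Fin n => ¬ (m = i ∨ m = j)).card :=
    le_trans hBn (pow_le_pow_of_le_one hB0 hB1 hcard2)
  have hAA : 0 ≤ A ^ 2 := by positivity
  have := mul_le_mul_of_nonneg_left hBk hAA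
  refine le_trans (le_of_eq ?_) this
  rw [hA]
  ring
-- END prb

-- BEGIN tsc
/-- The map is injective for `ρ > 0`: `#(tst ρ M) = M ^ 3`. Coordinates `≤ 21 ρ M ≤ 1/8`: norm `≤ √3/8 ≤ 1/4`. Different points:
some coordinate differs by at least `21 ρ`. -/
theorem tst_facts {ρ : ℝ} (hρ : 0 < ρ) {M : ℕ} (hM : 21 * ρ * M ≤ 1 / 8) :
    (tst ρ M).card = M ^ 3 ∧ (∀ x ∈ tst ρ M, ‖x‖ ≤ 1 / 4) ∧
    ∀ x ∈ tst ρ M, ∀ y ∈ tst ρ M, x ≠ y → 20 * ρ < ‖x - y‖ := by
  classical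
  have hinj : Function.Injective
      (fun k : Fin 3 → ℕ => (WithLp.toLp 2 (fun c => 21 * ρ * (k c : ℝ)) : E)) := by
    intro k k' h
    funext c
    have h1 := congrArg (fun z : E => z c) h
    have h2 : 21 * ρ * (k c : ℝ) = 21 * ρ * (k' c : ℝ) := h1
    have h3 : (0 : ℝ) < 21 * ρ := by linarith
    have h4 : (k c : ℝ) = (k' c : ℝ) := mul_left_cancel₀ h3.ne' h2
    exact_mod_cast h4
  refine ⟨?_, ?_, ?_⟩
  · unfold tst
    rw [Finset.card_image_of_injective _ hinj, Fintype.card_piFinset]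
    simp
  · intro x hx
    unfold tst at hx
    rw [Finset.mem_image] at hx
    obtain ⟨k, hk, rfl⟩ := hx
    rw [Fintype.mem_piFinset] at hk
    have hco : ∀ c : Fin 3, (21 * ρ * (k c : ℝ)) ^ 2 ≤ 1 / 64 := by
      intro c
      have h1 : (k c : ℝ) ≤ M := by
        exact_mod_cast (Finset.mem_range.1 (hk c)).le
      have h2 : 21 * ρ * (k c : ℝ) ≤ 1 / 8 :=
        le_trans (mul_le_mul_of_nonneg_left h1 (by linarith)) hM
      have h3 : 0 ≤ 21 * ρ * (k c : ℝ) := by positivity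
      nlinarith
    have h4 : ‖(WithLp.toLp 2 (fun c => 21 * ρ * (k c : ℝ)) : E)‖ ^ 2 ≤ (1 / 4) ^ 2 := by
      rw [EuclideanSpace.norm_sq_eq, Fin.sum_univ_three]
      simp only [Real.norm_eq_abs, sq_abs]
      have := hco 0
      have := hco 1
      have := hco 2
      linarith
    exact (sq_le_sq₀ (norm_nonneg _) (by norm_num)).1 h4
  · intro x hx y hy hxy
    unfold tst at hx hy
    rw [Finset.mem_image] at hx hy
    obtain ⟨k, hk, rfl⟩ := hx
    obtain ⟨k', hk', rfl⟩ := hy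
    have hne : k ≠ k' := fun h => hxy (by rw [h])
    obtain ⟨c, hc⟩ := Function.ne_iff.1 hne
    have h1 : (1 : ℝ) ≤ |(k c : ℝ) - (k' c : ℝ)| := by
      have h2 : (1 : ℤ) ≤ |(k c : ℤ) - (k' c : ℤ)| := by
        apply Int.one_le_abs
        intro h
        apply hc
        omega
      exact_mod_cast h2
    have h2 : ‖((WithLp.toLp 2 (fun c => 21 * ρ * (k c : ℝ)) : E) -
        (WithLp.toLp 2 (fun c => 21 * ρ * (k' c : ℝ)) : E)) c‖ ≤
        ‖(WithLp.toLp 2 (fun c => 21 * ρ * (k c : ℝ)) : E) -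
        (WithLp.toLp 2 (fun c => 21 * ρ * (k' c : ℝ)) : E)‖ := PiLp.norm_apply_le _ c
    have h3 : ((WithLp.toLp 2 (fun c => 21 * ρ * (k c : ℝ)) : E) -
        (WithLp.toLp 2 (fun c => 21 * ρ * (k' c : ℝ)) : E)) c =
        21 * ρ * ((k c : ℝ) - (k' c : ℝ)) := by
      show 21 * ρ * (k c : ℝ) - 21 * ρ * (k' c : ℝ) = _
      ring
    rw [h3, Real.norm_eq_abs, abs_mul, abs_of_pos (by linarith : (0 : ℝ) < 21 * ρ)] at h2
    nlinarith
-- END tsc

-- BEGIN lds
/-- For given `v` the pairs `(i,j) ∈ ev × od` with `v ∈ Good a ρ x i j` for some `x ∈ tst` belong to exactly one `x` (`unique_point`,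
`tst_facts`, `pts_near`), so the left side is at most the number of such pairs. By `near_pair_of_good` there is `z` with
`Near v a z = {i, j}`; the faces `connectedComponentIn {y | Near v a y = Near v a z} z` of different pairs are different, since
`Near` is constant on a face and `{i, j} = {i', j'}` with `i, i'` even, `j, j'` odd gives `i = i'`, `j = j'`. -/
theorem lower_det {n : ℕ} {ρ : ℝ} (hρ : 0 < ρ) (hρ1 : ρ ≤ 1 / 10) {M : ℕ}
    (hM : 21 * ρ * M ≤ 1 / 8) (v : Fin n → E) :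
    ∑ x ∈ tst ρ M, ∑ i ∈ ev n, ∑ j ∈ od n, (Good (pts n) ρ x i j).indicator (fun _ => (1 : ℝ≥0∞)) v ≤
      (((Faces v (pts n)).encard : ℕ∞) : ℝ≥0∞) := by
  classical
  set T : Finset (E × Fin n × Fin n) := (tst ρ M ×ˢ ev n ×ˢ od n).filter
    (fun t => v ∈ Good (pts n) ρ t.1 t.2.1 t.2.2) with hT
  have hsum : ∑ x ∈ tst ρ M, ∑ i ∈ ev n, ∑ j ∈ od n, (Good (pts n) ρ x i j).indicator (fun _ => (1 : ℝ≥0∞)) v =
      ((T.card : ℕ) : ℝ≥0∞) := by
    rw [hT, Finset.card_filter]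
    push_cast
    rw [Finset.sum_product]
    apply Finset.sum_congr rfl
    intro x _
    rw [Finset.sum_product]
    apply Finset.sum_congr rfl
    intro i _
    apply Finset.sum_congr rfl
    intro j _
    rw [Set.indicator_apply]
  have hz : ∀ t : E × Fin n × Fin n, ∃ z : E, t ∈ T → Near v (pts n) z = {t.2.1, t.2.2} := by
    intro t
    by_cases ht : t ∈ T
    · obtain ⟨z, hz⟩ := near_pair_of_good (Finset.mem_filter.1 ht).2
      exact ⟨z, fun _ => hz⟩
    · exact ⟨0, fun h => absurd h ht⟩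
  choose z hz using hz
  obtain ⟨F, hF⟩ : ∃ F : E × Fin n × Fin n → Set E, ∀ t, F t =
      connectedComponentIn {y | Near v (pts n) y = Near v (pts n) (z t)} (z t) := ⟨_, fun _ => rfl⟩
  have hinj : Set.InjOn F (T : Set (E × Fin n × Fin n)) := by
    intro t ht s hs hts
    rw [Finset.mem_coe] at ht hs
    have h1 : z s ∈ F t := by
      rw [hts, hF]
      exact mem_connectedComponentIn rfl
    rw [hF] at h1
    have h2' : z s ∈ {y | Near v (pts n) y = Near v (pts n) (z t)} := connectedComponentIn_subset _ _ h1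
    have h2 : Near v (pts n) (z s) = Near v (pts n) (z t) := h2'
    rw [hz s hs, hz t ht] at h2
    have hT1 := Finset.mem_filter.1 ht
    have hS1 := Finset.mem_filter.1 hs
    have hT2 := Finset.mem_product.1 hT1.1
    have hS2 := Finset.mem_product.1 hS1.1
    have hT3 := Finset.mem_product.1 hT2.2
    have hS3 := Finset.mem_product.1 hS2.2
    have e1 : t.2.1.val % 2 = 0 := (Finset.mem_filter.1 hT3.1).2
    have e2 : ¬ t.2.2.val % 2 = 0 := (Finset.mem_filter.1 hT3.2).2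
    have e3 : s.2.1.val % 2 = 0 := (Finset.mem_filter.1 hS3.1).2
    have e4 : ¬ s.2.2.val % 2 = 0 := (Finset.mem_filter.1 hS3.2).2
    have h3 : t.2.1 = s.2.1 := by
      have h4 : t.2.1 ∈ ({s.2.1, s.2.2} : Set (Fin n)) := by
        rw [h2]
        exact Or.inl rfl
      rcases h4 with h4 | h4
      · exact h4
      · rw [h4] at e1
        exact absurd e1 e4
    have h5 : t.2.2 = s.2.2 := by
      have h4 : t.2.2 ∈ ({s.2.1, s.2.2} : Set (Fin n)) := by
        rw [h2]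
        exact Or.inr rfl
      rcases h4 with h4 | h4
      · rw [h4] at e2
        exact absurd e3 e2
      · exact h4
    have hfacts := tst_facts hρ hM
    have h6 : t.1 = s.1 := by
      by_contra hne
      have h7 := hfacts.2.2 t.1 hT2.1 s.1 hS2.1 hne
      have hGt := hT1.2
      have hGs := hS1.2
      obtain ⟨g1, g2, _⟩ := hGt
      obtain ⟨g3, g4, _⟩ := hGs
      rw [← h3] at g3
      rw [← h5] at g4
      have h8 := unique_point hρ hρ1 ((pts_near n t.2.1).1 hT3.1) ((pts_near n t.2.2).2 hT3.2)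
        (hfacts.2.1 t.1 hT2.1) (hfacts.2.1 s.1 hS2.1) g1 g3 g2 g4
      linarith
    exact Prod.ext h6 (Prod.ext h3 h5)
  have hsub : F '' (T : Set (E × Fin n × Fin n)) ⊆ Faces v (pts n) := by
    rintro _ ⟨t, _, rfl⟩
    exact ⟨z t, hF t⟩
  rw [hsum]
  have h1 : ((T : Set (E × Fin n × Fin n)).encard : ℕ∞) ≤ (Faces v (pts n)).encard := by
    rw [← hinj.encard_image]
    exact Set.encard_le_encard hsub
  rw [Set.encard_coe_eq_coe_finsetCard] at h1
  have h2 := ENat.toENNReal_le.2 h1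
  rwa [ENat.toENNReal_coe] at h2
-- END lds

-- BEGIN lmn
/-- assembly -/
theorem lower {c C : ℝ≥0} (hc : 0 < c) : ∃ k : ℝ, 0 < k ∧ ∀ n : ℕ, 2 ≤ n →
    ∀ μ : Fin n → Measure E, (∀ i, IsProbabilityMeasure (μ i)) →
      (∀ i, μ i ≤ C • volume.restrict (Metric.closedBall (0 : E) 1)) →
      (∀ i, c • volume.restrict (Metric.closedBall (0 : E) 1) ≤ μ i) →
      ∃ g : (Fin n → E) → ℝ≥0∞, Measurable g ∧
        (∀ v, g v ≤ (((Faces v (pts n)).encard : ℕ∞) : ℝ≥0∞)) ∧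
        ENNReal.ofReal (k * n ^ (3 / 2 : ℝ)) ≤ ∫⁻ v, g v ∂(Measure.pi μ) := by
  have hc' : (0 : ℝ) < c := by exact_mod_cast hc
  have hC0 : (0 : ℝ) ≤ C := C.2
  set η : ℝ := min (1 / 168) (1 / (18 * (C + 1))) with hη
  have hη0 : 0 < η := lt_min (by norm_num) (by positivity)
  have hη1 : η ≤ 1 / 168 := min_le_left _ _
  have hη2 : η ≤ 1 / (18 * (C + 1)) := min_le_right _ _
  have hη3 : 9 * C * η ^ 2 ≤ 1 / 2 := by
    have h1 : η * (18 * (C + 1)) ≤ 1 := by
      rw [le_div_iff₀ (by positivity)] at hη2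
      exact hη2
    have h2 : η ^ 2 ≤ η := by nlinarith
    nlinarith
  refine ⟨c ^ 2 * η / (336 ^ 3 * 9 * 320000), by positivity, ?_⟩
  intro n hn μ hp hμ hμ'
  have hn0 : (0 : ℝ) < n := by
    have : (2 : ℝ) ≤ n := by exact_mod_cast hn
    linarith
  have hn1 : (1 : ℝ) ≤ n := by
    have : (2 : ℝ) ≤ n := by exact_mod_cast hn
    linarith
  set s : ℝ := Real.sqrt n with hs
  have hs1 : 1 ≤ s := by
    rw [hs]
    exact Real.one_le_sqrt.2 hn1
  have hs0 : 0 < s := by linarith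
  have hs2 : s ^ 2 = n := Real.sq_sqrt hn0.le
  set ρ : ℝ := η / s with hρd
  have hρ0 : 0 < ρ := by positivity
  have hρη : ρ ≤ η := div_le_self hη0.le hs1
  have hρ168 : ρ ≤ 1 / 168 := hρη.trans hη1
  have hρC : 9 * C * ρ ^ 2 ≤ 1 / (2 * n) := by
    rw [hρd, div_pow, hs2, ← mul_div_assoc, div_le_div_iff₀ hn0 (by positivity)]
    nlinarith
  set M : ℕ := ⌊1 / (168 * ρ)⌋₊ with hM
  have hy1 : 1 ≤ 1 / (168 * ρ) := by
    rw [le_div_iff₀ (by positivity)]
    linarith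
  have hM1 : (M : ℝ) ≤ 1 / (168 * ρ) := Nat.floor_le (by positivity)
  have hM2 : 1 / (336 * ρ) ≤ M := by
    have h1 : 1 / (168 * ρ) < M + 1 := Nat.lt_floor_add_one _
    have h2 : (1 : ℝ) ≤ M := by
      have : 1 ≤ M := Nat.le_floor (by simpa using hy1)
      exact_mod_cast this
    have h3 : 1 / (336 * ρ) = 1 / (168 * ρ) / 2 := by
      rw [div_div]
      congr 1
      ring
    rw [h3]
    linarith
  have hMM : 21 * ρ * M ≤ 1 / 8 := by
    calc 21 * ρ * M ≤ 21 * ρ * (1 / (168 * ρ)) := mul_le_mul_of_nonneg_left hM1 (by positivity)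
      _ = 1 / 8 := by
        field_simp
        norm_num
  obtain ⟨tc, tx, _⟩ := tst_facts hρ0 hMM
  have hgood : ∀ x ∈ tst ρ M, ∀ i ∈ ev n, ∀ j ∈ od n,
      MeasurableSet (Good (pts n) ρ x i j) ∧
      ENNReal.ofReal (c ^ 2 * ρ ^ 4 / 320000) ≤ Measure.pi μ (Good (pts n) ρ x i j) := by
    intro x hx i hi j hj
    have hij : i ≠ j := by
      rintro rfl
      exact (Finset.mem_filter.1 hj).2 (Finset.mem_filter.1 hi).2
    exact good_prob hμ hμ' hρ0 (by linarith) hρC (fun m => pts_dist m (tx x hx)) hij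
  refine ⟨fun v => ∑ x ∈ tst ρ M, ∑ i ∈ ev n, ∑ j ∈ od n,
    (Good (pts n) ρ x i j).indicator (fun _ => (1 : ℝ≥0∞)) v, ?_,
    fun v => lower_det hρ0 (by linarith) hMM v, ?_⟩
  · exact Finset.measurable_sum _ fun x hx => Finset.measurable_sum _ fun i hi =>
      Finset.measurable_sum _ fun j hj => measurable_const.indicator (hgood x hx i hi j hj).1
  · have m1 : ∀ x ∈ tst ρ M, ∀ i ∈ ev n, ∀ j ∈ od n, Measurable fun v =>
        (Good (pts n) ρ x i j).indicator (fun _ => (1 : ℝ≥0∞)) v := fun x hx i hi j hj =>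
      measurable_const.indicator (hgood x hx i hi j hj).1
    rw [lintegral_finsetSum' _ (fun x hx => (Finset.measurable_sum _ fun i hi =>
      Finset.measurable_sum _ fun j hj => m1 x hx i hi j hj).aemeasurable)]
    have e1 : ∀ x ∈ tst ρ M, ∀ i ∈ ev n, ∀ j ∈ od n,
        ENNReal.ofReal (c ^ 2 * ρ ^ 4 / 320000) ≤ ∫⁻ v,
          (Good (pts n) ρ x i j).indicator (fun _ => (1 : ℝ≥0∞)) v ∂(Measure.pi μ) := by
      intro x hx i hi j hj
      rw [lintegral_indicator (hgood x hx i hi j hj).1, lintegral_const,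
        Measure.restrict_apply_univ, one_mul]
      exact (hgood x hx i hi j hj).2
    have e2 : ∑ _x ∈ tst ρ M, ∑ _i ∈ ev n, ∑ _j ∈ od n,
        ENNReal.ofReal (c ^ 2 * ρ ^ 4 / 320000) ≤
        ∑ x ∈ tst ρ M, ∫⁻ v, ∑ i ∈ ev n, ∑ j ∈ od n,
          (Good (pts n) ρ x i j).indicator (fun _ => (1 : ℝ≥0∞)) v ∂(Measure.pi μ) := by
      refine Finset.sum_le_sum fun x hx => ?_
      rw [lintegral_finsetSum' _ (fun i hi => (Finset.measurable_sum _ fun j hj =>
        m1 x hx i hi j hj).aemeasurable)]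
      refine Finset.sum_le_sum fun i hi => ?_
      rw [lintegral_finsetSum' _ (fun j hj => (m1 x hx i hi j hj).aemeasurable)]
      exact Finset.sum_le_sum fun j hj => e1 x hx i hi j hj
    refine le_trans ?_ e2
    simp only [Finset.sum_const, nsmul_eq_mul]
    rw [tc, ← ENNReal.ofReal_natCast, ← ENNReal.ofReal_natCast, ← ENNReal.ofReal_natCast,
      ← ENNReal.ofReal_mul (by positivity), ← ENNReal.ofReal_mul (by positivity),
      ← ENNReal.ofReal_mul (by positivity)]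
    apply ENNReal.ofReal_le_ofReal
    obtain ⟨ce, co⟩ := card_ev_od hn
    have h32 : (n : ℝ) ^ (3 / 2 : ℝ) = n ^ 2 / s := by
      rw [eq_div_iff hs0.ne', hs, Real.sqrt_eq_rpow, ← Real.rpow_add hn0, ← Real.rpow_natCast]
      norm_num
    have hcalc : c ^ 2 * η / (336 ^ 3 * 9 * 320000) * (n : ℝ) ^ (3 / 2 : ℝ) =
        (1 / (336 * ρ)) ^ 3 * ((n : ℝ) / 3 * ((n : ℝ) / 3 * (c ^ 2 * ρ ^ 4 / 320000))) := by
      rw [h32, hρd]
      field_simp
      norm_num
    rw [hcalc]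
    have hq : 0 ≤ c ^ 2 * ρ ^ 4 / 320000 := by positivity
    have k1 : (1 / (336 * ρ)) ^ 3 ≤ ((M ^ 3 : ℕ) : ℝ) := by
      push_cast
      exact pow_le_pow_left₀ (by positivity) hM2 3
    have k2 : (n : ℝ) / 3 * (c ^ 2 * ρ ^ 4 / 320000) ≤
        ((od n).card : ℝ) * (c ^ 2 * ρ ^ 4 / 320000) := mul_le_mul_of_nonneg_right co hq
    have k3 : (n : ℝ) / 3 * ((n : ℝ) / 3 * (c ^ 2 * ρ ^ 4 / 320000)) ≤
        ((ev n).card : ℝ) * (((od n).card : ℝ) * (c ^ 2 * ρ ^ 4 / 320000)) :=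
      mul_le_mul ce k2 (by positivity) (by positivity)
    exact mul_le_mul k1 k3 (by positivity) (by positivity)
-- END lmn

end Pool.Agent.Vrl
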