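import Pool.Agent.Vrd.Prod

/-!
The number of faces of the minimisation diagram of quadratic polynomials in three variables is at
most a constant times the number of sets of at most four joint minimisers
-/

set_option autoImplicit false

namespace Pool.Agent.Vrl

open MeasureTheory Set MvPolynomial Vor
open scoped ENNReal NNReal

-- BEGIN gen
/-- For every injective `e : Fin 4 → W` the image of `B` under `x ↦ (h (e k) x)_k`, a `C^1` map from `ℝ^3` to `ℝ^4`, is compact
and has a dense complement (`ContDiff.dense_compl_range_of_finrank_lt_finrank`), so its complement is open and dense, and so is the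
preimage under `t ↦ (t (e k))_k` (`Dense.preimage` for the open map, or directly: move the coordinates `e k` of a point; `e`
injective). A finite intersection of open dense sets is dense (`dense_iInter_of_isOpen`). If
`{w | h w x = t w}` had four elements there would be such an `e` (`Set.ncard`, `Finset.exists_subset_card_eq`). -/
theorem exists_generic {W : Type} [Fintype W] (h : W → (Fin 3 → ℝ) → ℝ)
    (hh : ∀ w, ContDiff ℝ 1 (h w)) (B : Set (Fin 3 → ℝ)) (hB : IsCompact B) (O : Set (W → ℝ))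
    (hO : IsOpen O) (hne : O.Nonempty) : ∃ t ∈ O, ∀ x ∈ B, {w | h w x = t w}.ncard ≤ 3 := by
  classical
  let ι := {e : Fin 4 → W // Function.Injective e}
  let F : ι → (Fin 3 → ℝ) → (Fin 4 → ℝ) := fun e x k => h (e.1 k) x
  have hF : ∀ e, ContDiff ℝ 1 (F e) := fun e => contDiff_pi.2 fun k => hh _
  let π : ι → ((W → ℝ) →L[ℝ] (Fin 4 → ℝ)) := fun e =>
    ContinuousLinearMap.pi fun k => ContinuousLinearMap.proj (e.1 k)
  have hπ : ∀ e t k, π e t k = t (e.1 k) := fun e t k => rfl
  have hsurj : ∀ e, Function.Surjective (π e) := by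
    intro e g
    refine ⟨Function.extend e.1 g 0, ?_⟩
    funext k
    rw [hπ, e.2.extend_apply]
  let U : ι → Set (W → ℝ) := fun e => (π e) ⁻¹' (F e '' B)ᶜ
  have hUo : ∀ e, IsOpen (U e) := fun e =>
    ((hB.image (hF e).continuous).isClosed.isOpen_compl).preimage (π e).continuous
  have hUd : ∀ e, Dense (U e) := by
    intro e
    have h1 : Dense ((range (F e))ᶜ) := by
      refine (hF e).dense_compl_range_of_finrank_lt_finrank ?_
      rw [Module.finrank_fin_fun, Module.finrank_fin_fun]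
      norm_num
    have h2 : Dense ((F e '' B)ᶜ) := h1.mono (compl_subset_compl.2 (image_subset_range _ _))
    exact h2.preimage ((π e).isOpenMap (hsurj e))
  have hd : Dense (⋂ e, U e) := dense_iInter_of_isOpen hUo hUd
  obtain ⟨t, ht, htO⟩ := hd.exists_mem_open hO hne
  refine ⟨t, htO, fun x hx => ?_⟩
  by_contra hcon
  push Not at hcon
  have h4 : 4 ≤ ({w | h w x = t w} : Set W).toFinset.card := by
    rw [← Set.ncard_eq_toFinset_card']
    exact hcon
  obtain ⟨s, hs, hs4⟩ := Finset.exists_subset_card_eq h4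
  let e0 := (Finset.equivFinOfCardEq hs4).symm
  let e : ι := ⟨fun k => (e0 k : W), Subtype.val_injective.comp e0.injective⟩
  have h5 : t ∈ U e := mem_iInter.1 ht e
  apply h5
  refine ⟨x, hx, ?_⟩
  funext k
  rw [hπ]
  have h6 : (e0 k : W) ∈ ({w | h w x = t w} : Set W).toFinset := hs (e0 k).2
  rw [Set.mem_toFinset] at h6
  exact h6
-- END gen

-- BEGIN mxl
private theorem mxl_clopen (D U : Set (Fin 3 → ℝ)) (hD : IsCompact D) (hU : IsOpen U)
    (z : Fin 3 → ℝ) (hz : z ∈ D) (h : connectedComponentIn D z ⊆ U) :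
    ∃ V O : Set (Fin 3 → ℝ), IsOpen O ∧ IsClosed V ∧ z ∈ V ∧ V ⊆ U ∧ V = D ∩ O := by
  have : CompactSpace D := isCompact_iff_compactSpace.1 hD
  rw [connectedComponentIn_eq_image hz] at h
  have h1 : connectedComponent (⟨z, hz⟩ : D) ⊆ Subtype.val ⁻¹' U := fun y hy => h ⟨y, hy, rfl⟩
  rw [connectedComponent_eq_iInter_isClopen] at h1
  have hcl : IsCompact ((Subtype.val ⁻¹' U : Set D)ᶜ) :=
    (hU.preimage continuous_subtype_val).isClosed_compl.isCompact
  obtain ⟨u, hu⟩ := hcl.elim_finite_subfamily_closed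
    (fun s : { s : Set D // IsClopen s ∧ (⟨z, hz⟩ : D) ∈ s } => (s : Set D))
    (fun s => s.2.1.isClosed) (by
      rw [Set.eq_empty_iff_forall_notMem]
      rintro y ⟨hy1, hy2⟩
      exact hy1 (h1 hy2))
  have hclop : IsClopen (⋂ s ∈ u, (s : Set D)) := isClopen_biInter_finset fun s _ => s.2.1
  obtain ⟨O, hO, hOe⟩ := isOpen_induced_iff.1 hclop.isOpen
  refine ⟨Subtype.val '' (⋂ s ∈ u, (s : Set D)), O, hO, ?_, ?_, ?_, ?_⟩
  · exact (hclop.isClosed.isCompact.image continuous_subtype_val).isClosed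
  · exact ⟨⟨z, hz⟩, Set.mem_iInter₂.2 fun s _ => s.2.2, rfl⟩
  · rintro _ ⟨y, hy, rfl⟩
    by_contra hyU
    have : y ∈ ((Subtype.val ⁻¹' U : Set D)ᶜ) ∩ ⋂ s ∈ u, (s : Set D) := ⟨hyU, hy⟩
    rw [hu] at this
    exact this
  · rw [← hOe]
    ext y
    constructor
    · rintro ⟨w, hw, rfl⟩
      exact ⟨w.2, hw⟩
    · rintro ⟨hy1, hy2⟩
      exact ⟨⟨y, hy1⟩, hy2, rfl⟩

/-- Let `C = connectedComponentIn Q x0`, `Q = {y ∈ B | ∀ w, t w ≤ h w y}`. Choose `z ∈ C` with the number of
`J = {w | h w z = t w}` maximal. `D = {y ∈ Q | ∀ w ∈ J, h w y = t w}` is compact, `Y = connectedComponentIn D z ⊆ C`. For `y ∈ Y`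
the set `{w | h w y = t w}` contains `J`, so it is `J` (maximality): `Y ⊆ U = {y | ∀ w ∉ J, t w < h w y}`, an open set. `Y` is
the intersection of the clopen subsets of the compact space `D` which contain `z` (`connectedComponent_eq_iInter_isClopen`; compare the
proof of `Vor.separate`), so by compactness there is a clopen subset `V` of `D` with `z ∈ V ⊆ U`. `V` is closed in
`S = {y ∈ B | ∀ w ∈ J, h w y = t w}`, and open in `S` since `D ∩ U = S ∩ U`. So `V` is clopen in `S` and contains the component of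
`z` in `S`, which is therefore contained in `V ⊆ Q` and in `C`. -/
theorem exists_max {W : Type} [Fintype W] (h : W → (Fin 3 → ℝ) → ℝ) (hh : ∀ w, Continuous (h w))
    (t : W → ℝ) (B : Set (Fin 3 → ℝ)) (hB : IsCompact B) (x0 : Fin 3 → ℝ) (hx0 : x0 ∈ B)
    (hx : ∀ w, t w ≤ h w x0) :
    ∃ z ∈ connectedComponentIn {y | y ∈ B ∧ ∀ w, t w ≤ h w y} x0,
      connectedComponentIn {y | y ∈ B ∧ ∀ w, h w z = t w → h w y = t w} z ⊆
        connectedComponentIn {y | y ∈ B ∧ ∀ w, t w ≤ h w y} x0 := by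
  classical
  set Q : Set (Fin 3 → ℝ) := {y | y ∈ B ∧ ∀ w, t w ≤ h w y} with hQ
  set C : Set (Fin 3 → ℝ) := connectedComponentIn Q x0 with hC
  have hx0Q : x0 ∈ Q := ⟨hx0, hx⟩
  have hQcl : IsClosed {y : Fin 3 → ℝ | ∀ w, t w ≤ h w y} := by
    rw [Set.setOf_forall]
    exact isClosed_iInter fun w => isClosed_le continuous_const (hh w)
  have hQc : IsCompact Q := hB.inter_right hQcl
  -- a point of `C` with the largest number of active walls
  obtain ⟨z, hzC, hzmax⟩ : ∃ z ∈ C, ∀ y ∈ C,
      (Finset.univ.filter fun w => h w y = t w).card ≤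
        (Finset.univ.filter fun w => h w z = t w).card := by
    have hne : (((fun y => (Finset.univ.filter fun w => h w y = t w).card) '' C : Set ℕ)).Nonempty :=
      ⟨_, x0, mem_connectedComponentIn hx0Q, rfl⟩
    have hbd : BddAbove ((fun y => (Finset.univ.filter fun w => h w y = t w).card) '' C : Set ℕ) :=
      ⟨Fintype.card W, by
        rintro _ ⟨y, _, rfl⟩
        exact Finset.card_le_univ _⟩
    obtain ⟨z, hz, hze⟩ := Nat.sSup_mem hne hbd
    exact ⟨z, hz, fun y hy => by
      have h1 : (Finset.univ.filter fun w => h w y = t w).card ≤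
          sSup ((fun y => (Finset.univ.filter fun w => h w y = t w).card) '' C : Set ℕ) :=
        le_csSup hbd ⟨y, hy, rfl⟩
      rw [← hze] at h1
      exact h1⟩
  have hCQ : C ⊆ Q := connectedComponentIn_subset Q x0
  have hzQ : z ∈ Q := hCQ hzC
  refine ⟨z, hzC, ?_⟩
  have hCz : connectedComponentIn Q z = C := (connectedComponentIn_eq hzC).symm
  set S : Set (Fin 3 → ℝ) := {y | y ∈ B ∧ ∀ w, h w z = t w → h w y = t w} with hS
  set D : Set (Fin 3 → ℝ) := {y | y ∈ Q ∧ ∀ w, h w z = t w → h w y = t w} with hD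
  have hDcl : IsClosed {y : Fin 3 → ℝ | ∀ w, h w z = t w → h w y = t w} := by
    rw [Set.setOf_forall]
    refine isClosed_iInter fun w => ?_
    by_cases hw : h w z = t w
    · simp only [hw, true_imp_iff]
      exact isClosed_eq (hh w) continuous_const
    · simp only [hw, false_imp_iff, Set.setOf_true]
      exact isClosed_univ
  have hDc : IsCompact D := hQc.inter_right hDcl
  have hScl : IsClosed S := hB.isClosed.inter hDcl
  have hzD : z ∈ D := ⟨hzQ, fun w hw => hw⟩
  have hzS : z ∈ S := ⟨hzQ.1, fun w hw => hw⟩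
  set U : Set (Fin 3 → ℝ) := {y | ∀ w, h w z ≠ t w → t w < h w y} with hU
  have hUo : IsOpen U := by
    rw [hU, Set.setOf_forall]
    refine isOpen_iInter_of_finite fun w => ?_
    by_cases hw : h w z = t w
    · simp only [hw, ne_eq, not_true_eq_false, false_imp_iff, Set.setOf_true]
      exact isOpen_univ
    · simp only [ne_eq, hw, not_false_eq_true, true_imp_iff]
      exact isOpen_lt continuous_const (hh w)
  have hYU : connectedComponentIn D z ⊆ U := by
    intro y hy
    have hyD : y ∈ D := connectedComponentIn_subset D z hy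
    have hyC : y ∈ C := by
      rw [← hCz]
      exact connectedComponentIn_mono z (fun w hw => hw.1) hy
    intro w hw
    refine lt_of_le_of_ne (hyD.1.2 w) fun he => ?_
    have hss : (Finset.univ.filter fun w => h w z = t w) ⊂
        (Finset.univ.filter fun w => h w y = t w) := by
      refine Finset.ssubset_iff_subset_ne.2 ⟨fun v hv => ?_, fun hee => ?_⟩
      · rw [Finset.mem_filter] at hv ⊢
        exact ⟨Finset.mem_univ _, hyD.2 v hv.2⟩
      · have : w ∈ (Finset.univ.filter fun w => h w y = t w) :=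
          Finset.mem_filter.2 ⟨Finset.mem_univ _, he.symm⟩
        rw [← hee] at this
        exact hw (Finset.mem_filter.1 this).2
    exact absurd (Finset.card_lt_card hss) (not_lt.2 (hzmax y hyC))
  obtain ⟨V, O, hOo, hVcl, hzV, hVU, hVe⟩ := mxl_clopen D U hDc hUo z hzD hYU
  have hK : connectedComponentIn S z ⊆ V := by
    have hpre : IsPreconnected (connectedComponentIn S z) := isPreconnected_connectedComponentIn
    have hKS : connectedComponentIn S z ⊆ S := connectedComponentIn_subset S z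
    have hcl2 : IsClosed (S \ (U ∩ O)) := by
      rw [Set.diff_eq]
      exact hScl.inter (hUo.inter hOo).isClosed_compl
    have hcov : connectedComponentIn S z ⊆ V ∪ (S \ (U ∩ O)) := by
      intro y hy
      by_cases hyUO : y ∈ U ∩ O
      · left
        rw [hVe]
        refine ⟨⟨⟨(hKS hy).1, fun w => ?_⟩, (hKS hy).2⟩, hyUO.2⟩
        by_cases hw : h w z = t w
        · exact ((hKS hy).2 w hw).ge
        · exact (hyUO.1 w hw).le
      · exact Or.inr ⟨hKS hy, hyUO⟩
    rcases isPreconnected_iff_subset_of_disjoint_closed.1 hpre V (S \ (U ∩ O)) hVcl hcl2 hcov (by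
        rw [Set.eq_empty_iff_forall_notMem]
        rintro y ⟨_, hy1, hy2⟩
        refine hy2.2 ⟨hVU hy1, ?_⟩
        rw [hVe] at hy1
        exact hy1.2) with h1 | h1
    · exact h1
    · exfalso
      refine (h1 (mem_connectedComponentIn hzS)).2 ⟨hVU hzV, ?_⟩
      rw [hVe] at hzV
      exact hzV.2
  rw [← hCz]
  refine isPreconnected_connectedComponentIn.subset_connectedComponentIn
    (mem_connectedComponentIn hzS) ?_
  intro y hy
  have := hK hy
  rw [hVe] at this
  exact this.1.1
-- END mxl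

/-- the joint minimisers at `z` -/
def Arg {n : ℕ} (Q : Fin n → MvPolynomial (Fin 3) ℝ) (z : Fin 3 → ℝ) : Set (Fin n) :=
  {i | ∀ j, eval z (Q i) ≤ eval z (Q j)}

open Classical in
/-- the sets of at most four joint minimisers -/
noncomputable def Lab {n : ℕ} (Q : Fin n → MvPolynomial (Fin 3) ℝ) : Finset (Finset (Fin n)) :=
  Finset.univ.filter fun S => S.Nonempty ∧ S.card ≤ 4 ∧ ∃ z, (S : Set (Fin n)) ⊆ Arg Q z

-- BEGIN the
private theorem the_one {n : ℕ} (Q : Fin n → MvPolynomial (Fin 3) ℝ) (i : Fin n)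
    (B : Set (Fin 3 → ℝ)) (hB : IsCompact B) (M : Finset (Fin n)) :
    ∃ θ : ℝ, 0 < θ ∧ ∀ z : Fin 3 → ℝ, z ∈ B →
      (∀ k, -θ ≤ eval z (Q k) - eval z (Q i)) → (∀ m ∈ M, |eval z (Q m) - eval z (Q i)| ≤ θ) →
      ∃ z', ((insert i M : Finset (Fin n)) : Set (Fin n)) ⊆ Arg Q z' := by
  classical
  by_cases hex : ∃ z', ((insert i M : Finset (Fin n)) : Set (Fin n)) ⊆ Arg Q z'
  · exact ⟨1, one_pos, fun _ _ _ _ => hex⟩
  rcases B.eq_empty_or_nonempty with rfl | hne
  · exact ⟨1, one_pos, fun z hz => absurd hz (Set.notMem_empty z)⟩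
  let f : (Fin 3 → ℝ) → ℝ := fun z => (∑ k, max 0 (-(eval z (Q k) - eval z (Q i)))) +
    ∑ m ∈ M, |eval z (Q m) - eval z (Q i)|
  have hev : ∀ k, Continuous fun z : Fin 3 → ℝ => eval z (Q k) := fun k =>
    MvPolynomial.continuous_eval (Q k)
  have hf : Continuous f := by
    refine Continuous.add (continuous_finset_sum _ fun k _ => ?_) (continuous_finset_sum _ fun m _ => ?_)
    · exact continuous_const.max ((hev k).sub (hev i)).neg
    · exact ((hev m).sub (hev i)).abs
  have hn1 : ∀ z, 0 ≤ ∑ k, max 0 (-(eval z (Q k) - eval z (Q i))) := fun z =>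
    Finset.sum_nonneg fun k _ => le_max_left _ _
  have hn2 : ∀ z, 0 ≤ ∑ m ∈ M, |eval z (Q m) - eval z (Q i)| := fun z =>
    Finset.sum_nonneg fun k _ => abs_nonneg _
  have hpos : ∀ z, 0 < f z := by
    intro z
    refine lt_of_le_of_ne (add_nonneg (hn1 z) (hn2 z)) fun h0 => hex ⟨z, ?_⟩
    have h1 : ∑ k, max 0 (-(eval z (Q k) - eval z (Q i))) = 0 := by
      have := hn1 z
      have := hn2 z
      have h3 : f z = 0 := h0.symm
      simp only [f] at h3
      linarith
    have h2 : ∑ m ∈ M, |eval z (Q m) - eval z (Q i)| = 0 := by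
      have := hn1 z
      have := hn2 z
      have h3 : f z = 0 := h0.symm
      simp only [f] at h3
      linarith
    have h3 : ∀ k, eval z (Q i) ≤ eval z (Q k) := by
      intro k
      have h4 := (Finset.sum_eq_zero_iff_of_nonneg fun k _ => le_max_left _ _).1 h1 k
        (Finset.mem_univ _)
      have h5 := le_max_right 0 (-(eval z (Q k) - eval z (Q i)))
      rw [h4] at h5
      linarith
    intro m hm
    rw [Finset.coe_insert, Set.mem_insert_iff, Finset.mem_coe] at hm
    rcases hm with rfl | hm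
    · exact h3
    · have h4 := (Finset.sum_eq_zero_iff_of_nonneg fun k _ => abs_nonneg _).1 h2 m hm
      have h5 : eval z (Q m) = eval z (Q i) := sub_eq_zero.1 (abs_eq_zero.1 h4)
      intro k
      rw [h5]
      exact h3 k
  obtain ⟨y, hy, hmin⟩ := hB.exists_isMinOn hne hf.continuousOn
  have hc : (0 : ℝ) < 2 * n + 1 := by positivity
  refine ⟨f y / (2 * n + 1), div_pos (hpos y) hc, fun z hz h1 h2 => ?_⟩
  exfalso
  have h3 : f y ≤ f z := hmin hz
  have hθ : 0 < f y / (2 * n + 1) := div_pos (hpos y) hc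
  have h4 : ∑ k, max 0 (-(eval z (Q k) - eval z (Q i))) ≤ n * (f y / (2 * n + 1)) := by
    have h5 : ∑ k, max 0 (-(eval z (Q k) - eval z (Q i))) ≤
        ∑ _k : Fin n, (f y / (2 * n + 1)) := by
      refine Finset.sum_le_sum fun k _ => max_le hθ.le ?_
      have := h1 k
      linarith
    rwa [Finset.sum_const, Finset.card_univ, Fintype.card_fin, nsmul_eq_mul] at h5
  have h5 : ∑ m ∈ M, |eval z (Q m) - eval z (Q i)| ≤ n * (f y / (2 * n + 1)) := by
    have h6 : ∑ m ∈ M, |eval z (Q m) - eval z (Q i)| ≤ ∑ _m ∈ M, (f y / (2 * n + 1)) :=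
      Finset.sum_le_sum fun m hm => h2 m hm
    rw [Finset.sum_const, nsmul_eq_mul] at h6
    have h7 : (M.card : ℝ) ≤ n := by
      have := Finset.card_le_univ M
      rw [Fintype.card_fin] at this
      exact_mod_cast this
    exact h6.trans (mul_le_mul_of_nonneg_right h7 hθ.le)
  have h6 : f z ≤ 2 * n * (f y / (2 * n + 1)) := by
    simp only [f] at h4 h5 ⊢
    linarith
  have h7 : (2 * n + 1) * (f y / (2 * n + 1)) = f y := mul_div_cancel₀ _ hc.ne'
  nlinarith

/-- For one `M` with `insert i M` not contained in any `Arg Q z`, `z ∈ B`: the compact sets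
`{z ∈ B | ∀ k, -θ ≤ P_k z, ∀ m ∈ M, |P_m z| ≤ θ}`, `P_k = Q k - Q i`, decrease to the empty set for `θ → 0` (`θ = 1/(j+1)`,
`IsCompact.nonempty_iInter_of_sequence_nonempty_isCompact_isClosed`), so one of them is empty. Finitely many `M`: minimum. -/
theorem exists_theta {n : ℕ} (Q : Fin n → MvPolynomial (Fin 3) ℝ) (i : Fin n)
    (B : Set (Fin 3 → ℝ)) (hB : IsCompact B) :
    ∃ θ : ℝ, 0 < θ ∧ ∀ (M : Finset (Fin n)) (z : Fin 3 → ℝ), z ∈ B →
      (∀ k, -θ ≤ eval z (Q k) - eval z (Q i)) → (∀ m ∈ M, |eval z (Q m) - eval z (Q i)| ≤ θ) →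
      ∃ z', ((insert i M : Finset (Fin n)) : Set (Fin n)) ⊆ Arg Q z' := by
  choose θ hθ using the_one Q i B hB
  have hne : (Finset.univ : Finset (Finset (Fin n))).Nonempty := ⟨∅, Finset.mem_univ _⟩
  refine ⟨Finset.univ.inf' hne θ, (Finset.lt_inf'_iff hne).2 fun M _ => (hθ M).1, ?_⟩
  intro M z hz h1 h2
  have h3 : Finset.univ.inf' hne θ ≤ θ M := Finset.inf'_le θ (Finset.mem_univ M)
  refine (hθ M).2 z hz (fun k => ?_) fun m hm => (h2 m hm).trans h3
  have := h1 k
  linarith
-- END the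

-- BEGIN sp2
private theorem sp2_fin {ι : Type*} (S : Finset ι) (G : ι → ℝ → Prop)
    (h : ∀ p ∈ S, ∃ e : ℝ, 0 < e ∧ ∀ ε : ℝ, 0 < ε → ε ≤ e → G p ε) :
    ∃ e : ℝ, 0 < e ∧ ∀ p ∈ S, ∀ ε : ℝ, 0 < ε → ε ≤ e → G p ε := by
  classical
  induction S using Finset.induction_on with
  | empty => exact ⟨1, one_pos, fun p hp => absurd hp (Finset.notMem_empty p)⟩
  | insert a S _ ih =>
    obtain ⟨e, he, h1⟩ := ih fun p hp => h p (Finset.mem_insert_of_mem hp)
    obtain ⟨f, hf, h2⟩ := h a (Finset.mem_insert_self a S)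
    refine ⟨min e f, lt_min he hf, fun p hp ε h0 h3 => ?_⟩
    rcases Finset.mem_insert.1 hp with hp | hp
    · subst hp
      exact h2 ε h0 (h3.trans (min_le_right _ _))
    · exact h1 p hp ε h0 (h3.trans (min_le_left _ _))

private theorem sp2_nn {n : ℕ} (Q : Fin n → MvPolynomial (Fin 3) ℝ) (i : Fin n) (z : Fin 3 → ℝ)
    (h : i ∈ Arg Q z) (k : Fin n) : 0 ≤ eval z (Q k) - eval z (Q i) := sub_nonneg.2 (h k)

private theorem sp2_mem {n : ℕ} (Q : Fin n → MvPolynomial (Fin 3) ℝ) (i : Fin n) (z : Fin 3 → ℝ)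
    (h : i ∈ Arg Q z) (k : Fin n) : k ∈ Arg Q z ↔ eval z (Q k) - eval z (Q i) = 0 := by
  constructor
  · intro hk
    linarith [hk i, h k]
  · intro hk j
    linarith [h j]

/-- `Vor.separate` with `κ = Fin n`, `P k z = eval z (Q k) - eval z (Q i)` (`Arg` at a point `z` with `i ∈ Arg Q z` is the set of zeros;
all values are `≥ 0` there), `α = -ρ - δ`, `β = ρ + δ`: for every pair `x ≠ y` of `F` with `Arg Q x = Arg Q y` it gives
an `ε0` (`hsep` by `connectedComponentIn_mono`); minimum over the finitely many pairs. For `ε ≤ ε0` the connected set `C ⊆ Cell ⊆ V0 ∪ V1`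
cannot contain both points. -/
theorem exists_eps {n : ℕ} (Q : Fin n → MvPolynomial (Fin 3) ℝ) (i : Fin n)
    (F : Finset (Fin 3 → ℝ)) (hi : ∀ x ∈ F, i ∈ Arg Q x) {ρ δ : ℝ} (hδ : 0 < δ)
    (hρ : ∀ x ∈ F, ∀ c, |x c| ≤ ρ)
    (hFδ : ∀ x ∈ F, ∀ k, k ∉ Arg Q x → δ ≤ eval x (Q k) - eval x (Q i))
    (hsep : ∀ x ∈ F, ∀ y ∈ F, x ≠ y → Arg Q y = Arg Q x →
      y ∉ connectedComponentIn {z | Arg Q z = Arg Q x} x) :
    ∃ ε0 : ℝ, 0 < ε0 ∧ ∀ x ∈ F, ∀ y ∈ F, x ≠ y → Arg Q y = Arg Q x →
      ∀ C : Set (Fin 3 → ℝ), IsPreconnected C → x ∈ C → y ∈ C → ¬ C ⊆ {z | (∀ c, |z c| ≤ ρ) ∧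
        (∀ k ∈ Arg Q x, |eval z (Q k) - eval z (Q i)| ≤ ε0) ∧
        ∀ k, k ∉ Arg Q x → δ ≤ eval z (Q k) - eval z (Q i)} := by
  have h1 : ∀ p ∈ F ×ˢ F, ∃ e : ℝ, 0 < e ∧ ∀ ε : ℝ, 0 < ε → ε ≤ e → (p.1 ≠ p.2 → Arg Q p.2 = Arg Q p.1 →
      ∀ C : Set (Fin 3 → ℝ), IsPreconnected C → p.1 ∈ C → p.2 ∈ C → ¬ C ⊆ {z | (∀ c, |z c| ≤ ρ) ∧
        (∀ k ∈ Arg Q p.1, |eval z (Q k) - eval z (Q i)| ≤ ε) ∧
        ∀ k, k ∉ Arg Q p.1 → δ ≤ eval z (Q k) - eval z (Q i)}) := by
    rintro ⟨x, y⟩ hp
    obtain ⟨hx, hy⟩ := Finset.mem_product.1 hp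
    dsimp only at hx hy ⊢
    by_cases hxy : x ≠ y ∧ Arg Q y = Arg Q x
    swap
    · exact ⟨1, one_pos, fun ε _ _ h2 h3 => absurd ⟨h2, h3⟩ hxy⟩
    obtain ⟨hne, harg⟩ := hxy
    have hix := hi x hx
    have hiy := hi y hy
    obtain ⟨V0, V1, hV0, hV1, hdis, hxV, hyV, e, he, hcell⟩ := separate
      (fun k z => eval z (Q k) - eval z (Q i))
      (fun k => ((MvPolynomial.continuous_eval (Q k)).sub (MvPolynomial.continuous_eval (Q i))))
      (fun _ => -ρ - δ) (fun _ => ρ + δ) x y δ hδ
      (by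
        refine ⟨fun c => ?_, fun l => ⟨fun h => ?_, fun h => ?_, fun h => ?_⟩⟩
        · have h3 := abs_le.1 (hρ x hx c)
          exact ⟨by linarith [h3.1], by linarith [h3.2]⟩
        · rw [h, abs_zero]
        · refine hFδ x hx l fun hl => ?_
          exact h.ne' ((sp2_mem Q i x hix l).1 hl)
        · exact absurd (sp2_nn Q i x hix l) (not_le.2 h))
      (by
        refine ⟨fun c => ?_, fun l => ⟨fun h => ?_, fun h => ?_, fun h => ?_⟩⟩
        · have h3 := abs_le.1 (hρ y hy c)
          exact ⟨by linarith [h3.1], by linarith [h3.2]⟩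
        · have h4 : l ∈ Arg Q y := by
            rw [harg]
            exact (sp2_mem Q i x hix l).2 h
          exact (abs_eq_zero.2 ((sp2_mem Q i y hiy l).1 h4)).le
        · refine hFδ y hy l fun hl => ?_
          rw [harg] at hl
          exact h.ne' ((sp2_mem Q i x hix l).1 hl)
        · exact absurd (sp2_nn Q i x hix l) (not_le.2 h))
      (by
        intro hmem
        refine hsep x hx y hy hne harg (connectedComponentIn_mono x ?_ hmem)
        rintro z ⟨_, hz⟩
        have h5 : ∀ l, 0 ≤ eval z (Q l) - eval z (Q i) := by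
          intro l
          have h6 := hz l
          rw [← sign_nonneg_iff, h6, sign_nonneg_iff]
          exact sp2_nn Q i x hix l
        have h7 : i ∈ Arg Q z := fun l => by linarith [h5 l]
        ext l
        have h6 := hz l
        rw [sp2_mem Q i z h7 l, sp2_mem Q i x hix l, ← sign_eq_zero_iff, h6, sign_eq_zero_iff])
    refine ⟨e, he, fun ε h0 hε _ _ C hC hxC hyC hsub => ?_⟩
    have h8 : C ⊆ V0 ∪ V1 := by
      refine Set.Subset.trans ?_ (hcell ε h0 hε)
      intro z hz
      obtain ⟨h9, h10, h11⟩ := hsub hz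
      refine ⟨fun c => ?_, fun l => ⟨fun h => ?_, fun h => ?_, fun h => ?_⟩⟩
      · have h3 := abs_le.1 (h9 c)
        exact ⟨by linarith [h3.1], by linarith [h3.2]⟩
      · exact h10 l ((sp2_mem Q i x hix l).2 h)
      · refine h11 l fun hl => ?_
        exact h.ne' ((sp2_mem Q i x hix l).1 hl)
      · exact absurd (sp2_nn Q i x hix l) (not_le.2 h)
    obtain ⟨w, _, hw0, hw1⟩ := hC V0 V1 hV0 hV1 h8 ⟨x, hxC, hxV⟩ ⟨y, hyC, hyV⟩
    exact Set.disjoint_left.1 hdis hw0 hw1
  obtain ⟨e, he, h2⟩ := sp2_fin (F ×ˢ F) _ h1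
  exact ⟨e, he, fun x hx y hy => h2 (x, y) (Finset.mem_product.2 ⟨hx, hy⟩) e he le_rfl⟩
-- END sp2

-- BEGIN fib
/-- `Vor.warren` with `κ = J ⊕ W'` hmm: index type `{w // w ∈ J ∨ w ∈ A}`, polynomials `H w - C (t w)`, in a box `(-r, r)^3`,
`r > ρ`: for `z ∈ F` the sign set of `warren` is contained in `{y | y ∈ B ∧ ∀ w ∈ J, eval y (H w) = t w}`: for `w ∈ J` the sign is
`0`, for `w ∈ A` the sign at `z` is `0` or `1` (`z ∈ B`), so `t w ≤ eval y (H w)` and `y ∈ B`. The number of polynomials is at most `9`. -/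
theorem fiber_count {W : Type} [Fintype W] [DecidableEq W] (H : W → MvPolynomial (Fin 3) ℝ)
    (hH : ∀ w, (H w).totalDegree ≤ 2) (t : W → ℝ) (A J : Finset W) (hA : A.card ≤ 6)
    (hJ : J.card ≤ 3) (B : Set (Fin 3 → ℝ)) (hB : B = {y | ∀ w ∈ A, t w ≤ eval y (H w)})
    {ρ : ℝ} (hBρ : ∀ y ∈ B, ∀ c, |y c| ≤ ρ) (F : Finset (Fin 3 → ℝ)) (hF : ∀ z ∈ F, z ∈ B)
    (hFJ : ∀ z ∈ F, ∀ w ∈ J, eval z (H w) = t w)
    (hsep : ∀ x ∈ F, ∀ y ∈ F, x ≠ y →
      y ∉ connectedComponentIn {z | z ∈ B ∧ ∀ w ∈ J, eval z (H w) = t w} x) :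
    F.card ≤ 157 ^ 3 := by
  have hcard : Fintype.card {w // w ∈ J ∪ A} ≤ 9 := by
    rw [Fintype.card_coe]
    exact (Finset.card_union_le _ _).trans (by omega)
  have hmain := Vor.warren (κ := {w // w ∈ J ∪ A}) (fun l => H l.1 - C (t l.1)) (fun l => by
      refine (totalDegree_sub _ _).trans ?_
      rw [totalDegree_C]
      simpa using hH l.1) (fun _ => -(ρ + 1)) (fun _ => ρ + 1) F (fun x hx c => by
      have h := abs_le.1 (hBρ x (hF x hx) c)
      constructor
      · linarith [h.1]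
      · linarith [h.2]) (fun x hx y hy hxy hs hmem => by
      refine hsep x hx y hy hxy ?_
      refine connectedComponentIn_mono x ?_ hmem
      rintro z ⟨-, hz⟩
      simp only [map_sub, eval_C] at hz
      have hJ' : ∀ w ∈ J, eval z (H w) = t w := by
        intro w hw
        have h := hz ⟨w, Finset.mem_union_left _ hw⟩
        simp only at h
        rw [hFJ x hx w hw, sub_self, sign_zero, sign_eq_zero_iff] at h
        linarith
      refine ⟨?_, hJ'⟩
      rw [hB]
      intro w hw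
      have h := hz ⟨w, Finset.mem_union_right _ hw⟩
      simp only at h
      have hx' : t w ≤ eval x (H w) := by
        have h1 := hF x hx
        rw [hB] at h1
        exact h1 w hw
      rcases hx'.eq_or_lt with he | hl
      · rw [← he, sub_self, sign_zero, sign_eq_zero_iff] at h
        linarith
      · rw [sign_pos (sub_pos.2 hl), sign_eq_one_iff] at h
        linarith)
  refine hmain.trans (Nat.pow_le_pow_left ?_ 3)
  omega
-- END fib

-- BEGIN bas
private abbrev BW (n : ℕ) : Type := (Fin n × Fin 3) ⊕ (Fin 3 × Bool)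

/-- the wall functions: `-P_k`, `P_k`, `P_k` and the coordinates -/
private noncomputable def basH {n : ℕ} (Q : Fin n → MvPolynomial (Fin 3) ℝ) (i : Fin n) :
    BW n → MvPolynomial (Fin 3) ℝ
  | Sum.inl (k, t) => if t = 0 then Q i - Q k else Q k - Q i
  | Sum.inr (c, s) => if s = true then -X c else X c

/-- the walls of the cell of `T` -/
private def basW {n : ℕ} (T : Set (Fin n)) : BW n → Prop
  | Sum.inl (k, t) => (k ∈ T ∧ t ≠ 2) ∨ (k ∉ T ∧ t = 2)
  | Sum.inr _ => True

private theorem bas_contDiff (P : MvPolynomial (Fin 3) ℝ) :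
    ContDiff ℝ 1 (fun z : Fin 3 → ℝ => eval z P) := by
  induction P using MvPolynomial.induction_on with
  | C a =>
    simp only [eval_C]
    exact contDiff_const
  | add p q hp hq =>
    simp only [map_add]
    exact hp.add hq
  | mul_X p c hp =>
    simp only [map_mul, eval_X]
    exact hp.mul (contDiff_apply ℝ ℝ c)

private theorem basH_deg {n : ℕ} {Q : Fin n → MvPolynomial (Fin 3) ℝ}
    (hQ : ∀ m, (Q m).totalDegree ≤ 2) (i : Fin n) (w : BW n) : (basH Q i w).totalDegree ≤ 2 := by
  rcases w with ⟨k, t⟩ | ⟨c, s⟩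
  · simp only [basH]
    split_ifs
    · exact (totalDegree_sub _ _).trans (max_le (hQ _) (hQ _))
    · exact (totalDegree_sub _ _).trans (max_le (hQ _) (hQ _))
  · simp only [basH]
    split_ifs
    · rw [totalDegree_neg, totalDegree_X]
      norm_num
    · rw [totalDegree_X]
      norm_num

/-- assembly -/
theorem base_count {n : ℕ} (Q : Fin n → MvPolynomial (Fin 3) ℝ)
    (hQ : ∀ m, (Q m).totalDegree ≤ 2) (i : Fin n) (F : Finset (Fin 3 → ℝ))
    (hi : ∀ x ∈ F, i ∈ Arg Q x)
    (hsep : ∀ x ∈ F, ∀ y ∈ F, x ≠ y → Arg Q y = Arg Q x →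
      y ∉ connectedComponentIn {z | Arg Q z = Arg Q x} x) (G : Finset (Finset (Fin n)))
    (hG : ∀ M : Finset (Fin n), M.card ≤ 3 →
      (∃ z, ((insert i M : Finset (Fin n)) : Set (Fin n)) ⊆ Arg Q z) → M ∈ G) :
    F.card ≤ 157 ^ 3 * 2 ^ 15 * G.card := by
  classical
  set P : Fin n → (Fin 3 → ℝ) → ℝ := fun k z => eval z (Q k) - eval z (Q i) with hPd
  have hP0 : ∀ x ∈ F, ∀ k, 0 ≤ P k x := fun x hx k => sub_nonneg.2 (hi x hx k)
  have hPA : ∀ x ∈ F, ∀ k, k ∈ Arg Q x ↔ P k x = 0 := by
    intro x hx k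
    constructor
    · intro hk
      exact sub_eq_zero.2 (le_antisymm (hk i) (hi x hx k))
    · intro hk j
      have : eval x (Q k) = eval x (Q i) := sub_eq_zero.1 hk
      rw [this]
      exact hi x hx j
  obtain ⟨ρ, hρ⟩ : ∃ ρ : ℝ, ∀ x ∈ F, ∀ c, |x c| ≤ ρ := by
    refine ⟨∑ x ∈ F, ∑ c, |x c|, fun x hx c => ?_⟩
    calc |x c| ≤ ∑ c, |x c| :=
          Finset.single_le_sum (f := fun c => |x c|) (fun c _ => abs_nonneg _) (Finset.mem_univ c)
      _ ≤ ∑ x ∈ F, ∑ c, |x c| :=
          Finset.single_le_sum (f := fun x : Fin 3 → ℝ => ∑ c, |x c|)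
            (fun x _ => Finset.sum_nonneg fun c _ => abs_nonneg _) hx
  set B : Set (Fin 3 → ℝ) := Set.Icc (fun _ => -(ρ + 1)) (fun _ => ρ + 1) with hBd
  have hB : IsCompact B := isCompact_Icc
  obtain ⟨θ, hθ, hlab⟩ := exists_theta Q i B hB
  obtain ⟨δ1, hδ1, hFδ1⟩ : ∃ δ1 : ℝ, 0 < δ1 ∧ ∀ x ∈ F, ∀ k, k ∉ Arg Q x → δ1 ≤ P k x := by
    have e1 : ∀ᶠ δ : ℝ in nhdsWithin 0 (Set.Ioi 0), ∀ x ∈ F, ∀ k, k ∉ Arg Q x → δ ≤ P k x := by
      rw [Filter.eventually_all_finset]
      intro x hx
      rw [Filter.eventually_all]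
      intro k
      by_cases hk : k ∈ Arg Q x
      · exact Filter.Eventually.of_forall fun δ h => absurd hk h
      · have hpos : 0 < P k x := lt_of_le_of_ne (hP0 x hx k) (fun h => hk ((hPA x hx k).2 h.symm))
        have : ∀ᶠ δ : ℝ in nhdsWithin 0 (Set.Ioi 0), δ < P k x :=
          (eventually_lt_nhds hpos).filter_mono nhdsWithin_le_nhds
        filter_upwards [this] with δ hδ _
        exact hδ.le
    obtain ⟨δ, h1, h2⟩ := (e1.and self_mem_nhdsWithin).exists
    exact ⟨δ, h2, h1⟩
  set δ : ℝ := min δ1 θ with hδd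
  have hδ : 0 < δ := lt_min hδ1 hθ
  have hδθ : δ ≤ θ := min_le_right _ _
  have hFδ : ∀ x ∈ F, ∀ k, k ∉ Arg Q x → δ ≤ P k x := fun x hx k hk =>
    (min_le_left _ _).trans (hFδ1 x hx k hk)
  obtain ⟨ε0, hε0, heps⟩ := exists_eps Q i F hi (ρ := ρ + 1) (δ := δ / 2) (by positivity)
    (fun x hx c => (hρ x hx c).trans (by linarith))
    (fun x hx k hk => (by linarith : δ / 2 ≤ δ).trans (hFδ x hx k hk)) hsep
  set ε : ℝ := min (min ε0 θ) (δ / 2) with hεd
  have hε : 0 < ε := lt_min (lt_min hε0 hθ) (by positivity)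
  have hε1 : ε ≤ ε0 := (min_le_left _ _).trans (min_le_left _ _)
  have hε2 : ε ≤ θ := (min_le_left _ _).trans (min_le_right _ _)
  have hε3 : ε ≤ δ / 2 := min_le_right _ _
  set lo : BW n → ℝ := fun w => Sum.elim (fun p => if p.2 = (2 : Fin 3) then δ / 2 else -ε)
    (fun _ => -(ρ + 1)) w with hlo
  set hi' : BW n → ℝ := fun w => Sum.elim (fun p => if p.2 = (2 : Fin 3) then δ else 0)
    (fun _ => -ρ) w with hhi
  have hlohi : ∀ w, lo w < hi' w := by
    rintro (⟨k, t⟩ | ⟨c, s⟩)
    · simp only [hlo, hhi, Sum.elim_inl]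
      split_ifs <;> linarith
    · simp only [hlo, hhi, Sum.elim_inr]
      linarith
  obtain ⟨t, htO, hgen⟩ := exists_generic (fun (w : BW n) z => eval z (basH Q i w))
    (fun w => bas_contDiff _) B hB (Set.univ.pi fun w => Set.Ioo (lo w) (hi' w))
    (isOpen_set_pi Set.finite_univ fun w _ => isOpen_Ioo)
    ⟨fun w => (lo w + hi' w) / 2, fun w _ => ⟨by have := hlohi w; linarith,
      by have := hlohi w; linarith⟩⟩
  have ht : ∀ w, lo w < t w ∧ t w < hi' w := fun w => htO w (Set.mem_univ w)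
  have ht01 : ∀ k (r : Fin 3), r ≠ 2 → -ε < t (Sum.inl (k, r)) ∧ t (Sum.inl (k, r)) < 0 := by
    intro k r hr
    have := ht (Sum.inl (k, r))
    simp only [hlo, hhi, Sum.elim_inl, if_neg hr] at this
    exact this
  have ht2 : ∀ k, δ / 2 < t (Sum.inl (k, 2)) ∧ t (Sum.inl (k, 2)) < δ := by
    intro k
    have := ht (Sum.inl (k, 2))
    simp only [hlo, hhi, Sum.elim_inl, if_true] at this
    exact this
  have htb : ∀ p, -(ρ + 1) < t (Sum.inr p) ∧ t (Sum.inr p) < -ρ := by
    intro p
    have := ht (Sum.inr p)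
    simp only [hlo, hhi, Sum.elim_inr] at this
    exact this
  set A : Finset (BW n) := Finset.univ.map Function.Embedding.inr with hA
  have hAm : ∀ p, (Sum.inr p : BW n) ∈ A := fun p =>
    Finset.mem_map.2 ⟨p, Finset.mem_univ p, rfl⟩
  have hAc : A.card ≤ 6 := by
    rw [hA, Finset.card_map]
    simp
  set Bt : Set (Fin 3 → ℝ) := {y | ∀ w ∈ A, t w ≤ eval y (basH Q i w)} with hBt
  have hBtc : ∀ y ∈ Bt, ∀ c, |y c| ≤ ρ + 1 := by
    intro y hy c
    have h1 := hy (Sum.inr (c, false)) (hAm _)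
    have h2 := hy (Sum.inr (c, true)) (hAm _)
    simp only [basH, if_true, eval_X, map_neg] at h1 h2
    rw [if_neg (by decide), eval_X] at h1
    have h3 := (htb (c, false)).1
    have h4 := (htb (c, true)).1
    exact abs_le.2 ⟨by linarith, by linarith⟩
  have hBtB : Bt ⊆ B := fun y hy =>
    ⟨fun c => (abs_le.1 (hBtc y hy c)).1, fun c => (abs_le.1 (hBtc y hy c)).2⟩
  have hBtC : IsCompact Bt := by
    refine hB.of_isClosed_subset ?_ hBtB
    have : Bt = ⋂ w ∈ A, {y | t w ≤ eval y (basH Q i w)} := by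
      ext y
      simp [hBt]
    rw [this]
    exact isClosed_biInter fun w _ => isClosed_le continuous_const (continuous_eval _)
  have hFBt : ∀ x ∈ F, x ∈ Bt := by
    intro x hx w hw
    obtain ⟨⟨c, s⟩, _, rfl⟩ := Finset.mem_map.1 hw
    have h1 := abs_le.1 (hρ x hx c)
    have h2 := (htb (c, s)).2
    change t (Sum.inr (c, s)) ≤ eval x (basH Q i (Sum.inr (c, s)))
    simp only [basH]
    split_ifs
    · rw [map_neg, eval_X]
      linarith [h1.2]
    · rw [eval_X]
      linarith [h1.1]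
  -- the walls of the cell of `x`
  have hFw : ∀ x ∈ F, ∀ w : {w // basW (Arg Q x) w}, t w ≤ eval x (basH Q i w) := by
    rintro x hx ⟨w, hw⟩
    rcases w with ⟨k, r⟩ | p
    · change t (Sum.inl (k, r)) ≤ eval x (basH Q i (Sum.inl (k, r)))
      rcases hw with ⟨hk, hr⟩ | ⟨hk, hr⟩
      · have h1 := (ht01 k r hr).2
        have h2 : eval x (Q k) = eval x (Q i) := sub_eq_zero.1 ((hPA x hx k).1 hk)
        simp only [basH]
        split_ifs
        · rw [map_sub, h2, sub_self]
          exact h1.le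
        · rw [map_sub, h2, sub_self]
          exact h1.le
      · subst hr
        have h1 := (ht2 k).2
        have h2 := hFδ x hx k hk
        simp only [basH]
        rw [if_neg (by decide), map_sub]
        exact h1.le.trans h2
    · exact hFBt x hx _ (hAm p)
  have hmax : ∀ x : Fin 3 → ℝ, ∃ z : Fin 3 → ℝ, x ∈ F →
      z ∈ connectedComponentIn {y | y ∈ Bt ∧ ∀ w : {w // basW (Arg Q x) w},
        t w ≤ eval y (basH Q i w)} x ∧
      connectedComponentIn {y | y ∈ Bt ∧ ∀ w : {w // basW (Arg Q x) w},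
        eval z (basH Q i w) = t w → eval y (basH Q i w) = t w} z ⊆
        connectedComponentIn {y | y ∈ Bt ∧ ∀ w : {w // basW (Arg Q x) w},
          t w ≤ eval y (basH Q i w)} x := by
    intro x
    by_cases hx : x ∈ F
    · obtain ⟨z, h1, h2⟩ := exists_max (W := {w // basW (Arg Q x) w})
        (fun w z => eval z (basH Q i w)) (fun w => continuous_eval _) (fun w => t w) Bt hBtC x
        (hFBt x hx) (hFw x hx)
      exact ⟨z, fun _ => ⟨h1, h2⟩⟩
    · exact ⟨x, fun h => absurd h hx⟩
  choose z hz using hmax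
  set Qx : (Fin 3 → ℝ) → Set (Fin 3 → ℝ) := fun x => {y | y ∈ Bt ∧
    ∀ w : {w // basW (Arg Q x) w}, t w ≤ eval y (basH Q i w)} with hQx
  have hzQ : ∀ x ∈ F, z x ∈ Qx x := fun x hx => connectedComponentIn_subset _ _ (hz x hx).1
  -- bounds in the cell
  have hin : ∀ x ∈ F, ∀ y ∈ Qx x, ∀ k, k ∈ Arg Q x → |P k y| ≤ ε := by
    intro x hx y hy k hk
    have h0 := hy.2 ⟨Sum.inl (k, 0), Or.inl ⟨hk, by decide⟩⟩
    have h1 := hy.2 ⟨Sum.inl (k, 1), Or.inl ⟨hk, by decide⟩⟩
    simp only [basH, if_true, map_sub] at h0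
    simp only [basH] at h1
    rw [if_neg (by decide), map_sub] at h1
    have h2 := (ht01 k 0 (by decide)).1
    have h3 := (ht01 k 1 (by decide)).1
    simp only [hPd]
    exact abs_le.2 ⟨by linarith, by linarith⟩
  have hout : ∀ x ∈ F, ∀ y ∈ Qx x, ∀ k, k ∉ Arg Q x → δ / 2 < P k y := by
    intro x hx y hy k hk
    have h0 := hy.2 ⟨Sum.inl (k, 2), Or.inr ⟨hk, rfl⟩⟩
    simp only [basH] at h0
    rw [if_neg (by decide), map_sub] at h0
    exact (ht2 k).1.trans_le h0
  have hdis : ∀ x ∈ F, ∀ y ∈ F, ∀ u, u ∈ connectedComponentIn (Qx x) x →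
      u ∈ connectedComponentIn (Qx y) y → x = y := by
    intro x hx y hy u hux huy
    have hu1 : u ∈ Qx x := connectedComponentIn_subset _ _ hux
    have hu2 : u ∈ Qx y := connectedComponentIn_subset _ _ huy
    by_contra hne
    by_cases hA : Arg Q y = Arg Q x
    · have hQe : Qx y = Qx x := by
        simp only [hQx]
        rw [hA]
      rw [hQe] at huy
      have e1 := connectedComponentIn_eq hux
      have e2 := connectedComponentIn_eq huy
      have hyC : y ∈ connectedComponentIn (Qx x) x := by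
        rw [e1, ← e2]
        exact mem_connectedComponentIn (hQe ▸ ⟨hFBt y hy, hFw y hy⟩)
      refine heps x hx y hy hne hA (connectedComponentIn (Qx x) x)
        isPreconnected_connectedComponentIn
        (mem_connectedComponentIn ⟨hFBt x hx, hFw x hx⟩) hyC ?_
      intro w hw
      have hwQ : w ∈ Qx x := connectedComponentIn_subset _ _ hw
      exact ⟨hBtc w hwQ.1, fun k hk => (hin x hx w hwQ k hk).trans hε1,
        fun k hk => (hout x hx w hwQ k hk).le⟩
    · apply hA
      ext k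
      by_contra hk
      by_cases h1 : k ∈ Arg Q x
      · have h2 : k ∉ Arg Q y := fun h => hk ⟨fun _ => h1, fun _ => h⟩
        have := (abs_le.1 (hin x hx u hu1 k h1)).2
        have := hout y hy u hu2 k h2
        linarith
      · have h2 : k ∈ Arg Q y := by
          by_contra h
          exact hk ⟨fun h' => absurd h' h, fun h' => absurd h' h1⟩
        have := (abs_le.1 (hin y hy u hu2 k h2)).2
        have := hout x hx u hu1 k h1
        linarith
  set J : (Fin 3 → ℝ) → Finset (BW n) := fun x =>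
    Finset.univ.filter fun w => basW (Arg Q x) w ∧ eval (z x) (basH Q i w) = t w with hJ
  have hJ3 : ∀ x ∈ F, (J x).card ≤ 3 := by
    intro x hx
    have h1 := hgen (z x) (hBtB (hzQ x hx).1)
    refine le_trans ?_ h1
    rw [← Set.ncard_coe_finset]
    refine Set.ncard_le_ncard ?_ (Set.toFinite _)
    intro w hw
    exact (Finset.mem_filter.1 (Finset.mem_coe.1 hw)).2.2
  have hzinj : Set.InjOn z F := by
    intro x hx y hy hxy
    refine hdis x hx y hy (z x) (hz x hx).1 ?_
    rw [hxy]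
    exact (hz y hy).1
  have step1 : F.card ≤ 157 ^ 3 * (F.image J).card := by
    refine Finset.card_le_mul_card_image F _ fun J0 hJ0 => ?_
    obtain ⟨x0, hx0, rfl⟩ := Finset.mem_image.1 hJ0
    set FJ := F.filter (fun x => J x = J x0) with hFJ
    have hFJF : ∀ x ∈ FJ, x ∈ F ∧ J x = J x0 := fun x hx => Finset.mem_filter.1 hx
    have hc : FJ.card = (FJ.image z).card := by
      rw [Finset.card_image_of_injOn]
      exact hzinj.mono fun x hx => (hFJF x hx).1
    rw [hc]
    refine fiber_count (basH Q i) (basH_deg hQ i) t A (J x0) hAc (hJ3 x0 hx0) Bt rfl hBtc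
      (FJ.image z) ?_ ?_ ?_
    · intro u hu
      obtain ⟨x, hx, rfl⟩ := Finset.mem_image.1 hu
      exact (hzQ x (hFJF x hx).1).1
    · intro u hu w hw
      obtain ⟨x, hx, rfl⟩ := Finset.mem_image.1 hu
      rw [← (hFJF x hx).2] at hw
      exact (Finset.mem_filter.1 hw).2.2
    · intro u hu u' hu' hne hmem
      obtain ⟨x, hx, rfl⟩ := Finset.mem_image.1 hu
      obtain ⟨y, hy, rfl⟩ := Finset.mem_image.1 hu'
      have hxF := (hFJF x hx).1
      have hyF := (hFJF y hy).1
      have hset : {u | u ∈ Bt ∧ ∀ w ∈ J x0, eval u (basH Q i w) = t w} =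
          {y | y ∈ Bt ∧ ∀ w : {w // basW (Arg Q x) w},
            eval (z x) (basH Q i w) = t w → eval y (basH Q i w) = t w} := by
        rw [← (hFJF x hx).2]
        ext u
        constructor
        · rintro ⟨h1, h2⟩
          exact ⟨h1, fun w hw => h2 w (Finset.mem_filter.2 ⟨Finset.mem_univ _, w.2, hw⟩)⟩
        · rintro ⟨h1, h2⟩
          exact ⟨h1, fun w hw =>
            h2 ⟨w, (Finset.mem_filter.1 hw).2.1⟩ (Finset.mem_filter.1 hw).2.2⟩
      rw [hset] at hmem
      have h1 := (hz x hxF).2 hmem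
      apply hne
      rw [hdis x hxF y hyF (z y) h1 (hz y hyF).1]
  set lines : Finset (BW n) → Finset (Fin n) := fun J => (J.toLeft).image Prod.fst with hlines
  have step2 : (F.image J).card ≤ 2 ^ 15 * ((F.image J).image lines).card := by
    refine Finset.card_le_mul_card_image (F.image J) _ fun M hM => ?_
    have hMc : M.card ≤ 3 := by
      obtain ⟨J0, hJ0, rfl⟩ := Finset.mem_image.1 hM
      obtain ⟨x, hx, rfl⟩ := Finset.mem_image.1 hJ0
      exact Finset.card_image_le.trans ((Finset.card_toLeft_le).trans (hJ3 x hx))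
    have hsub : (F.image J).filter (fun J0 => lines J0 = M) ⊆
        ((M ×ˢ (Finset.univ : Finset (Fin 3))).disjSum
          (Finset.univ : Finset (Fin 3 × Bool))).powerset := by
      intro J0 hJ0
      rw [Finset.mem_powerset]
      have h1 := (Finset.mem_filter.1 hJ0).2
      intro w hw
      rcases w with ⟨k, r⟩ | p
      · rw [Finset.inl_mem_disjSum, Finset.mem_product]
        refine ⟨?_, Finset.mem_univ _⟩
        rw [← h1]
        exact Finset.mem_image.2 ⟨(k, r), Finset.mem_toLeft.2 hw, rfl⟩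
      · rw [Finset.inr_mem_disjSum]
        exact Finset.mem_univ _
    refine (Finset.card_le_card hsub).trans ?_
    rw [Finset.card_powerset, Finset.card_disjSum, Finset.card_product]
    apply Nat.pow_le_pow_right (by norm_num)
    simp only [Finset.card_univ, Fintype.card_fin, Fintype.card_prod, Fintype.card_bool]
    omega
  have step3 : ((F.image J).image lines).card ≤ G.card := by
    refine Finset.card_le_card fun M hM => ?_
    obtain ⟨J0, hJ0, rfl⟩ := Finset.mem_image.1 hM
    obtain ⟨x, hx, rfl⟩ := Finset.mem_image.1 hJ0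
    refine hG _ (Finset.card_image_le.trans ((Finset.card_toLeft_le).trans (hJ3 x hx))) ?_
    refine hlab _ (z x) (hBtB (hzQ x hx).1) ?_ ?_
    · intro k
      by_cases hk : k ∈ Arg Q x
      · have := (abs_le.1 (hin x hx (z x) (hzQ x hx) k hk)).1
        simp only [hPd] at this
        linarith
      · have := hout x hx (z x) (hzQ x hx) k hk
        simp only [hPd] at this
        linarith
    · intro m hm
      obtain ⟨⟨k, r⟩, hkr, rfl⟩ := Finset.mem_image.1 hm
      have hw := (Finset.mem_filter.1 (Finset.mem_toLeft.1 hkr)).2.2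
      change |eval (z x) (Q k) - eval (z x) (Q i)| ≤ θ
      by_cases hr2 : r = 2
      · subst hr2
        simp only [basH] at hw
        rw [if_neg (by decide), map_sub] at hw
        rw [hw]
        have := ht2 k
        exact abs_le.2 ⟨by linarith, by linarith⟩
      · have h1 := ht01 k r hr2
        by_cases hr0 : r = 0
        · subst hr0
          simp only [basH, if_true, map_sub] at hw
          exact abs_le.2 ⟨by linarith, by linarith⟩
        · simp only [basH] at hw
          rw [if_neg hr0, map_sub] at hw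
          rw [hw]
          exact abs_le.2 ⟨by linarith, by linarith⟩
  calc F.card ≤ 157 ^ 3 * (F.image J).card := step1
    _ ≤ 157 ^ 3 * (2 ^ 15 * G.card) := Nat.mul_le_mul_left _ (step2.trans
        (Nat.mul_le_mul_left _ step3))
    _ = 157 ^ 3 * 2 ^ 15 * G.card := by ring
-- END bas

-- BEGIN det
open Classical in
private theorem det_fiber {n : ℕ} (T : Finset (Σ _ : Fin n, Finset (Fin n))) (S : Finset (Fin n))
    (hS : S.card ≤ 4) : (T.filter fun x => insert x.1 x.2 = S).card ≤ 8 := by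
  have h1 : (T.filter fun x => insert x.1 x.2 = S).card ≤ (S ×ˢ (Finset.univ : Finset Bool)).card := by
    apply Finset.card_le_card_of_injOn (fun x => (x.1, decide (x.1 ∈ x.2)))
    · intro x hx
      rw [Finset.mem_coe, Finset.mem_filter] at hx
      rw [Finset.mem_coe, Finset.mem_product]
      refine ⟨?_, Finset.mem_univ _⟩
      rw [← hx.2]
      exact Finset.mem_insert_self _ _
    · rintro ⟨i, M⟩ hx ⟨i', M'⟩ hx' h
      rw [Finset.mem_coe, Finset.mem_filter] at hx hx'
      have h2 : insert i M = S := hx.2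
      have h3 : insert i' M' = S := hx'.2
      simp only [Prod.mk.injEq] at h
      obtain ⟨rfl, h4⟩ := h
      have h5 : i ∈ M ↔ i ∈ M' := decide_eq_decide.1 h4
      have h6 : M = M' := by
        by_cases hi : i ∈ M
        · rw [Finset.insert_eq_of_mem hi] at h2
          rw [Finset.insert_eq_of_mem (h5.1 hi)] at h3
          rw [h2, h3]
        · have hi' : i ∉ M' := fun h => hi (h5.2 h)
          rw [← Finset.erase_insert hi, ← Finset.erase_insert hi', h2, h3]
      rw [h6]
  rw [Finset.card_product, Finset.card_univ, Fintype.card_bool] at h1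
  omega

/-- `F` is the union of the sets `F_i = {x ∈ F | i ∈ Arg Q x}`; `base_count` with `G_i = {M | #M ≤ 3, insert i M ∈ Lab Q}` for every
`i`; every `S ∈ Lab Q` is `insert i M` for at most `4 * 2` pairs `(i, M)` (`i ∈ S`, `M = S` or `M = S.erase i`). (If `n = 0` then
`Arg = ∅` and the whole space is one component; therefore `0 < n`.) -/
theorem det_count {n : ℕ} (hn : 0 < n) (Q : Fin n → MvPolynomial (Fin 3) ℝ)
    (hQ : ∀ m, (Q m).totalDegree ≤ 2) (F : Finset (Fin 3 → ℝ))
    (hsep : ∀ x ∈ F, ∀ y ∈ F, x ≠ y → Arg Q y = Arg Q x →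
      y ∉ connectedComponentIn {z | Arg Q z = Arg Q x} x) :
    F.card ≤ 157 ^ 3 * 2 ^ 18 * (Lab Q).card := by
  classical
  have hne : Nonempty (Fin n) := ⟨⟨0, hn⟩⟩
  let G : Fin n → Finset (Finset (Fin n)) := fun i =>
    Finset.univ.filter fun M => M.card ≤ 3 ∧ insert i M ∈ Lab Q
  have h1 : F ⊆ Finset.univ.biUnion fun i => F.filter fun x => i ∈ Arg Q x := by
    intro x hx
    obtain ⟨i, hi⟩ := Finite.exists_min (fun i => eval x (Q i))
    exact Finset.mem_biUnion.2 ⟨i, Finset.mem_univ _, Finset.mem_filter.2 ⟨hx, hi⟩⟩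
  have h2 : ∀ i ∈ (Finset.univ : Finset (Fin n)), (F.filter fun x => i ∈ Arg Q x).card ≤
      157 ^ 3 * 2 ^ 15 * (G i).card := by
    intro i _
    refine base_count Q hQ i _ (fun x hx => (Finset.mem_filter.1 hx).2)
      (fun x hx y hy hxy h => hsep x (Finset.mem_filter.1 hx).1 y (Finset.mem_filter.1 hy).1 hxy h)
      (G i) (fun M hM hz => ?_)
    have hc : (insert i M).card ≤ 4 := (Finset.card_insert_le _ _).trans (by omega)
    refine Finset.mem_filter.2 ⟨Finset.mem_univ _, hM, ?_⟩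
    unfold Lab
    exact Finset.mem_filter.2 ⟨Finset.mem_univ _, Finset.insert_nonempty _ _, hc, hz⟩
  have h3 : (Finset.univ.sigma G).card ≤ 8 * (Lab Q).card := by
    apply Finset.card_le_mul_card_image_of_maps_to (f := fun x : (Σ _ : Fin n, Finset (Fin n)) => insert x.1 x.2)
    · intro x hx
      exact (Finset.mem_filter.1 (Finset.mem_sigma.1 hx).2).2.2
    · intro S hS
      unfold Lab at hS
      exact det_fiber _ S (Finset.mem_filter.1 hS).2.2.1
  rw [Finset.card_sigma] at h3
  calc F.card ≤ (Finset.univ.biUnion fun i => F.filter fun x => i ∈ Arg Q x).card := Finset.card_le_card h1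
    _ ≤ ∑ i, (F.filter fun x => i ∈ Arg Q x).card := Finset.card_biUnion_le
    _ ≤ ∑ i, 157 ^ 3 * 2 ^ 15 * (G i).card := Finset.sum_le_sum h2
    _ = 157 ^ 3 * 2 ^ 15 * ∑ i, (G i).card := by rw [Finset.mul_sum]
    _ ≤ 157 ^ 3 * 2 ^ 15 * (8 * (Lab Q).card) := Nat.mul_le_mul_left _ h3
    _ = 157 ^ 3 * 2 ^ 18 * (Lab Q).card := by ring
-- END det

open Classical in
/-- the sets of at most four jointly nearest lines -/
noncomputable def LabN {n : ℕ} (v a : Fin n → E) : Finset (Finset (Fin n)) :=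
  Finset.univ.filter fun S => S.Nonempty ∧ S.card ≤ 4 ∧ ∃ x, (S : Set (Fin n)) ⊆ Near v a x

-- BEGIN fcs
private theorem fcs_face_eq {n : ℕ} {u p : Fin n → E} {f : Set E} (hf : f ∈ Faces u p) {z : E}
    (hz : z ∈ f) : f = connectedComponentIn {y | Near u p y = Near u p z} z := by
  obtain ⟨x, rfl⟩ := hf
  have h1 : z ∈ {y | Near u p y = Near u p x} := connectedComponentIn_subset _ _ hz
  have h2 : Near u p z = Near u p x := h1
  rw [h2]
  exact connectedComponentIn_eq hz

private theorem fcs_poly (v a : E) : ∃ P : MvPolynomial (Fin 3) ℝ, P.totalDegree ≤ 2 ∧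
    ∀ z : Fin 3 → ℝ, eval z P = Metric.infDist (WithLp.toLp 2 z : E) (line a v) ^ 2 := by
  obtain ⟨P, h1, h2⟩ := Vrd.exists_poly_dv v (fun z => (WithLp.toLp 2 z : E) - a) (fun c =>
    ⟨X c - C (a c), by
      refine (totalDegree_sub _ _).trans ?_
      rw [totalDegree_X, totalDegree_C]
      exact le_of_eq (max_eq_left (Nat.zero_le 1)), fun z => by
      rw [map_sub, eval_X, eval_C]
      rfl⟩)
  exact ⟨P, h1, fun z => by rw [h2 z, Vrd.infDist_dv]⟩

/-- `Q m` from `Vrd.exists_poly_dv` with `w z = WithLp.toLp 2 z - a m` (`X c - C (a m c)`): `eval z (Q m) = infDist ^ 2`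
(`Vrd.infDist_dv`), so `Arg Q z = Near v a (WithLp.toLp 2 z)` (squares of numbers `≥ 0`), `Lab Q = LabN v a`. If the encard of `Faces`
were larger there would be a finite set of faces with more elements; sample points as in the proof of `Vor.faces_box` (row fbx of
Vor/Faces.lean), the image of a component under `WithLp.toLp 2` is connected. -/
theorem faces_count {n : ℕ} (hn : 0 < n) (v a : Fin n → E) :
    (Faces v a).encard ≤ ((157 ^ 3 * 2 ^ 18 * (LabN v a).card : ℕ) : ℕ∞) := by
  classical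
  choose Q hQ1 hQ2 using fun m => fcs_poly (v m) (a m)
  have harg : ∀ z : Fin 3 → ℝ, Arg Q z = Near v a (WithLp.toLp 2 z : E) := by
    intro z
    ext i
    constructor
    · intro h j
      have h1 := h j
      rw [hQ2, hQ2] at h1
      exact (pow_le_pow_iff_left₀ Metric.infDist_nonneg Metric.infDist_nonneg (by norm_num)).1 h1
    · intro h j
      rw [hQ2, hQ2]
      exact pow_le_pow_left₀ Metric.infDist_nonneg (h j) 2
  have hlab : Lab Q = LabN v a := by
    unfold Lab LabN
    refine Finset.filter_congr fun S _ => ?_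
    refine and_congr_right fun _ => and_congr_right fun _ => ?_
    constructor
    · rintro ⟨z, hz⟩
      exact ⟨WithLp.toLp 2 z, by rw [← harg]; exact hz⟩
    · rintro ⟨x, hx⟩
      refine ⟨fun c => x c, ?_⟩
      rw [harg]
      exact hx
  by_contra hcon
  rw [not_le] at hcon
  generalize hN : 157 ^ 3 * 2 ^ 18 * (LabN v a).card = N at hcon
  have h1 : ((N + 1 : ℕ) : ℕ∞) ≤ (Faces v a).encard := by
    have := Order.add_one_le_of_lt hcon
    simpa using this
  obtain ⟨t, hts, htc⟩ := Set.exists_subset_encard_eq h1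
  have htf : t.Finite := Set.finite_of_encard_eq_coe htc
  have hz : ∀ f : Set E, ∃ z : E, f ∈ t → z ∈ f := by
    intro f
    by_cases hf : f ∈ t
    · obtain ⟨x, hx⟩ := hts hf
      refine ⟨x, fun _ => ?_⟩
      rw [hx]
      exact mem_connectedComponentIn rfl
    · exact ⟨0, fun h => absurd h hf⟩
  choose z hz using hz
  set F : Finset (Fin 3 → ℝ) := htf.toFinset.image (fun f c => z f c) with hF
  have hinj : Set.InjOn (fun f c => z f c) (htf.toFinset : Set (Set E)) := by
    intro f hf f' hf' h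
    rw [Finset.mem_coe, Set.Finite.mem_toFinset] at hf hf'
    have e : z f = z f' := by
      ext c
      exact congrFun h c
    have h2 := fcs_face_eq (hts hf) (hz f hf)
    have h3 := fcs_face_eq (hts hf') (hz f' hf')
    rw [e] at h2
    rw [h2]
    exact h3.symm
  have hcard : F.card = N + 1 := by
    rw [hF, Finset.card_image_of_injOn hinj]
    rw [htf.encard_eq_coe_toFinset_card] at htc
    exact_mod_cast htc
  have key := det_count hn Q hQ1 F ?_
  · rw [hlab, hN, hcard] at key
    omega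
  · intro x hx y hy hxy _ hmem
    rw [hF, Finset.mem_image] at hx hy
    obtain ⟨f, hf, rfl⟩ := hx
    obtain ⟨f', hf', rfl⟩ := hy
    rw [Set.Finite.mem_toFinset] at hf hf'
    have hself : (fun c => z f c) ∈ {w : Fin 3 → ℝ | Arg Q w = Arg Q (fun c => z f c)} := rfl
    have hsub : (WithLp.toLp 2 '' connectedComponentIn {w : Fin 3 → ℝ | Arg Q w = Arg Q (fun c => z f c)}
        (fun c => z f c)) ⊆ {y : E | Near v a y = Near v a (z f)} := by
      rintro _ ⟨w, hw, rfl⟩
      have hwB : w ∈ {w : Fin 3 → ℝ | Arg Q w = Arg Q (fun c => z f c)} :=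
        connectedComponentIn_subset _ _ hw
      have hwA : Arg Q w = Arg Q (fun c => z f c) := hwB
      rw [harg, harg] at hwA
      exact hwA
    have hpre : IsPreconnected (WithLp.toLp 2 '' connectedComponentIn
        {w : Fin 3 → ℝ | Arg Q w = Arg Q (fun c => z f c)} (fun c => z f c) : Set E) :=
      isPreconnected_connectedComponentIn.image _ (PiLp.continuous_toLp 2 _).continuousOn
    have hzf : z f ∈ (WithLp.toLp 2 '' connectedComponentIn
        {w : Fin 3 → ℝ | Arg Q w = Arg Q (fun c => z f c)} (fun c => z f c) : Set E) :=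
      ⟨_, mem_connectedComponentIn hself, rfl⟩
    have hzf' : z f' ∈ (WithLp.toLp 2 '' connectedComponentIn
        {w : Fin 3 → ℝ | Arg Q w = Arg Q (fun c => z f c)} (fun c => z f c) : Set E) :=
      ⟨_, hmem, rfl⟩
    have hin := hpre.subset_connectedComponentIn hzf hsub hzf'
    rw [← fcs_face_eq (hts hf) (hz f hf)] at hin
    have e1 := fcs_face_eq (hts hf) hin
    have e2 := fcs_face_eq (hts hf') (hz f' hf')
    apply hxy
    rw [e1.trans e2.symm]
-- END fcs

end Pool.Agent.Vrl
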