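import Pool.Agent.Vrl.Label
import Pool.Agent.Vrd.Sums

/-!
The expected number of sets of at most four jointly nearest lines
-/

set_option autoImplicit false

namespace Pool.Agent.Vrl

open MeasureTheory Set Vor Vrd
open scoped ENNReal NNReal

open Classical in
/-- the expected weight of a cell for a pair, up to constants -/
noncomputable def psn {n : ℕ} (κ ρ : ℝ) (s : Finset (Fin n)) (i j : Fin n) (D : Fin n → ℝ) : ℝ :=
  if ∀ m ∈ s, ρ / 2 ≤ D m then
    (ρ / D i) ^ 2 * (ρ / D j) ^ 2 * Real.exp (-(κ * ∑ m ∈ s, (ρ / D m) ^ 2)) else 0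

-- BEGIN pex
private theorem pex_pair {n : ℕ} {c C : ℝ≥0} (S : Finset (Fin n)) (s : Fin n → ℝ)
    (hs0 : ∀ m, 0 ≤ s m) (hs4 : ∀ m ∈ S, s m ≤ 4) {i j : Fin n} (hij : i ≠ j) (hi : i ∈ S)
    (hj : j ∈ S) :
    ∏ m ∈ S, (if m = i ∨ m = j then 360 * (C : ℝ) * s m else Real.exp (-(c / 128 * s m))) ≤
      (360 * C) ^ 2 * Real.exp (c / 16) *
        (s i * s j * Real.exp (-(c / 128 * ∑ m ∈ S, s m))) := by
  have hc0 : (0 : ℝ) ≤ c := c.2
  have hC0 : (0 : ℝ) ≤ C := C.2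
  have e1 : ∀ m, (if m = i ∨ m = j then 360 * (C : ℝ) * s m else Real.exp (-(c / 128 * s m))) =
      (if m = i ∨ m = j then 360 * (C : ℝ) * s m * Real.exp (c / 128 * s m) else 1) *
        Real.exp (-(c / 128 * s m)) := by
    intro m
    by_cases h : m = i ∨ m = j
    · rw [if_pos h, if_pos h, mul_assoc (360 * (C : ℝ) * s m), ← Real.exp_add, add_neg_cancel,
        Real.exp_zero, mul_one]
    · rw [if_neg h, if_neg h, one_mul]
  rw [Finset.prod_congr rfl fun m _ => e1 m, Finset.prod_mul_distrib, ← Real.exp_sum]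
  have hsub : ({i, j} : Finset (Fin n)) ⊆ S := by
    intro m hm
    rw [Finset.mem_insert, Finset.mem_singleton] at hm
    rcases hm with rfl | rfl
    · exact hi
    · exact hj
  have e2 : ∏ m ∈ S, (if m = i ∨ m = j then 360 * (C : ℝ) * s m * Real.exp (c / 128 * s m) else 1) =
      ∏ m ∈ ({i, j} : Finset (Fin n)),
        (if m = i ∨ m = j then 360 * (C : ℝ) * s m * Real.exp (c / 128 * s m) else 1) := by
    refine (Finset.prod_subset hsub fun m _ hm => ?_).symm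
    rw [Finset.mem_insert, Finset.mem_singleton] at hm
    rw [if_neg hm]
  rw [e2, Finset.prod_pair hij, if_pos (Or.inl rfl), if_pos (Or.inr rfl)]
  have e3 : ∑ m ∈ S, -((c : ℝ) / 128 * s m) = -(c / 128 * ∑ m ∈ S, s m) := by
    rw [Finset.sum_neg_distrib, Finset.mul_sum]
  rw [e3]
  have e4 : Real.exp (c / 128 * s i) * Real.exp (c / 128 * s j) ≤ Real.exp (c / 16) := by
    rw [← Real.exp_add]
    refine Real.exp_le_exp.2 ?_
    have h1 := mul_le_mul_of_nonneg_left (hs4 i hi) (show 0 ≤ (c : ℝ) / 128 by positivity)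
    have h2 := mul_le_mul_of_nonneg_left (hs4 j hj) (show 0 ≤ (c : ℝ) / 128 by positivity)
    linarith
  have e5 := mul_le_mul_of_nonneg_left e4 (show 0 ≤ (360 * (C : ℝ)) ^ 2 *
    (s i * s j * Real.exp (-(c / 128 * ∑ m ∈ S, s m))) from
      mul_nonneg (sq_nonneg _) (mul_nonneg (mul_nonneg (hs0 i) (hs0 j)) (Real.exp_pos _).le))
  calc _ = (360 * (C : ℝ)) ^ 2 * (s i * s j * Real.exp (-(c / 128 * ∑ m ∈ S, s m))) *
        (Real.exp (c / 128 * s i) * Real.exp (c / 128 * s j)) := by ring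
    _ ≤ _ := e5
    _ = _ := by ring

/-- As `Vrd.exp_term` (helper13's row ext of Vrd/Prod.lean): extend the product over `s` by factors `1` (integral `1`), then
`Vor.lintegral_pi_prod`; `Vrd.factor_star` for `i`, `j`, `Vrd.factor_other` for the other `m ∈ s`. -/
theorem pair_exp {n : ℕ} {c C : ℝ≥0} {μ : Fin n → Measure E} [∀ i, IsProbabilityMeasure (μ i)]
    (hμ : ∀ i, μ i ≤ C • volume.restrict (Metric.closedBall (0 : E) 1))
    (hμ' : ∀ i, c • volume.restrict (Metric.closedBall (0 : E) 1) ≤ μ i) {τ ρ : ℝ} (hτ0 : 0 ≤ τ)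
    (hτ1 : τ ≤ 1) (hτ : 23040 * C * τ ≤ c) (hρ : 0 < ρ) (s : Finset (Fin n)) {i j : Fin n}
    (hij : i ≠ j) (hi : i ∈ s) (hj : j ∈ s) (w : Fin n → E) :
    ∫⁻ v, pw τ ρ s i j (fun m => dv (v m) (w m)) ∂(Measure.pi μ) ≤
      ENNReal.ofReal ((360 * C) ^ 2 * Real.exp (c / 16) *
        psn (c / 128) ρ s i j (fun m => ‖w m‖)) := by
  have hc0 : (0 : ℝ) ≤ c := c.2
  have hC0 : (0 : ℝ) ≤ C := C.2
  by_cases hall : ∀ m ∈ s, ρ / 2 ≤ ‖w m‖
  · have hpos : ∀ m ∈ s, 0 < ‖w m‖ := fun m hm => by have := hall m hm; linarith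
    obtain ⟨r, hr⟩ : ∃ r : Fin n → ℝ, ∀ m, r m = (ρ / ‖w m‖) ^ 2 := ⟨_, fun _ => rfl⟩
    have hr0 : ∀ m, 0 ≤ r m := fun m => by rw [hr]; exact sq_nonneg _
    have hr4 : ∀ m ∈ s, r m ≤ 4 := by
      intro m hm
      have h1 : ρ / ‖w m‖ ≤ 2 := by
        rw [div_le_iff₀ (hpos m hm)]
        have := hall m hm
        linarith
      have h2 : 0 ≤ ρ / ‖w m‖ := by positivity
      have := pow_le_pow_left₀ h2 h1 2
      rw [hr]
      linarith
    have hpw : ∀ v : Fin n → E, pw τ ρ s i j (fun m => dv (v m) (w m)) =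
        ∏ m, (if m ∈ s then wq τ ρ (m = i ∨ m = j) (dv (v m) (w m)) else 1) := by
      intro v
      unfold pw
      rw [Finset.prod_ite_mem, Finset.univ_inter]
    simp only [hpw]
    rw [Vor.lintegral_pi_prod μ
      (fun m x => if m ∈ s then wq τ ρ (m = i ∨ m = j) (dv x (w m)) else 1) fun m => by
        by_cases hm : m ∈ s
        · simp only [if_pos hm]
          exact wq_measurable τ ρ (m = i ∨ m = j) (w m)
        · simp only [if_neg hm]
          exact measurable_const]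
    have h1 : ∀ m ∈ (Finset.univ : Finset (Fin n)),
        (∫⁻ x, (if m ∈ s then wq τ ρ (m = i ∨ m = j) (dv x (w m)) else 1) ∂(μ m)) ≤
        ENNReal.ofReal (if m ∈ s then (if m = i ∨ m = j then 360 * (C : ℝ) * r m
          else Real.exp (-(c / 128 * r m))) else 1) := by
      intro m _
      by_cases hms : m ∈ s
      · simp only [if_pos hms]
        by_cases hm : m = i ∨ m = j
        · rw [if_pos hm, hr]
          exact factor_star (hμ m) hτ0 hτ1 hρ (hall m hms) _ hm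
        · rw [if_neg hm, hr]
          exact factor_other (hμ m) (hμ' m) hτ0 hτ hρ (hall m hms) _ hm
      · simp only [if_neg hms]
        rw [lintegral_one, measure_univ, ENNReal.ofReal_one]
    refine (Finset.prod_le_prod' h1).trans ?_
    rw [← ENNReal.ofReal_prod_of_nonneg]
    · refine ENNReal.ofReal_le_ofReal ?_
      rw [Finset.prod_ite_mem, Finset.univ_inter]
      refine (pex_pair s r hr0 hr4 hij hi hj).trans (le_of_eq ?_)
      unfold psn
      rw [if_pos hall, hr i, hr j, Finset.sum_congr rfl fun m _ => hr m]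
    · intro m _
      by_cases hms : m ∈ s
      · rw [if_pos hms]
        by_cases hm : m = i ∨ m = j
        · rw [if_pos hm]
          exact mul_nonneg (by positivity) (hr0 m)
        · rw [if_neg hm]
          exact (Real.exp_pos _).le
      · rw [if_neg hms]
        exact zero_le_one
  · push Not at hall
    obtain ⟨m0, hm0s, hm0⟩ := hall
    have h0 : ∀ v : Fin n → E, pw τ ρ s i j (fun m => dv (v m) (w m)) = 0 := by
      intro v
      unfold pw
      refine Finset.prod_eq_zero hm0s ?_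
      unfold wq
      rw [if_neg]
      have := (dv_basic (v m0)).2.1 (w m0)
      exact not_le.2 (lt_of_le_of_lt this hm0)
    simp only [h0]
    simp
-- END pex

-- BEGIN pwm
/-- `Vrd.wq_measurable`, as `Vrd.term_measurable` in Vrd/Main.lean. -/
theorem pw_measurable {n : ℕ} (τ ρ : ℝ) (s : Finset (Fin n)) (i j : Fin n) (w : Fin n → E) :
    Measurable fun v : Fin n → E => pw τ ρ s i j (fun m => dv (v m) (w m)) := by
  unfold pw
  refine Finset.measurable_prod _ fun m _ => ?_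
  exact (wq_measurable τ ρ (m = i ∨ m = j) (w m)).comp (measurable_pi_apply m)
-- END pwm

-- BEGIN i2
/-- Polar coordinates or shells (compare row jin of Vrd/Sums.lean): the value is `16 π`. -/
theorem inv_sq_integral :
    ∫⁻ x in Metric.closedBall (0 : E) 4, ENNReal.ofReal (‖x‖⁻¹ ^ 2) ≤ ENNReal.ofReal 1000 := by
  have hvol : (volume : Measure E).real (Metric.ball 0 1) ≤ 6 := by
    rw [Measure.real, EuclideanSpace.volume_ball_fin_three, ENNReal.ofReal_one, one_pow, one_mul,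
      ENNReal.toReal_ofReal (by positivity)]
    have := Real.pi_le_four
    linarith
  set f : ℝ → ℝ := (Iic (4 : ℝ)).indicator (fun y => y⁻¹ ^ 2) with hf
  have hpt : ∀ y ∈ Ioi (0 : ℝ), y ^ (Module.finrank ℝ E - 1) • f y =
      (Ioc (0 : ℝ) 4).indicator (fun _ => (1 : ℝ)) y := by
    intro y hy
    have hy0 : (y : ℝ) ≠ 0 := (mem_Ioi.1 hy).ne'
    have hfr : Module.finrank ℝ E - 1 = 2 := by simp
    rw [hfr, smul_eq_mul, hf]
    by_cases h5 : y ≤ 4
    · rw [indicator_of_mem (show y ∈ Iic (4 : ℝ) from h5),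
        indicator_of_mem (show y ∈ Ioc (0 : ℝ) 4 from ⟨hy, h5⟩)]
      field_simp
    · rw [indicator_of_notMem (show y ∉ Iic (4 : ℝ) from h5),
        indicator_of_notMem (show y ∉ Ioc (0 : ℝ) 4 from fun h => h5 h.2), mul_zero]
  have hi : IntegrableOn (fun _ : ℝ => (1 : ℝ)) (Ioc 0 4) := by simp
  have hint : Integrable (fun x : E => f ‖x‖) := by
    rw [integrable_fun_norm_addHaar, integrableOn_congr_fun hpt measurableSet_Ioi]
    exact ((integrable_indicator_iff measurableSet_Ioc).2 hi).integrableOn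
  have hnn : ∀ x : E, 0 ≤ f ‖x‖ := by
    intro x
    rw [hf]
    by_cases h5 : ‖x‖ ≤ 4
    · rw [indicator_of_mem (show ‖x‖ ∈ Iic (4 : ℝ) from h5)]
      exact sq_nonneg _
    · rw [indicator_of_notMem (show ‖x‖ ∉ Iic (4 : ℝ) from h5)]
  have e1 : ∫⁻ y in Metric.closedBall (0 : E) 4, ENNReal.ofReal (‖y‖⁻¹ ^ 2) =
      ∫⁻ y : E, ENNReal.ofReal (f ‖y‖) := by
    rw [← lintegral_indicator Metric.isClosed_closedBall.measurableSet]
    refine lintegral_congr fun y => ?_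
    by_cases h5 : ‖y‖ ≤ 4
    · rw [indicator_of_mem (by simpa using h5), hf, indicator_of_mem (show ‖y‖ ∈ Iic (4 : ℝ) from h5)]
    · rw [indicator_of_notMem (by simpa using h5), hf, indicator_of_notMem (show ‖y‖ ∉ Iic (4 : ℝ) from h5),
        ENNReal.ofReal_zero]
  rw [e1, ← ofReal_integral_eq_lintegral_ofReal hint (Filter.Eventually.of_forall hnn)]
  refine ENNReal.ofReal_le_ofReal ?_
  rw [integral_fun_norm_addHaar, setIntegral_congr_fun measurableSet_Ioi hpt,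
    setIntegral_indicator measurableSet_Ioc]
  have e2 : Ioi (0 : ℝ) ∩ Ioc 0 4 = Ioc 0 4 := by
    ext y; simp only [mem_inter_iff, mem_Ioi, mem_Ioc]; tauto
  have e3 : (Module.finrank ℝ E) = 3 := by simp
  have e4 : ∫ _ in Ioc (0 : ℝ) 4, (1 : ℝ) = 4 := by simp
  rw [e2, e3, e4, nsmul_eq_mul, smul_eq_mul]
  push_cast
  linarith
-- END i2

-- BEGIN nps
private theorem nps_bound {q : ℕ} {z0 : Fin 3 → ℝ} (h : z0 ∈ grid q) (k : Fin 3) : |z0 k| ≤ 2 := by
  unfold grid at h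
  rw [Finset.mem_image] at h
  obtain ⟨m, hm, rfl⟩ := h
  rw [Fintype.mem_piFinset] at hm
  have hk := Finset.mem_Icc.1 (hm k)
  have h1 : |(m k : ℝ)| ≤ 4 * 2 ^ q := by
    rw [abs_le]
    constructor
    · have : ((-(4 * 2 ^ q : ℤ) : ℤ) : ℝ) ≤ (m k : ℝ) := by exact_mod_cast hk.1
      push_cast at this
      linarith
    · have : (m k : ℝ) ≤ ((4 * 2 ^ q : ℤ) : ℝ) := by exact_mod_cast hk.2
      push_cast at this
      linarith
  have h2 : (0 : ℝ) < lev q / 8 := by unfold lev; positivity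
  rw [abs_mul, abs_of_pos h2]
  calc lev q / 8 * |(m k : ℝ)| ≤ lev q / 8 * (4 * 2 ^ q) := mul_le_mul_of_nonneg_left h1 h2.le
    _ = 2 := by
      unfold lev
      rw [one_div, inv_pow]
      have : (2 : ℝ) ^ q ≠ 0 := by positivity
      field_simp
      ring

private theorem nps_near {z0 : Fin 3 → ℝ} {x : E} {δ : ℝ} (hδ : 0 ≤ δ) (h : ∀ c, |x c - z0 c| ≤ δ) :
    ‖x - (WithLp.toLp 2 z0 : E)‖ ≤ 2 * δ := by
  rw [EuclideanSpace.norm_eq, Real.sqrt_le_left (by positivity), Fin.sum_univ_three]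
  have h1 : ∀ c, ‖(x - (WithLp.toLp 2 z0 : E)) c‖ ^ 2 ≤ δ ^ 2 := by
    intro c
    have h2 : (x - (WithLp.toLp 2 z0 : E)) c = x c - z0 c := rfl
    rw [h2, Real.norm_eq_abs]
    exact pow_le_pow_left₀ (abs_nonneg _) (h c) 2
  have e0 := h1 0
  have e1 := h1 1
  have e2 := h1 2
  nlinarith

private theorem nps_cell {κ : ℝ} (hκ : 0 < κ) {n : ℕ} (s : Finset (Fin n)) (i j : Fin n) (b : Fin n → E)
    (hi : i ∈ s) (hj : j ∈ s) (hbi : b i = 0) (hb : ∀ m ∈ s, ‖b m‖ ≤ 1) (q : ℕ) (z0 : Fin 3 → ℝ)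
    (hz : z0 ∈ grid q) (hz4 : 1 / 4 ≤ ‖nearPsi (b j) z0‖) (x : E) (hx : ∀ c, |x c - z0 c| ≤ lev q / 16) :
    psn κ (lev q) s i j (fun m => ‖nearPsi (b m) z0‖) ≤
      25 * lev q ^ 4 * Real.exp (-(κ / 64 * (s.card * lev q ^ 2))) * ‖x‖⁻¹ ^ 2 := by
  have hρ : 0 < lev q := by unfold lev; positivity
  obtain ⟨ρ, hρe⟩ : ∃ ρ, ρ = lev q := ⟨_, rfl⟩
  rw [← hρe] at hρ hx ⊢
  unfold psn
  split_ifs with hc
  · have hDi : ρ / 2 ≤ ‖nearPsi (b i) z0‖ := hc i hi
    have hnp : nearPsi (b i) z0 = WithLp.toLp 2 z0 := by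
      unfold nearPsi
      rw [hbi, sub_zero]
    have hpos : ∀ m ∈ s, 0 < ‖nearPsi (b m) z0‖ := fun m hm => lt_of_lt_of_le (by linarith) (hc m hm)
    have h8 : ∀ m ∈ s, ‖nearPsi (b m) z0‖ < 8 := fun m hm => (psi_norm (hb m hm) z0 (nps_bound hz)).1
    -- the exponential
    have hexp : Real.exp (-(κ * ∑ m ∈ s, (ρ / ‖nearPsi (b m) z0‖) ^ 2)) ≤
        Real.exp (-(κ / 64 * (s.card * ρ ^ 2))) := by
      apply Real.exp_le_exp.2
      have h1 : ∑ m ∈ s, ρ ^ 2 / 64 ≤ ∑ m ∈ s, (ρ / ‖nearPsi (b m) z0‖) ^ 2 := by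
        refine Finset.sum_le_sum fun m hm => ?_
        have h2 : ρ / 8 ≤ ρ / ‖nearPsi (b m) z0‖ :=
          div_le_div_of_nonneg_left hρ.le (hpos m hm) (h8 m hm).le
        have h3 := pow_le_pow_left₀ (by positivity : (0 : ℝ) ≤ ρ / 8) h2 2
        have h4 : (ρ / 8) ^ 2 = ρ ^ 2 / 64 := by ring
        rw [h4] at h3
        exact h3
      rw [Finset.sum_const, nsmul_eq_mul] at h1
      nlinarith
    -- the point `x`
    have hxn : ‖x - (WithLp.toLp 2 z0 : E)‖ ≤ ρ / 8 := by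
      have := nps_near (by positivity : (0 : ℝ) ≤ ρ / 16) hx
      linarith
    have hx1 : ‖x‖ ≤ 5 / 4 * ‖nearPsi (b i) z0‖ := by
      have h1 : ‖x‖ ≤ ‖x - (WithLp.toLp 2 z0 : E)‖ + ‖(WithLp.toLp 2 z0 : E)‖ := by
        have := norm_add_le (x - (WithLp.toLp 2 z0 : E)) (WithLp.toLp 2 z0 : E)
        rwa [sub_add_cancel] at this
      rw [hnp] at hDi ⊢
      linarith
    have hx0 : 0 < ‖x‖ := by
      have h1 : ‖(WithLp.toLp 2 z0 : E)‖ ≤ ‖x‖ + ‖x - (WithLp.toLp 2 z0 : E)‖ := by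
        have := norm_sub_le x (x - (WithLp.toLp 2 z0 : E))
        rwa [sub_sub_cancel] at this
      rw [hnp] at hDi
      linarith
    have hi2 : (ρ / ‖nearPsi (b i) z0‖) ^ 2 ≤ 25 / 16 * ρ ^ 2 * ‖x‖⁻¹ ^ 2 := by
      have h1 : ρ / ‖nearPsi (b i) z0‖ ≤ 5 / 4 * ρ * ‖x‖⁻¹ := by
        rw [div_le_iff₀ (hpos i hi)]
        have h2 : 1 ≤ 5 / 4 * ‖x‖⁻¹ * ‖nearPsi (b i) z0‖ := by
          have h3 : ‖x‖⁻¹ * ‖x‖ = 1 := inv_mul_cancel₀ hx0.ne'
          have h4 : 0 < ‖x‖⁻¹ := inv_pos.2 hx0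
          nlinarith
        nlinarith
      have h3 := pow_le_pow_left₀ (div_nonneg hρ.le (hpos i hi).le) h1 2
      refine h3.trans (le_of_eq ?_)
      ring
    have hj2 : (ρ / ‖nearPsi (b j) z0‖) ^ 2 ≤ 16 * ρ ^ 2 := by
      have h1 : ρ / ‖nearPsi (b j) z0‖ ≤ 4 * ρ := by
        rw [div_le_iff₀ (hpos j hj)]
        nlinarith
      have h3 := pow_le_pow_left₀ (div_nonneg hρ.le (hpos j hj).le) h1 2
      refine h3.trans (le_of_eq ?_)
      ring
    calc (ρ / ‖nearPsi (b i) z0‖) ^ 2 * (ρ / ‖nearPsi (b j) z0‖) ^ 2 *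
          Real.exp (-(κ * ∑ m ∈ s, (ρ / ‖nearPsi (b m) z0‖) ^ 2))
        ≤ (25 / 16 * ρ ^ 2 * ‖x‖⁻¹ ^ 2) * (16 * ρ ^ 2) * Real.exp (-(κ / 64 * (s.card * ρ ^ 2))) :=
          mul_le_mul (mul_le_mul hi2 hj2 (sq_nonneg _) (by positivity)) hexp (Real.exp_pos _).le (by positivity)
      _ = _ := by ring
  · positivity

/-- `ρ = lev q`, `D m = ‖nearPsi (b m) z0‖ ≤ 2√3 + 1 ≤ 5` for `m ∈ s` (`Vrd/Main: grid_bound`, or from the definition of `grid`),
`D j ≥ 1/4`, `D i = ‖toLp z0‖ ≥ ρ/2` (otherwise psn is 0). For `x` with `|x c - z0 c| ≤ ρ/16`: `‖x‖ ≤ D i + ρ/8 ≤ (5/4) D i`, so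
`psn ≤ 16 ρ^4 * (25/16) ‖x‖⁻² * exp (-κ #s ρ²/25)`. `Vrd.grid_integral` (sum over `grid q ⊇ nGrid`, `f = 0` outside of `nGrid`)
and `inv_sq_integral`: the sum over `z0` is at most `512 ρ⁻³ * 25 ρ^4 * 1000 * exp (-κ #s ρ²/25)`; then
`Vrd.seq_sum` with `t = √#s`, divided by `√#s` (`#s > 0` as `i ∈ s`). -/
theorem near_pair {κ : ℝ} (hκ : 0 < κ) : ∃ K : ℝ, 0 < K ∧ ∀ (n : ℕ) (s : Finset (Fin n))
    (i j : Fin n) (b : Fin n → E), i ∈ s → j ∈ s → b i = 0 → (∀ m ∈ s, ‖b m‖ ≤ 1) →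
    ∑' q, ∑ z0 ∈ nGrid (b j) q,
      ENNReal.ofReal (psn κ (lev q) s i j (fun m => ‖nearPsi (b m) z0‖)) ≤
      ENNReal.ofReal (K / Real.sqrt s.card) := by
  obtain ⟨K0, hK0, hs0⟩ := seq_sum (κ := κ / 64) (by positivity)
  refine ⟨12800000 * K0, by positivity, fun n s i j b hi hj hbi hb => ?_⟩
  have hcard : 0 < (s.card : ℝ) := by exact_mod_cast Finset.card_pos.2 ⟨i, hi⟩
  have hsq : 0 < Real.sqrt s.card := Real.sqrt_pos.2 hcard
  have hsqm : Real.sqrt s.card ^ 2 = s.card := Real.sq_sqrt hcard.le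
  have hq : ∀ q : ℕ, ∑ z0 ∈ nGrid (b j) q,
      ENNReal.ofReal (psn κ (lev q) s i j (fun m => ‖nearPsi (b m) z0‖)) ≤
      ENNReal.ofReal (12800000 / Real.sqrt s.card) *
        ENNReal.ofReal (Real.sqrt s.card * lev q * Real.exp (-(κ / 64 * (Real.sqrt s.card * lev q) ^ 2))) := by
    intro q
    have hρ : 0 < lev q := by unfold lev; positivity
    obtain ⟨A, hA⟩ : ∃ A : ℝ, A = 25 * lev q ^ 4 * Real.exp (-(κ / 64 * (s.card * lev q ^ 2))) := ⟨_, rfl⟩
    have hA0 : 0 ≤ A := by rw [hA]; positivity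
    unfold nGrid
    rw [Finset.sum_filter]
    have h1 := grid_integral q (fun z0 => if 1 / 4 ≤ ‖nearPsi (b j) z0‖ then
        ENNReal.ofReal (psn κ (lev q) s i j (fun m => ‖nearPsi (b m) z0‖)) else 0)
      (fun x => ENNReal.ofReal A * ENNReal.ofReal (‖x‖⁻¹ ^ 2)) (by fun_prop) (by
        intro z0 hz0 x hx
        split_ifs with h4
        · rw [← ENNReal.ofReal_mul hA0, hA]
          exact ENNReal.ofReal_le_ofReal (nps_cell hκ s i j b hi hj hbi hb q z0 hz0 h4 x hx)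
        · exact bot_le)
    refine h1.trans ?_
    rw [MeasureTheory.lintegral_const_mul _ (by fun_prop)]
    calc ENNReal.ofReal (512 * (lev q)⁻¹ ^ 3) * (ENNReal.ofReal A *
          ∫⁻ x in Metric.closedBall (0 : E) 4, ENNReal.ofReal (‖x‖⁻¹ ^ 2))
        ≤ ENNReal.ofReal (512 * (lev q)⁻¹ ^ 3) * (ENNReal.ofReal A * ENNReal.ofReal 1000) := by
          gcongr
          exact inv_sq_integral
      _ = ENNReal.ofReal (512 * (lev q)⁻¹ ^ 3 * (A * 1000)) := by
          rw [← ENNReal.ofReal_mul hA0, ← ENNReal.ofReal_mul (by positivity)]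
      _ = ENNReal.ofReal (12800000 / Real.sqrt s.card *
            (Real.sqrt s.card * lev q * Real.exp (-(κ / 64 * (Real.sqrt s.card * lev q) ^ 2)))) := by
          congr 1
          rw [mul_pow, hsqm, hA]
          field_simp
          ring
      _ = _ := ENNReal.ofReal_mul (by positivity)
  calc ∑' q, ∑ z0 ∈ nGrid (b j) q,
        ENNReal.ofReal (psn κ (lev q) s i j (fun m => ‖nearPsi (b m) z0‖))
      ≤ ∑' q, ENNReal.ofReal (12800000 / Real.sqrt s.card) *
        ENNReal.ofReal (Real.sqrt s.card * lev q * Real.exp (-(κ / 64 * (Real.sqrt s.card * lev q) ^ 2))) :=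
        ENNReal.tsum_le_tsum hq
    _ = ENNReal.ofReal (12800000 / Real.sqrt s.card) *
        ∑' q, ENNReal.ofReal (Real.sqrt s.card * lev q * Real.exp (-(κ / 64 * (Real.sqrt s.card * lev q) ^ 2))) :=
        ENNReal.tsum_mul_left
    _ ≤ ENNReal.ofReal (12800000 / Real.sqrt s.card) * ENNReal.ofReal K0 := by
        gcongr
        exact hs0 _ hsq.le
    _ = ENNReal.ofReal (12800000 * K0 / Real.sqrt s.card) := by
        rw [← ENNReal.ofReal_mul (by positivity)]
        congr 1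
        ring
-- END nps

-- BEGIN fps
private theorem fps_term {n : ℕ} {κ ρ : ℝ} (hκ : 0 < κ) (hρ : 0 < ρ) (s : Finset (Fin n))
    {i j : Fin n} (hi : i ∈ s) (hj : j ∈ s) (D : Fin n → ℝ)
    (hD : ∀ m ∈ s, 1 / 2 ≤ D m ∧ D m ≤ 4) :
    psn κ ρ s i j D ≤ 16 * ρ ^ 4 * Real.exp (-(κ / 16 * (s.card * ρ ^ 2))) := by
  unfold psn
  split_ifs
  · have hup : ∀ m ∈ s, (ρ / D m) ^ 2 ≤ 4 * ρ ^ 2 := by
      intro m hm
      obtain ⟨h1, h2⟩ := hD m hm
      have h0 : 0 < D m := by linarith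
      have h3 : ρ / D m ≤ 2 * ρ := by
        rw [div_le_iff₀ h0]
        nlinarith
      calc (ρ / D m) ^ 2 ≤ (2 * ρ) ^ 2 := pow_le_pow_left₀ (by positivity) h3 2
        _ = 4 * ρ ^ 2 := by ring
    have hlo : ∀ m ∈ s, 1 / 16 * ρ ^ 2 ≤ (ρ / D m) ^ 2 := by
      intro m hm
      obtain ⟨h1, h2⟩ := hD m hm
      have h0 : 0 < D m := by linarith
      have h3 : 1 / 4 * ρ ≤ ρ / D m := by
        rw [le_div_iff₀ h0]
        nlinarith
      calc 1 / 16 * ρ ^ 2 = (1 / 4 * ρ) ^ 2 := by ring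
        _ ≤ (ρ / D m) ^ 2 := pow_le_pow_left₀ (by positivity) h3 2
    have hpair : (ρ / D i) ^ 2 * (ρ / D j) ^ 2 ≤ 16 * ρ ^ 4 := by
      calc (ρ / D i) ^ 2 * (ρ / D j) ^ 2 ≤ (4 * ρ ^ 2) * (4 * ρ ^ 2) :=
            mul_le_mul (hup i hi) (hup j hj) (by positivity) (by positivity)
        _ = 16 * ρ ^ 4 := by ring
    have hexp : Real.exp (-(κ * ∑ m ∈ s, (ρ / D m) ^ 2)) ≤
        Real.exp (-(κ / 16 * (s.card * ρ ^ 2))) := by
      apply Real.exp_le_exp.2
      have h1 : (s.card : ℝ) * (1 / 16 * ρ ^ 2) ≤ ∑ m ∈ s, (ρ / D m) ^ 2 := by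
        calc (s.card : ℝ) * (1 / 16 * ρ ^ 2) = ∑ _m ∈ s, 1 / 16 * ρ ^ 2 := by
              rw [Finset.sum_const, nsmul_eq_mul]
          _ ≤ _ := Finset.sum_le_sum fun m hm => hlo m hm
      have h2 := mul_le_mul_of_nonneg_left h1 hκ.le
      linarith
    exact mul_le_mul hpair hexp (Real.exp_pos _).le (by positivity)
  · positivity

/-- `psn ≤ (2 ρ)^2 (2 ρ)^2 exp (-κ #s ρ²/16)`, `ρ = lev q`; `Vrd.card_grid` (`farGrid ⊆ grid`): the sum over `z0` is at most
`50000 * 16 * ρ exp (-κ #s ρ²/16)`; `Vrd.seq_sum` with `t = √#s`. Compare row fsm of Vrd/Sums.lean. -/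
theorem far_pair {κ : ℝ} (hκ : 0 < κ) : ∃ K : ℝ, 0 < K ∧ ∀ (n : ℕ) (s : Finset (Fin n))
    (i j : Fin n) (D : (Fin 3 → ℝ) → Fin n → ℝ), i ∈ s → j ∈ s →
    (∀ q, ∀ z0 ∈ farGrid q, ∀ m ∈ s, 1 / 2 ≤ D z0 m ∧ D z0 m ≤ 4) →
    ∑' q, ∑ z0 ∈ farGrid q, ENNReal.ofReal (psn κ (lev q) s i j (D z0)) ≤
      ENNReal.ofReal (K / Real.sqrt s.card) := by
  obtain ⟨K, hK, hK2⟩ := seq_sum (κ := κ / 16) (by positivity)
  refine ⟨800000 * K, by positivity, fun n s i j D hi hj hD => ?_⟩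
  have hn0 : (0 : ℝ) < s.card := by exact_mod_cast Finset.card_pos.2 ⟨i, hi⟩
  have hr0 : 0 < Real.sqrt s.card := Real.sqrt_pos.2 hn0
  have hsq : Real.sqrt s.card * Real.sqrt s.card = s.card := Real.mul_self_sqrt hn0.le
  have hlevp : ∀ q, 0 < lev q := fun q => by unfold lev; positivity
  have hterm : ∀ q, ∑ z0 ∈ farGrid q, ENNReal.ofReal (psn κ (lev q) s i j (D z0)) ≤
      ENNReal.ofReal (800000 / Real.sqrt s.card) *
        ENNReal.ofReal (Real.sqrt s.card * lev q *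
          Real.exp (-(κ / 16 * (Real.sqrt s.card * lev q) ^ 2))) := by
    intro q
    have hcard : ((farGrid q).card : ℝ) ≤ (grid q).card := by
      exact_mod_cast Finset.card_le_card (Finset.filter_subset _ _)
    calc ∑ z0 ∈ farGrid q, ENNReal.ofReal (psn κ (lev q) s i j (D z0)) ≤
          ∑ z0 ∈ farGrid q, ENNReal.ofReal
            (16 * lev q ^ 4 * Real.exp (-(κ / 16 * (s.card * lev q ^ 2)))) :=
          Finset.sum_le_sum fun z0 hz => ENNReal.ofReal_le_ofReal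
            (fps_term hκ (hlevp q) s hi hj (D z0) (hD q z0 hz))
      _ = ENNReal.ofReal ((farGrid q).card *
            (16 * lev q ^ 4 * Real.exp (-(κ / 16 * (s.card * lev q ^ 2))))) := by
          rw [Finset.sum_const, nsmul_eq_mul, ENNReal.ofReal_mul (Nat.cast_nonneg _),
            ENNReal.ofReal_natCast]
      _ ≤ ENNReal.ofReal ((800000 / Real.sqrt s.card) *
            (Real.sqrt s.card * lev q *
              Real.exp (-(κ / 16 * (Real.sqrt s.card * lev q) ^ 2)))) := by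
          apply ENNReal.ofReal_le_ofReal
          have e1 : (Real.sqrt s.card * lev q) ^ 2 = s.card * lev q ^ 2 := by
            rw [mul_pow, sq (Real.sqrt s.card), hsq]
          have e2 : (800000 / Real.sqrt s.card) *
              (Real.sqrt s.card * lev q *
                Real.exp (-(κ / 16 * (Real.sqrt s.card * lev q) ^ 2))) =
              50000 * (16 * lev q * Real.exp (-(κ / 16 * (s.card * lev q ^ 2)))) := by
            rw [e1]
            field_simp
            ring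
          rw [e2]
          have h1 := card_grid q
          have h2 : ((farGrid q).card : ℝ) * lev q ^ 3 ≤ 50000 :=
            (mul_le_mul_of_nonneg_right hcard (by have := hlevp q; positivity)).trans h1
          have h3 : 0 ≤ 16 * lev q * Real.exp (-(κ / 16 * (s.card * lev q ^ 2))) := by
            have := hlevp q
            positivity
          calc ((farGrid q).card : ℝ) *
                (16 * lev q ^ 4 * Real.exp (-(κ / 16 * (s.card * lev q ^ 2)))) =
                (((farGrid q).card : ℝ) * lev q ^ 3) *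
                (16 * lev q * Real.exp (-(κ / 16 * (s.card * lev q ^ 2)))) := by ring
            _ ≤ _ := mul_le_mul_of_nonneg_right h2 h3
      _ = _ := by rw [ENNReal.ofReal_mul (by positivity)]
  refine (ENNReal.tsum_le_tsum hterm).trans ?_
  rw [ENNReal.tsum_mul_left]
  refine (mul_le_mul_right (hK2 (Real.sqrt s.card) (Real.sqrt_nonneg _)) _).trans ?_
  rw [← ENNReal.ofReal_mul (by positivity)]
  apply ENNReal.ofReal_le_ofReal
  apply le_of_eq
  ring
-- END fps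

-- BEGIN rks
private theorem rks_sqrt (n : ℕ) :
    2 * Real.sqrt n + 1 / Real.sqrt ((n : ℝ) + 1) ≤ 2 * Real.sqrt ((n : ℝ) + 1) := by
  have h0 : (0 : ℝ) ≤ n := Nat.cast_nonneg n
  have h1 : 0 < Real.sqrt ((n : ℝ) + 1) := Real.sqrt_pos.2 (by linarith)
  have h2 : Real.sqrt n * Real.sqrt n = n := Real.mul_self_sqrt h0
  have h3 : Real.sqrt ((n : ℝ) + 1) * Real.sqrt ((n : ℝ) + 1) = n + 1 := Real.mul_self_sqrt (by linarith)
  have h4 : 1 / Real.sqrt ((n : ℝ) + 1) ≤ 2 * Real.sqrt ((n : ℝ) + 1) - 2 * Real.sqrt n := by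
    rw [div_le_iff₀ h1]
    nlinarith [sq_nonneg (Real.sqrt ((n : ℝ) + 1) - Real.sqrt n)]
  linarith

private theorem rks_aux {ι : Type*} [DecidableEq ι] (f : ι → ℝ) (s : Finset ι) :
    ∑ j ∈ s, 1 / Real.sqrt ((s.filter fun m => f m ≤ f j).card) ≤ 2 * Real.sqrt s.card := by
  refine Finset.induction_on_max_value f s ?_ ?_
  · simp
  · intro a s ha hmax ih
    rw [Finset.sum_insert ha, Finset.card_insert_of_notMem ha]
    have h1 : (insert a s).filter (fun m => f m ≤ f a) = insert a s := by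
      rw [Finset.filter_eq_self]
      intro m hm
      rcases Finset.mem_insert.1 hm with rfl | hm
      · exact le_refl _
      · exact hmax m hm
    have h2 : ∑ j ∈ s, 1 / Real.sqrt (((insert a s).filter fun m => f m ≤ f j).card) ≤
        ∑ j ∈ s, 1 / Real.sqrt ((s.filter fun m => f m ≤ f j).card) := by
      refine Finset.sum_le_sum fun j hj => ?_
      have h3 : (s.filter fun m => f m ≤ f j).card ≤ ((insert a s).filter fun m => f m ≤ f j).card :=
        Finset.card_le_card (Finset.filter_subset_filter _ (Finset.subset_insert a s))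
      have h4 : 0 < (s.filter fun m => f m ≤ f j).card :=
        Finset.card_pos.2 ⟨j, Finset.mem_filter.2 ⟨hj, le_refl _⟩⟩
      refine one_div_le_one_div_of_le (Real.sqrt_pos.2 (by exact_mod_cast h4)) ?_
      exact Real.sqrt_le_sqrt (by exact_mod_cast h3)
    rw [h1, Finset.card_insert_of_notMem ha]
    have h5 := rks_sqrt s.card
    push_cast
    linarith

/-- Sort: there is a permutation `σ` with `f ∘ σ` monotone (`Tuple.sort`, `Tuple.monotone_sort`); then
`#{m | f m ≤ f (σ k)} ≥ k + 1`, and `∑_{k < n} 1/√(k+1) ≤ 2 √n` by induction. Or induction on `n` removing a maximiser of `f`. -/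
theorem rank_sum {n : ℕ} (f : Fin n → ℝ) :
    ∑ j, 1 / Real.sqrt ((Finset.univ.filter fun m => f m ≤ f j).card) ≤ 2 * Real.sqrt n := by
  have h := rks_aux f Finset.univ
  rwa [Finset.card_univ, Fintype.card_fin] at h
-- END rks

end Pool.Agent.Vrl
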