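import Pool.Agent.Vrl.Det
import Pool.Agent.Vrd.Chart

/-!
The number of sets of at most four jointly nearest lines
-/

set_option autoImplicit false

namespace Pool.Agent.Vrl

open MeasureTheory Set Vor Vrd
open scoped ENNReal NNReal

/-- the lines whose points `a m` are at most as far from `a i` as `a j` -/
noncomputable def Nb {n : ℕ} (a : Fin n → E) (i j : Fin n) : Finset (Fin n) :=
  Finset.univ.filter fun m => dist (a m) (a i) ≤ dist (a j) (a i)

/-- the weight of a cell for the pair `i`, `j` and the lines of `s` -/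
noncomputable def pw {n : ℕ} (τ ρ : ℝ) (s : Finset (Fin n)) (i j : Fin n) (D : Fin n → ℝ) : ℝ≥0∞ :=
  ∏ m ∈ s, wq τ ρ (m = i ∨ m = j) (D m)

/-- the part of the grid which is used in the near chart -/
noncomputable def nGrid (b : E) (q : ℕ) : Finset (Fin 3 → ℝ) :=
  (grid q).filter fun z => 1 / 4 ≤ ‖nearPsi b z‖

/-- the normalised points -/
noncomputable def nrm {n : ℕ} (a : Fin n → E) (i j m : Fin n) : E :=
  (dist (a j) (a i))⁻¹ • (a m - a i)

-- BEGIN k4
/-- As `Vrd.exists_const`. -/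
theorem exists_const4 {τ : ℝ} (hτ : 0 < τ) :
    ∃ K : ℝ, 0 < K ∧ ∀ k : ℕ, ((k + 1) ^ 4 : ℝ) ≤ K * (1 + τ) ^ k := by
  have h1 := (tendsto_pow_const_div_const_pow_of_one_lt 4 (show 1 < 1 + τ by linarith)).bddAbove_range
  obtain ⟨M, hM⟩ := h1
  refine ⟨2 ^ 4 * max M 1, by positivity, fun k => ?_⟩
  have hp : 0 < (1 + τ) ^ k := by positivity
  rcases Nat.eq_zero_or_pos k with rfl | hk
  · have := le_max_right M 1
    norm_num
    linarith
  · have hk1 : (1 : ℝ) ≤ k := by exact_mod_cast hk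
    have h2 : (k : ℝ) ^ 4 / (1 + τ) ^ k ≤ M := hM ⟨k, rfl⟩
    have h3 : (k : ℝ) ^ 4 ≤ max M 1 * (1 + τ) ^ k := by
      rw [div_le_iff₀ hp] at h2
      exact h2.trans (mul_le_mul_of_nonneg_right (le_max_left _ _) hp.le)
    have h4 : ((k : ℝ) + 1) ≤ 2 * (k : ℝ) := by linarith
    have h5 : ((k : ℝ) + 1) ^ 4 ≤ (2 * (k : ℝ)) ^ 4 :=
      pow_le_pow_left₀ (by positivity) h4 4
    calc ((k : ℝ) + 1) ^ 4 ≤ (2 * (k : ℝ)) ^ 4 := h5
      _ = 2 ^ 4 * (k : ℝ) ^ 4 := by ring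
      _ ≤ 2 ^ 4 * (max M 1 * (1 + τ) ^ k) := mul_le_mul_of_nonneg_left h3 (by norm_num)
      _ = _ := by ring
-- END k4

-- BEGIN pwt
private theorem pwt_card {n : ℕ} (L : Finset (Fin n)) (ℱ : Finset (Finset (Fin n)))
    (hF : ∀ S ∈ ℱ, S ⊆ L ∧ S.card ≤ 4) : ℱ.card ≤ (L.card + 1) ^ 4 := by
  have h1 : ℱ ⊆ (Finset.range 5).biUnion fun t => L.powersetCard t := by
    intro S hS
    obtain ⟨h2, h3⟩ := hF S hS
    rw [Finset.mem_biUnion]
    exact ⟨S.card, Finset.mem_range.2 (by omega), Finset.mem_powersetCard.2 ⟨h2, rfl⟩⟩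
  calc ℱ.card ≤ ((Finset.range 5).biUnion fun t => L.powersetCard t).card := Finset.card_le_card h1
    _ ≤ ∑ t ∈ Finset.range 5, (L.powersetCard t).card := Finset.card_biUnion_le
    _ ≤ ∑ t ∈ Finset.range 5, L.card ^ t := by
        refine Finset.sum_le_sum fun t _ => ?_
        rw [Finset.card_powersetCard]
        exact Nat.choose_le_pow _ _
    _ ≤ (L.card + 1) ^ 4 := by
        simp only [Finset.sum_range_succ, Finset.sum_range_zero]
        nlinarith [Nat.zero_le (L.card), Nat.zero_le (L.card ^ 2), Nat.zero_le (L.card ^ 3)]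

/-- `L = {m ∈ s | D m < 3 ρ}`, `k = #L`. If `ℱ` is empty nothing to show. Otherwise `i, j ∈ L` and
`pw = ofReal (1+τ) ^ k` (the factor of `m ∈ L` is `ofReal (1+τ)`, of `m ∈ s \ L` it is `1`), and `ℱ` consists of subsets of `L`
with at most four elements: at most `1 + k + k^2 + k^3 + k^4 ≤ (k+1)^4` (e.g. `Finset.card_powersetCard`, `Nat.choose_le_pow`
for cards 0 to 4). See also `Vrd.cell_weight`. -/
theorem pair_weight {n : ℕ} {τ ρ K : ℝ} (hτ : 0 < τ) (hK : 0 < K)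
    (hKτ : ∀ k : ℕ, ((k + 1) ^ 4 : ℝ) ≤ K * (1 + τ) ^ k) (s : Finset (Fin n)) (i j : Fin n)
    (D : Fin n → ℝ) (hD : ∀ m ∈ s, ρ / 2 ≤ D m) (ℱ : Finset (Finset (Fin n)))
    (hF : ∀ S ∈ ℱ, i ∈ S ∧ j ∈ S ∧ S ⊆ s ∧ S.card ≤ 4 ∧ ∀ m ∈ S, D m < 3 * ρ) :
    (ℱ.card : ℝ≥0∞) ≤ ENNReal.ofReal K * pw τ ρ s i j D := by
  classical
  rcases ℱ.eq_empty_or_nonempty with h0 | ⟨S0, hS0⟩
  · rw [h0]
    simp
  · obtain ⟨hi, hj, -, -, h3⟩ := hF S0 hS0
    have hDi := h3 i hi
    have hDj := h3 j hj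
    set L := s.filter fun m => D m < 3 * ρ with hL
    have h1 : pw τ ρ s i j D = ENNReal.ofReal (1 + τ) ^ L.card := by
      unfold pw
      rw [← Finset.prod_const, hL, Finset.prod_filter]
      refine Finset.prod_congr rfl fun m hm => ?_
      unfold wq
      rw [if_pos (hD m hm)]
      by_cases h4 : D m < 3 * ρ
      · rw [if_pos h4, if_pos h4]
      · rw [if_neg h4, if_neg h4]
        have h5 : ¬ (m = i ∨ m = j) := by
          rintro (rfl | rfl)
          · exact h4 hDi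
          · exact h4 hDj
        rw [if_neg h5]
    have h2 : ℱ.card ≤ (L.card + 1) ^ 4 := by
      refine pwt_card L ℱ fun S hS => ?_
      obtain ⟨-, -, h4, h5, h6⟩ := hF S hS
      refine ⟨fun m hm => ?_, h5⟩
      rw [hL, Finset.mem_filter]
      exact ⟨h4 hm, h6 m hm⟩
    have h3' : (ℱ.card : ℝ) ≤ K * (1 + τ) ^ L.card := by
      refine le_trans ?_ (hKτ L.card)
      exact_mod_cast h2
    rw [h1, ← ENNReal.ofReal_pow (by linarith), ← ENNReal.ofReal_mul hK.le,
      ← ENNReal.ofReal_natCast]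
    exact ENNReal.ofReal_le_ofReal h3'
-- END pwt

-- BEGIN cvr
private theorem cvr_closed (a v : E) : IsClosed (line a v) := by
  have h : line a v = (fun y => y - a) ⁻¹' ((Submodule.span ℝ {v} : Submodule ℝ E) : Set E) := by
    ext y
    simp only [line, Set.mem_ofPred_eq, Set.mem_preimage, SetLike.mem_coe,
      Submodule.mem_span_singleton]
    constructor
    · rintro ⟨t, ht⟩
      exact ⟨t, by rw [ht]; abel⟩
    · rintro ⟨t, ht⟩
      exact ⟨t, by rw [ht]; abel⟩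
  rw [h]
  exact (Submodule.closed_of_finiteDimensional _).preimage (continuous_id.sub continuous_const)

private theorem cvr_core {n : ℕ} {v a : Fin n → E} {i j : Fin n}
    (hd : Disjoint (line (a i) (v i)) (line (a j) (v j))) {x : E} (hi : i ∈ Near v a x)
    (hj : j ∈ Near v a x) (s : Finset (Fin n)) (his : i ∈ s) {c : ℝ} (hc : 0 < c)
    (ψ : Fin n → (Fin 3 → ℝ) → E) (z : Fin 3 → ℝ)
    (hD : ∀ m ∈ s, c * Metric.infDist x (line (a m) (v m)) = dv (v m) (ψ m z))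
    (hl : ∀ m ∈ s, ∀ z z', ‖ψ m z - ψ m z'‖ ≤ 3 * ‖z - z'‖) (h8 : ‖ψ i z‖ < 8) :
    ∃ q, ∀ z0, ‖z - z0‖ ≤ lev q / 16 → (∀ m ∈ s, lev q / 2 ≤ dv (v m) (ψ m z0)) ∧
      ∀ m ∈ s, m ∈ Near v a x → dv (v m) (ψ m z0) < 3 * lev q := by
  have h0 : 0 < dv (v i) (ψ i z) := by
    rw [← hD i his]
    refine mul_pos hc ?_
    by_contra hcon
    have hne : ∀ k, (line (a k) (v k)).Nonempty := fun k => ⟨a k, 0, by simp⟩
    have h1 : Metric.infDist x (line (a i) (v i)) = 0 :=
      le_antisymm (not_lt.1 hcon) Metric.infDist_nonneg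
    have h2 : Metric.infDist x (line (a j) (v j)) = 0 :=
      le_antisymm ((hj i).trans h1.le) Metric.infDist_nonneg
    have e1 := ((cvr_closed (a i) (v i)).mem_iff_infDist_zero (hne i)).2 h1
    have e2 := ((cvr_closed (a j) (v j)).mem_iff_infDist_zero (hne j)).2 h2
    exact Set.disjoint_left.1 hd e1 e2
  have h1 : dv (v i) (ψ i z) < 8 := ((dv_basic (v i)).2.1 _).trans_lt h8
  obtain ⟨q, hq1, hq2⟩ := exists_lev h0 h1
  have hlev : 0 < lev q := by
    unfold lev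
    positivity
  refine ⟨q, fun z0 hz0 => ⟨fun m hm => ?_, fun m hm hmN => ?_⟩⟩
  · have h2 : dv (v i) (ψ i z) ≤ dv (v m) (ψ m z) := by
      rw [← hD i his, ← hD m hm]
      exact mul_le_mul_of_nonneg_left (hi m) hc.le
    have h3 := (dv_basic (v m)).2.2.2 (ψ m z) (ψ m z0)
    have h4 := hl m hm z z0
    linarith
  · have h2 : dv (v m) (ψ m z) ≤ dv (v i) (ψ i z) := by
      rw [← hD i his, ← hD m hm]
      exact mul_le_mul_of_nonneg_left (hmN i) hc.le
    have h3 := (dv_basic (v m)).2.2.2 (ψ m z0) (ψ m z)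
    have h4 := hl m hm z z0
    rw [norm_sub_rev] at h4
    linarith

/-- `R = dist (a j) (a i) > 0`, `a' m = a m` for `m ∈ Nb a i j`, `a' m = a i` otherwise: `‖a' m - a i‖ ≤ R` for all `m`, so
`Vrd.near_chart` and `Vrd.far_chart` apply to `(v, a')` with `o = a i`; only their `pos`, `dist`, `lip` are needed and only for
`m ∈ Nb a i j` (where `a' m = a m`, `R⁻¹ • (a' m - a i) = nrm a i j m`). `Vrd.exists_region x (a i)`; `i`, `j` are nearest, the
lines `i`, `j` are disjoint and closed, so `r = dv (v i) (ψ i z) = sc z * infDist x (line i) > 0`, and `< 8` (`Vrd.psi_norm`,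
`dv ≤ norm`); compare `cov_point` in row cov of Vrd/Chart. `Vrd.exists_lev`, `Vrd.exists_grid_point`; then for `m ∈ Nb`:
`dv (v m) (ψ m z) ≥ lev q`, with equality to `r < 2 lev q` if `m ∈ Near v a x`; `lip` and `‖z - z0‖ ≤ lev q / 16` change this
by at most `3 lev q / 16`. Near chart, `z0 ∈ nGrid`: `‖z‖₂ = ‖x - a i‖/R ≤ ‖x - a j‖ / R = ‖nearPsi b_j z‖`, `‖b_j‖ = 1`, so
`‖nearPsi b_j z‖ ≥ 1/2`; if `lev q ≤ 1` then `‖nearPsi b_j z0‖ ≥ 1/2 - √3/16 ≥ 1/4`; if `lev q > 1` then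
`‖nearPsi b_j z0‖ ≥ dv ≥ lev q / 2 ≥ 1/4` (`j ∈ Nb a i j`). -/
theorem exists_cell {n : ℕ} (v a : Fin n → E) {i j : Fin n} (hij : a i ≠ a j)
    (hd : Disjoint (line (a i) (v i)) (line (a j) (v j))) {x : E} (hi : i ∈ Near v a x)
    (hj : j ∈ Near v a x) (hx : ‖x - a i‖ ≤ ‖x - a j‖) :
    (∃ q, ∃ z0 ∈ nGrid (nrm a i j j) q,
      (∀ m ∈ Nb a i j, lev q / 2 ≤ dv (v m) (nearPsi (nrm a i j m) z0)) ∧
      ∀ m ∈ Nb a i j, m ∈ Near v a x → dv (v m) (nearPsi (nrm a i j m) z0) < 3 * lev q) ∨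
    ∃ (c : Fin 3) (s : Bool) (q : ℕ), ∃ z0 ∈ farGrid q,
      (∀ m ∈ Nb a i j, lev q / 2 ≤ dv (v m) (farPsi c (sgn s) (nrm a i j m) z0)) ∧
      ∀ m ∈ Nb a i j, m ∈ Near v a x → dv (v m) (farPsi c (sgn s) (nrm a i j m) z0) < 3 * lev q := by
  classical
  have hR : 0 < dist (a j) (a i) := dist_pos.2 (Ne.symm hij)
  have hiN : i ∈ Nb a i j := by
    rw [Nb, Finset.mem_filter]
    exact ⟨Finset.mem_univ _, by rw [dist_self]; exact hR.le⟩
  have hjN : j ∈ Nb a i j := by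
    rw [Nb, Finset.mem_filter]
    exact ⟨Finset.mem_univ _, le_rfl⟩
  have hni : ‖nrm a i j i‖ ≤ 1 := by
    rw [nrm, sub_self, smul_zero, norm_zero]
    exact zero_le_one
  have hnj : ‖nrm a i j j‖ = 1 := by
    rw [nrm, norm_smul, norm_inv, Real.norm_of_nonneg hR.le, ← dist_eq_norm,
      inv_mul_cancel₀ hR.ne']
  rcases exists_region x (a i) hR with ⟨z, hz, hzx⟩ | ⟨c, s, z, hz, hz0, hz1, hzx⟩
  · left
    have hc := near_chart v a (a i) hR
    have hg : ∀ c : Fin 3, (-3 : ℝ) < z c := fun c => by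
      have := (abs_le.1 (hz c)).1
      linarith
    have hD : ∀ m ∈ Nb a i j, (dist (a j) (a i))⁻¹ * Metric.infDist x (line (a m) (v m)) =
        dv (v m) (nearPsi (nrm a i j m) z) := by
      intro m _
      have := hc.dist z hg m
      simp only [hzx] at this
      exact this
    obtain ⟨q, hq⟩ := cvr_core hd hi hj (Nb a i j) hiN (inv_pos.2 hR)
      (fun m => nearPsi (nrm a i j m)) z hD (fun m _ => hc.lip m) (psi_norm hni z hz).1
    obtain ⟨z0, hz0, hzz, _⟩ := exists_grid_point z hz q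
    obtain ⟨h1, h2⟩ := hq z0 hzz
    refine ⟨q, z0, ?_, h1, h2⟩
    rw [nGrid, Finset.mem_filter]
    refine ⟨hz0, ?_⟩
    have hw : nearPsi (nrm a i j j) z = (dist (a j) (a i))⁻¹ • (x - a j) := by
      rw [← hzx, nearPsi, nrm]
      have e : a i + dist (a j) (a i) • (WithLp.toLp 2 z : E) - a j =
          dist (a j) (a i) • (WithLp.toLp 2 z : E) - (a j - a i) := by abel
      rw [e]
      conv_rhs => rw [smul_sub, smul_smul, inv_mul_cancel₀ hR.ne', one_smul]
    have hw' : (WithLp.toLp 2 z : E) = (dist (a j) (a i))⁻¹ • (x - a i) := by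
      rw [← hzx, add_sub_cancel_left, smul_smul, inv_mul_cancel₀ hR.ne', one_smul]
    have h3 : ‖(WithLp.toLp 2 z : E)‖ ≤ ‖nearPsi (nrm a i j j) z‖ := by
      rw [hw, hw', norm_smul, norm_smul]
      exact mul_le_mul_of_nonneg_left hx (norm_nonneg _)
    have h4 : 1 ≤ ‖(WithLp.toLp 2 z : E)‖ + ‖nearPsi (nrm a i j j) z‖ := by
      have e : nrm a i j j = (WithLp.toLp 2 z : E) - nearPsi (nrm a i j j) z := by
        rw [nearPsi]
        abel
      calc (1 : ℝ) = ‖nrm a i j j‖ := hnj.symm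
        _ = ‖(WithLp.toLp 2 z : E) - nearPsi (nrm a i j j) z‖ := by rw [← e]
        _ ≤ _ := norm_sub_le _ _
    rcases le_or_gt (lev q) 1 with hl | hl
    · have h5 : ‖nearPsi (nrm a i j j) z - nearPsi (nrm a i j j) z0‖ ≤ 3 * ‖z - z0‖ :=
        hc.lip j z z0
      have h6 := norm_sub_norm_le (nearPsi (nrm a i j j) z) (nearPsi (nrm a i j j) z0)
      linarith
    · have h5 := h1 j hjN
      have h6 := (dv_basic (v j)).2.1 (nearPsi (nrm a i j j) z0)
      linarith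
  · right
    set a' : Fin n → E := fun m => if m ∈ Nb a i j then a m else a i with ha'
    have ha1 : ∀ m ∈ Nb a i j, a' m = a m := fun m hm => if_pos hm
    have ha2 : ∀ m, ‖a' m - a i‖ ≤ dist (a j) (a i) := by
      intro m
      by_cases hm : m ∈ Nb a i j
      · rw [ha1 m hm, ← dist_eq_norm]
        rw [Nb, Finset.mem_filter] at hm
        exact hm.2
      · have : a' m = a i := if_neg hm
        rw [this, sub_self, norm_zero]
        exact hR.le
    have hc := far_chart v a' (a i) hR ha2 c (sgn s)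
    have hg : ∀ k, (if k = (2 : Fin 3) then (0 : ℝ) else -3) < z k := fun k => by
      split_ifs with hk
      · rw [hk]
        exact hz0
      · have := (abs_le.1 (hz k)).1
        linarith
    have hD : ∀ m ∈ Nb a i j, (z 2 / dist (a j) (a i)) * Metric.infDist x (line (a m) (v m)) =
        dv (v m) (farPsi c (sgn s) (nrm a i j m) z) := by
      intro m hm
      have := hc.dist z hg m
      simp only [hzx, ha1 m hm] at this
      exact this
    have hl : ∀ m ∈ Nb a i j, ∀ z z', ‖farPsi c (sgn s) (nrm a i j m) z -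
        farPsi c (sgn s) (nrm a i j m) z'‖ ≤ 3 * ‖z - z'‖ := by
      intro m hm y y'
      have := hc.lip m y y'
      simp only [ha1 m hm] at this
      exact this
    obtain ⟨q, hq⟩ := cvr_core hd hi hj (Nb a i j) hiN (div_pos hz0 hR)
      (fun m => farPsi c (sgn s) (nrm a i j m)) z hD hl
      (lt_of_le_of_lt ((psi_norm hni z hz).2 c s hz0.le hz1).1 (by norm_num))
    obtain ⟨z0, hzg, hzz, hz2⟩ := exists_grid_point z hz q
    obtain ⟨h1, h2⟩ := hq z0 hzz
    exact ⟨c, s, q, z0, Finset.mem_filter.2 ⟨hzg, hz2 hz0.le hz1⟩, h1, h2⟩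
-- END cvr

-- BEGIN lbs
private noncomputable def lbsCount (n : ℕ) : @Measure (Finset (Fin n)) ⊤ :=
  @Measure.count (Finset (Fin n)) ⊤

private theorem lbs_count {n : ℕ} (s : Set (Finset (Fin n))) :
    lbsCount n s = ((s.encard : ℕ∞) : ℝ≥0∞) :=
  @Measure.count_apply (Finset (Fin n)) ⊤ s MeasurableSpace.measurableSet_top

/-- the sets assigned to one cell -/
private def lbsCell {n : ℕ} (a : Fin n → E) (i j : Fin n) (ρ : ℝ) (D : Fin n → ℝ) :
    Set (Finset (Fin n)) :=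
  {S | i ∈ S ∧ j ∈ S ∧ S ⊆ Nb a i j ∧ S.card ≤ 4 ∧ (∀ m ∈ Nb a i j, ρ / 2 ≤ D m) ∧
    ∀ m ∈ S, D m < 3 * ρ}

private theorem lbs_cell {n : ℕ} {τ ρ K : ℝ} (hτ : 0 < τ) (hK : 0 < K)
    (hKτ : ∀ k : ℕ, ((k + 1) ^ 4 : ℝ) ≤ K * (1 + τ) ^ k) (a : Fin n → E) (i j : Fin n)
    (D : Fin n → ℝ) :
    lbsCount n (lbsCell a i j ρ D) ≤ ENNReal.ofReal K * pw τ ρ (Nb a i j) i j D := by
  classical
  rw [lbs_count]
  by_cases hD : ∀ m ∈ Nb a i j, ρ / 2 ≤ D m
  · set ℱ : Finset (Finset (Fin n)) := Finset.univ.filter fun S =>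
      i ∈ S ∧ j ∈ S ∧ S ⊆ Nb a i j ∧ S.card ≤ 4 ∧ ∀ m ∈ S, D m < 3 * ρ with hℱ
    have h1 : lbsCell a i j ρ D = (ℱ : Set (Finset (Fin n))) := by
      ext S
      simp only [lbsCell, Set.mem_ofPred_eq, hℱ, Finset.coe_filter, Finset.mem_univ, true_and]
      exact ⟨fun ⟨h1, h2, h3, h4, _, h6⟩ => ⟨h1, h2, h3, h4, h6⟩,
        fun ⟨h1, h2, h3, h4, h6⟩ => ⟨h1, h2, h3, h4, hD, h6⟩⟩
    rw [h1, Set.encard_coe_eq_coe_finsetCard]
    have := pair_weight hτ hK hKτ (Nb a i j) i j D hD ℱ (fun S hS => (Finset.mem_filter.1 hS).2)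
    simpa using this
  · have h1 : lbsCell a i j ρ D = ∅ := by
      ext S
      simp only [lbsCell, Set.mem_ofPred_eq, Set.mem_empty_iff_false, iff_false]
      exact fun h => hD h.2.2.2.2.1
    rw [h1]
    simp

/-- the sets assigned to a pair -/
private def lbsPair {n : ℕ} (v a : Fin n → E) (i j : Fin n) : Set (Finset (Fin n)) :=
  {S | i ≠ j ∧ ((∃ q, ∃ z0 ∈ nGrid (nrm a i j j) q,
      S ∈ lbsCell a i j (lev q) (fun m => dv (v m) (nearPsi (nrm a i j m) z0))) ∨
    ∃ c s q, ∃ z0 ∈ farGrid q,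
      S ∈ lbsCell a i j (lev q) (fun m => dv (v m) (farPsi c (sgn s) (nrm a i j m) z0)))}

private theorem lbs_pair {n : ℕ} {τ K : ℝ} (hτ : 0 < τ) (hK : 0 < K)
    (hKτ : ∀ k : ℕ, ((k + 1) ^ 4 : ℝ) ≤ K * (1 + τ) ^ k) (v a : Fin n → E) (i j : Fin n) :
    lbsCount n (lbsPair v a i j) ≤ if i = j then 0 else
      ((∑' q, ∑ z0 ∈ nGrid (nrm a i j j) q, ENNReal.ofReal K *
        pw τ (lev q) (Nb a i j) i j (fun m => dv (v m) (nearPsi (nrm a i j m) z0))) +
      ∑ c : Fin 3, ∑ s : Bool, ∑' q, ∑ z0 ∈ farGrid q, ENNReal.ofReal K *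
        pw τ (lev q) (Nb a i j) i j (fun m => dv (v m) (farPsi c (sgn s) (nrm a i j m) z0))) := by
  split_ifs with hij
  · have : lbsPair v a i j = ∅ := by
      ext S
      simp only [lbsPair, Set.mem_ofPred_eq, Set.mem_empty_iff_false, iff_false]
      exact fun h => h.1 hij
    rw [this]
    simp
  · set B : ℕ → (Fin 3 → ℝ) → Set (Finset (Fin n)) := fun q z0 =>
      lbsCell a i j (lev q) (fun m => dv (v m) (nearPsi (nrm a i j m) z0)) with hB
    set C : Fin 3 → Bool → ℕ → (Fin 3 → ℝ) → Set (Finset (Fin n)) := fun c s q z0 =>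
      lbsCell a i j (lev q) (fun m => dv (v m) (farPsi c (sgn s) (nrm a i j m) z0)) with hC
    have hsub : lbsPair v a i j ⊆ (⋃ q, ⋃ z0 ∈ nGrid (nrm a i j j) q, B q z0) ∪
        ⋃ c ∈ (Finset.univ : Finset (Fin 3)), ⋃ s ∈ (Finset.univ : Finset Bool),
          ⋃ q, ⋃ z0 ∈ farGrid q, C c s q z0 := by
      rintro S ⟨_, ⟨q, z0, hz, h1⟩ | ⟨c, s, q, z0, hz, h1⟩⟩
      · refine Or.inl ?_
        simp only [Set.mem_iUnion]
        exact ⟨q, z0, hz, h1⟩
      · refine Or.inr ?_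
        simp only [Set.mem_iUnion]
        exact ⟨c, Finset.mem_univ c, s, Finset.mem_univ s, q, z0, hz, h1⟩
    refine (measure_mono hsub).trans ((measure_union_le _ _).trans (add_le_add ?_ ?_))
    · exact (measure_iUnion_le _).trans (ENNReal.tsum_le_tsum fun q =>
        (measure_biUnion_finset_le _ _).trans (Finset.sum_le_sum fun z0 _ =>
          lbs_cell hτ hK hKτ a i j _))
    · exact (measure_biUnion_finset_le _ _).trans (Finset.sum_le_sum fun c _ =>
        (measure_biUnion_finset_le _ _).trans (Finset.sum_le_sum fun s _ =>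
          (measure_iUnion_le _).trans (ENNReal.tsum_le_tsum fun q =>
            (measure_biUnion_finset_le _ _).trans (Finset.sum_le_sum fun z0 _ =>
              lbs_cell hτ hK hKτ a i j _))))

/-- assembly -/
theorem label_sum {n : ℕ} {τ K : ℝ} (hτ : 0 < τ) (hK : 0 < K)
    (hKτ : ∀ k : ℕ, ((k + 1) ^ 4 : ℝ) ≤ K * (1 + τ) ^ k) (v a : Fin n → E)
    (ha : Function.Injective a)
    (hd : ∀ i j, i ≠ j → Disjoint (line (a i) (v i)) (line (a j) (v j))) :
    ((LabN v a).card : ℝ≥0∞) ≤ n + ∑ i, ∑ j, if i = j then 0 else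
      ((∑' q, ∑ z0 ∈ nGrid (nrm a i j j) q, ENNReal.ofReal K *
        pw τ (lev q) (Nb a i j) i j (fun m => dv (v m) (nearPsi (nrm a i j m) z0))) +
      ∑ c : Fin 3, ∑ s : Bool, ∑' q, ∑ z0 ∈ farGrid q, ENNReal.ofReal K *
        pw τ (lev q) (Nb a i j) i j (fun m => dv (v m) (farPsi c (sgn s) (nrm a i j m) z0))) := by
  classical
  set A : Finset (Finset (Fin n)) := Finset.univ.image (fun i => {i}) with hA
  have hAc : lbsCount n (A : Set (Finset (Fin n))) ≤ n := by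
    rw [lbs_count, Set.encard_coe_eq_coe_finsetCard]
    have : A.card ≤ n := Finset.card_image_le.trans (by simp)
    have h2 : ((A.card : ℕ) : ℝ≥0∞) ≤ n := by exact_mod_cast this
    simpa using h2
  have hcard : ((LabN v a).card : ℝ≥0∞) = lbsCount n (LabN v a : Set (Finset (Fin n))) := by
    rw [lbs_count, Set.encard_coe_eq_coe_finsetCard]
    simp
  rw [hcard]
  have hsub : ((LabN v a : Finset (Finset (Fin n))) : Set (Finset (Fin n))) ⊆
      (A : Set (Finset (Fin n))) ∪ ⋃ i ∈ (Finset.univ : Finset (Fin n)),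
        ⋃ j ∈ (Finset.univ : Finset (Fin n)), lbsPair v a i j := by
    intro S hS
    obtain ⟨hne, h4, x, hx⟩ := (Finset.mem_filter.1 (Finset.mem_coe.1 hS)).2
    obtain ⟨i, hiS, himin⟩ := Finset.exists_min_image S (fun m => ‖x - a m‖) hne
    by_cases h1 : (S.erase i).Nonempty
    · obtain ⟨j, hjS, hjmax⟩ := Finset.exists_max_image (S.erase i) (fun m => dist (a m) (a i)) h1
      have hji : j ≠ i := Finset.ne_of_mem_erase hjS
      have hjS' : j ∈ S := Finset.mem_of_mem_erase hjS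
      have hNb : S ⊆ Nb a i j := by
        intro m hm
        refine Finset.mem_filter.2 ⟨Finset.mem_univ _, ?_⟩
        by_cases hmi : m = i
        · rw [hmi, dist_self]
          exact dist_nonneg
        · exact hjmax m (Finset.mem_erase.2 ⟨hmi, hm⟩)
      refine Or.inr ?_
      simp only [Set.mem_iUnion]
      refine ⟨i, Finset.mem_univ i, j, Finset.mem_univ j, hji.symm, ?_⟩
      rcases exists_cell v a (fun h => hji (ha h).symm) (hd i j hji.symm) (hx hiS) (hx hjS')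
        (himin j hjS') with ⟨q, z0, hz, h2, h3⟩ | ⟨c, s, q, z0, hz, h2, h3⟩
      · exact Or.inl ⟨q, z0, hz, hiS, hjS', hNb, h4, h2, fun m hm => h3 m (hNb hm) (hx hm)⟩
      · exact Or.inr ⟨c, s, q, z0, hz, hiS, hjS', hNb, h4, h2, fun m hm => h3 m (hNb hm) (hx hm)⟩
    · refine Or.inl (Finset.mem_coe.2 (Finset.mem_image.2 ⟨i, Finset.mem_univ i, ?_⟩))
      rw [Finset.not_nonempty_iff_eq_empty, Finset.erase_eq_empty_iff] at h1
      rcases h1 with h1 | h1
      · exact absurd h1 hne.ne_empty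
      · exact h1.symm
  refine (measure_mono hsub).trans ((measure_union_le _ _).trans (add_le_add hAc ?_))
  exact (measure_biUnion_finset_le _ _).trans (Finset.sum_le_sum fun i _ =>
    (measure_biUnion_finset_le _ _).trans (Finset.sum_le_sum fun j _ =>
      lbs_pair hτ hK hKτ v a i j))
-- END lbs

end Pool.Agent.Vrl
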