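import Pool.Agent.Vrl.Exp

/-!
The expected complexity of the Voronoi diagram of lines through given points with random directions
-/

set_option autoImplicit false

namespace Pool.Agent.Vrl

open MeasureTheory Set Vor Vrd
open scoped ENNReal NNReal

theorem lev_pos (q : ℕ) : 0 < lev q := by
  unfold lev
  positivity

theorem grid_bound {q : ℕ} {z0 : Fin 3 → ℝ} (h : z0 ∈ grid q) (k : Fin 3) : |z0 k| ≤ 2 := by
  unfold grid at h
  rw [Finset.mem_image] at h
  obtain ⟨m, hm, rfl⟩ := h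
  rw [Fintype.mem_piFinset] at hm
  have hk := Finset.mem_Icc.1 (hm k)
  have h1 : |(m k : ℝ)| ≤ 4 * 2 ^ q := by
    rw [abs_le]
    constructor
    · have : ((-(4 * 2 ^ q : ℤ) : ℤ) : ℝ) ≤ (m k : ℝ) := by exact_mod_cast hk.1
      push_cast at this
      linarith
    · have : (m k : ℝ) ≤ ((4 * 2 ^ q : ℤ) : ℝ) := by exact_mod_cast hk.2
      push_cast at this
      linarith
  have h2 : lev q * 2 ^ q = 4 := by
    unfold lev
    rw [mul_assoc, ← mul_pow]
    norm_num
  rw [abs_mul, abs_of_pos (by have := lev_pos q; positivity)]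
  calc lev q / 8 * |(m k : ℝ)| ≤ lev q / 8 * (4 * 2 ^ q) :=
        mul_le_mul_of_nonneg_left h1 (by have := lev_pos q; positivity)
    _ = 2 := by linarith

theorem mem_Nb_left {n : ℕ} (a : Fin n → E) (i j : Fin n) : i ∈ Nb a i j :=
  Finset.mem_filter.2 ⟨Finset.mem_univ _, by rw [dist_self]; exact dist_nonneg⟩

theorem mem_Nb_right {n : ℕ} (a : Fin n → E) (i j : Fin n) : j ∈ Nb a i j :=
  Finset.mem_filter.2 ⟨Finset.mem_univ _, le_rfl⟩

theorem nrm_le {n : ℕ} {a : Fin n → E} {i j m : Fin n} (hij : a i ≠ a j) (hm : m ∈ Nb a i j) :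
    ‖nrm a i j m‖ ≤ 1 := by
  have h1 : dist (a m) (a i) ≤ dist (a j) (a i) := (Finset.mem_filter.1 hm).2
  have h2 : 0 < dist (a j) (a i) := dist_pos.2 hij.symm
  unfold nrm
  rw [norm_smul, norm_inv, Real.norm_eq_abs, abs_of_pos h2, ← dist_eq_norm, inv_mul_le_iff₀ h2,
    mul_one]
  exact h1

/-- the sum over all cells of a family of grids, for one pair -/
theorem pair_bound {n : ℕ} {c C : ℝ≥0} {μ : Fin n → Measure E} [∀ i, IsProbabilityMeasure (μ i)]
    (hμ : ∀ i, μ i ≤ C • volume.restrict (Metric.closedBall (0 : E) 1))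
    (hμ' : ∀ i, c • volume.restrict (Metric.closedBall (0 : E) 1) ≤ μ i) {τ K : ℝ} (hτ0 : 0 ≤ τ)
    (hτ1 : τ ≤ 1) (hτ : 23040 * C * τ ≤ c) (hK : 0 < K) (s : Finset (Fin n)) {i j : Fin n}
    (hij : i ≠ j) (hi : i ∈ s) (hj : j ∈ s) (G : ℕ → Finset (Fin 3 → ℝ))
    (w : (Fin 3 → ℝ) → Fin n → E) :
    (Measurable fun v : Fin n → E => ∑' q, ∑ z0 ∈ G q, ENNReal.ofReal K *
        pw τ (lev q) s i j (fun m => dv (v m) (w z0 m))) ∧
    ∫⁻ v, ∑' q, ∑ z0 ∈ G q, ENNReal.ofReal K *
        pw τ (lev q) s i j (fun m => dv (v m) (w z0 m)) ∂(Measure.pi μ) ≤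
      ENNReal.ofReal (K * ((360 * C) ^ 2 * Real.exp (c / 16))) *
        ∑' q, ∑ z0 ∈ G q, ENNReal.ofReal (psn (c / 128) (lev q) s i j (fun m => ‖w z0 m‖)) := by
  have hm : ∀ q, Measurable fun v : Fin n → E => ∑ z0 ∈ G q, ENNReal.ofReal K *
      pw τ (lev q) s i j (fun m => dv (v m) (w z0 m)) := fun q =>
    Finset.measurable_sum _ fun z0 _ => (pw_measurable _ _ _ _ _ _).const_mul _
  refine ⟨Measurable.tsum hm, ?_⟩
  rw [lintegral_tsum (fun q => (hm q).aemeasurable), ← ENNReal.tsum_mul_left]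
  refine ENNReal.tsum_le_tsum fun q => ?_
  rw [lintegral_finsetSum _ (fun z0 _ => (pw_measurable _ _ _ _ _ _).const_mul _), Finset.mul_sum]
  refine Finset.sum_le_sum fun z0 _ => ?_
  rw [lintegral_const_mul _ (pw_measurable _ _ _ _ _ _)]
  refine (mul_le_mul_right
    (pair_exp hμ hμ' hτ0 hτ1 hτ (lev_pos q) s hij hi hj (w z0)) _).trans (le_of_eq ?_)
  rw [← ENNReal.ofReal_mul hK.le, ← ENNReal.ofReal_mul (by positivity)]
  congr 1
  ring

theorem main {c C : ℝ≥0} (hc : 0 < c) : ∃ K : ℝ, 0 < K ∧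
    ∀ (n : ℕ) (a : Fin n → E) (μ : Fin n → Measure E), 0 < n → Function.Injective a →
      (∀ i, IsProbabilityMeasure (μ i)) →
      (∀ i, μ i ≤ C • volume.restrict (Metric.closedBall (0 : E) 1)) →
      (∀ i, c • volume.restrict (Metric.closedBall (0 : E) 1) ≤ μ i) →
      (∃ F : (Fin n → E) → ℝ≥0∞, Measurable F ∧
        (∀ v, (((Faces v a).encard : ℕ∞) : ℝ≥0∞) ≤ F v) ∧
        ∫⁻ v, F v ∂(Measure.pi μ) ≤ ENNReal.ofReal (K * n ^ (3 / 2 : ℝ))) ∧
      ∀ᵐ v ∂(Measure.pi μ), ∀ i j, i ≠ j → Disjoint (line (a i) (v i)) (line (a j) (v j)) := by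
  set τ : ℝ := min 1 (c / (23040 * (C + 1))) with hτd
  have hc' : (0 : ℝ) < c := by exact_mod_cast hc
  have hC0 : (0 : ℝ) ≤ C := C.2
  have hτ0 : 0 < τ := lt_min one_pos (by positivity)
  have hτ1 : τ ≤ 1 := min_le_left _ _
  have hτ : 23040 * C * τ ≤ c := by
    have h1 : τ ≤ c / (23040 * (C + 1)) := min_le_right _ _
    have h2 : 23040 * (C : ℝ) * τ ≤ 23040 * (C + 1) * (c / (23040 * (C + 1))) :=
      mul_le_mul (by linarith) h1 hτ0.le (by positivity)
    rw [mul_div_cancel₀ _ (by positivity)] at h2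
    exact h2
  obtain ⟨K0, hK0, hKτ⟩ := exists_const4 hτ0
  obtain ⟨K1, hK1, near⟩ := near_pair (κ := c / 128) (by positivity)
  obtain ⟨K2, hK2, far⟩ := far_pair (κ := c / 128) (by positivity)
  set A : ℝ := K0 * ((360 * C) ^ 2 * Real.exp (c / 16)) with hA
  have hA0 : 0 ≤ A := by positivity
  set K3 : ℝ := A * K1 + 6 * (A * K2) with hK3
  have hK30 : 0 ≤ K3 := by positivity
  set N1 : ℝ := 157 ^ 3 * 2 ^ 18 with hN1
  refine ⟨N1 * (1 + K3 * 2), by positivity, ?_⟩
  intro n a μ hn ha hprob hμ hμ'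
  have hae := ae_disjoint_dir ha μ (fun i => by
      refine (Measure.absolutelyContinuous_of_le (hμ i)).trans ?_
      exact (Measure.smul_absolutelyContinuous).trans Measure.absolutelyContinuous_restrict)
  refine ⟨?_, hae⟩
  set bad : Set (Fin n → E) :=
    {v | ¬ ∀ i j, i ≠ j → Disjoint (line (a i) (v i)) (line (a j) (v j))} with hbad
  have hbad0 : Measure.pi μ bad = 0 := hae
  set M := toMeasurable (Measure.pi μ) bad with hM
  have hMm : MeasurableSet M := measurableSet_toMeasurable _ _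
  have hM0 : Measure.pi μ M = 0 := by rw [hM, measure_toMeasurable, hbad0]
  -- the majorant for one pair
  set near' : Fin n → Fin n → (Fin n → E) → ℝ≥0∞ := fun i j v =>
    ∑' q, ∑ z0 ∈ nGrid (nrm a i j j) q, ENNReal.ofReal K0 *
        pw τ (lev q) (Nb a i j) i j (fun m => dv (v m) (nearPsi (nrm a i j m) z0)) with hnear'
  set far' : Fin n → Fin n → Fin 3 → Bool → (Fin n → E) → ℝ≥0∞ := fun i j k s v =>
    ∑' q, ∑ z0 ∈ farGrid q, ENNReal.ofReal K0 *
        pw τ (lev q) (Nb a i j) i j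
          (fun m => dv (v m) (farPsi k (sgn s) (nrm a i j m) z0)) with hfar'
  set H : Fin n → Fin n → (Fin n → E) → ℝ≥0∞ := fun i j v =>
    if i = j then 0 else near' i j v + ∑ k : Fin 3, ∑ s : Bool, far' i j k s v with hH
  have bn : ∀ i j, i ≠ j → Measurable (near' i j) ∧ ∫⁻ v, near' i j v ∂(Measure.pi μ) ≤
      ENNReal.ofReal (A * K1 / Real.sqrt (Nb a i j).card) := by
    intro i j hij
    have hne : a i ≠ a j := fun h => hij (ha h)
    obtain ⟨h1, h2⟩ := pair_bound hμ hμ' hτ0.le hτ1 hτ hK0 (Nb a i j) hij (mem_Nb_left a i j)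
      (mem_Nb_right a i j) (nGrid (nrm a i j j)) (fun z0 m => nearPsi (nrm a i j m) z0)
    refine ⟨h1, h2.trans ?_⟩
    have h3 := near n (Nb a i j) i j (nrm a i j) (mem_Nb_left a i j) (mem_Nb_right a i j)
      (by simp [nrm]) (fun m hm => nrm_le hne hm)
    refine (mul_le_mul_right h3 _).trans (le_of_eq ?_)
    rw [← ENNReal.ofReal_mul hA0, mul_div_assoc]
  have bf : ∀ i j, i ≠ j → ∀ k s, Measurable (far' i j k s) ∧
      ∫⁻ v, far' i j k s v ∂(Measure.pi μ) ≤
      ENNReal.ofReal (A * K2 / Real.sqrt (Nb a i j).card) := by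
    intro i j hij k s
    have hne : a i ≠ a j := fun h => hij (ha h)
    obtain ⟨h1, h2⟩ := pair_bound hμ hμ' hτ0.le hτ1 hτ hK0 (Nb a i j) hij (mem_Nb_left a i j)
      (mem_Nb_right a i j) farGrid (fun z0 m => farPsi k (sgn s) (nrm a i j m) z0)
    refine ⟨h1, h2.trans ?_⟩
    have h3 := far n (Nb a i j) i j (fun z0 m => ‖farPsi k (sgn s) (nrm a i j m) z0‖)
      (mem_Nb_left a i j) (mem_Nb_right a i j) (by
        intro q z0 hz0 m hm
        have hz := Finset.mem_filter.1 hz0
        have := (psi_norm (nrm_le hne hm) z0 (grid_bound hz.1)).2 k s hz.2.1 hz.2.2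
        exact ⟨this.2, this.1⟩)
    refine (mul_le_mul_right h3 _).trans (le_of_eq ?_)
    rw [← ENNReal.ofReal_mul hA0, mul_div_assoc]
  have bH : ∀ i j, Measurable (H i j) ∧ ∫⁻ v, H i j v ∂(Measure.pi μ) ≤
      ENNReal.ofReal (K3 * (1 / Real.sqrt (Nb a i j).card)) := by
    intro i j
    by_cases hij : i = j
    · have : H i j = fun _ => 0 := by
        funext v
        simp [hH, hij]
      rw [this]
      exact ⟨measurable_const, by simp⟩
    · have e : H i j = fun v => near' i j v + ∑ k : Fin 3, ∑ s : Bool, far' i j k s v := by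
        funext v
        simp only [hH, if_neg hij]
      rw [e]
      have m2 : Measurable fun v => ∑ k : Fin 3, ∑ s : Bool, far' i j k s v :=
        Finset.measurable_sum _ fun k _ => Finset.measurable_sum _ fun s _ => (bf i j hij k s).1
      refine ⟨(bn i j hij).1.add m2, ?_⟩
      rw [lintegral_add_right _ m2, lintegral_finsetSum _
        (fun k _ => Finset.measurable_sum _ fun s _ => (bf i j hij k s).1)]
      set r : ℝ := Real.sqrt (Nb a i j).card with hr
      have hr0 : 0 ≤ r := Real.sqrt_nonneg _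
      have t2 : ∑ k : Fin 3, ∫⁻ v, ∑ s : Bool, far' i j k s v ∂(Measure.pi μ) ≤
          ∑ _k : Fin 3, ∑ _s : Bool, ENNReal.ofReal (A * K2 / r) := by
        refine Finset.sum_le_sum fun k _ => ?_
        rw [lintegral_finsetSum _ (fun s _ => (bf i j hij k s).1)]
        exact Finset.sum_le_sum fun s _ => (bf i j hij k s).2
      have e2 : K3 * (1 / r) = A * K1 / r + 6 * (A * K2 / r) := by
        rw [hK3]
        ring
      rw [e2, ENNReal.ofReal_add (by positivity) (by positivity),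
        ENNReal.ofReal_mul (show (0 : ℝ) ≤ 6 by norm_num)]
      refine add_le_add (bn i j hij).2 (t2.trans (le_of_eq ?_))
      simp only [Finset.sum_const, Finset.card_univ, Fintype.card_fin, Fintype.card_bool,
        nsmul_eq_mul, ← mul_assoc]
      norm_num
  have mS : Measurable fun v : Fin n → E => ∑ i, ∑ j, H i j v :=
    Finset.measurable_sum _ fun i _ => Finset.measurable_sum _ fun j _ => (bH i j).1
  have mS' : Measurable fun v : Fin n → E => (n : ℝ≥0∞) + ∑ i, ∑ j, H i j v :=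
    measurable_const.add mS
  refine ⟨fun v => ENNReal.ofReal N1 * (n + ∑ i, ∑ j, H i j v) +
    M.indicator (fun _ => ∞) v, ?_, ?_, ?_⟩
  · exact (mS'.const_mul _).add (measurable_const.indicator hMm)
  · intro v
    by_cases hv : v ∈ bad
    · have : v ∈ M := subset_toMeasurable _ _ hv
      beta_reduce
      rw [Set.indicator_of_mem this, add_top]
      exact le_top
    · have hv' : ∀ i j, i ≠ j → Disjoint (line (a i) (v i)) (line (a j) (v j)) := not_not.1 hv
      refine le_trans ?_ le_self_add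
      have h1 := faces_count hn v a
      have h2 := label_sum hτ0 hK0 hKτ v a ha hv'
      calc (((Faces v a).encard : ℕ∞) : ℝ≥0∞) ≤
          (((157 ^ 3 * 2 ^ 18 * (LabN v a).card : ℕ) : ℕ∞) : ℝ≥0∞) := by exact_mod_cast h1
        _ = ENNReal.ofReal N1 * ((LabN v a).card : ℝ≥0∞) := by
            have e3 : ENNReal.ofReal N1 = ((157 ^ 3 * 2 ^ 18 : ℕ) : ℝ≥0∞) := by
              rw [hN1, ← ENNReal.ofReal_natCast]
              norm_num
            rw [e3, ← Nat.cast_mul]
            simp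
        _ ≤ ENNReal.ofReal N1 * (n + ∑ i, ∑ j, H i j v) := mul_le_mul_right h2 _
  · rw [lintegral_add_right _ (measurable_const.indicator hMm), lintegral_indicator hMm,
      lintegral_const, Measure.restrict_apply_univ, hM0, mul_zero, add_zero,
      lintegral_const_mul _ mS', lintegral_add_right _ mS, lintegral_const, measure_univ, mul_one,
      lintegral_finsetSum _ (fun i _ => Finset.measurable_sum _ fun j _ => (bH i j).1)]
    have hn1 : (1 : ℝ) ≤ n := by exact_mod_cast hn
    have row : ∀ i, ∫⁻ v, ∑ j, H i j v ∂(Measure.pi μ) ≤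
        ENNReal.ofReal (K3 * (2 * Real.sqrt n)) := by
      intro i
      rw [lintegral_finsetSum _ (fun j _ => (bH i j).1)]
      refine (Finset.sum_le_sum fun j _ => (bH i j).2).trans ?_
      rw [← ENNReal.ofReal_sum_of_nonneg (fun j _ => by positivity), ← Finset.mul_sum]
      apply ENNReal.ofReal_le_ofReal
      apply mul_le_mul_of_nonneg_left _ hK30
      exact rank_sum (fun m => dist (a m) (a i))
    have hs : (n : ℝ) * Real.sqrt n = n ^ (3 / 2 : ℝ) := by
      rw [Real.sqrt_eq_rpow, show (3 / 2 : ℝ) = 1 + 1 / 2 by norm_num,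
        Real.rpow_add (by positivity), Real.rpow_one]
    have hnp : (n : ℝ) ≤ n ^ (3 / 2 : ℝ) := by
      calc (n : ℝ) = n ^ (1 : ℝ) := (Real.rpow_one _).symm
        _ ≤ n ^ (3 / 2 : ℝ) := Real.rpow_le_rpow_of_exponent_le hn1 (by norm_num)
    calc ENNReal.ofReal N1 * (n + ∑ i, ∫⁻ v, ∑ j, H i j v ∂(Measure.pi μ))
        ≤ ENNReal.ofReal N1 * (ENNReal.ofReal n + ∑ _i : Fin n,
          ENNReal.ofReal (K3 * (2 * Real.sqrt n))) := by
          refine mul_le_mul_right (add_le_add ?_ (Finset.sum_le_sum fun i _ => row i)) _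
          rw [ENNReal.ofReal_natCast]
      _ = ENNReal.ofReal (N1 * (n + n * (K3 * (2 * Real.sqrt n)))) := by
          rw [Finset.sum_const, Finset.card_univ, Fintype.card_fin, nsmul_eq_mul,
            ← ENNReal.ofReal_natCast, ← ENNReal.ofReal_mul (by positivity),
            ← ENNReal.ofReal_add (by positivity) (by positivity),
            ← ENNReal.ofReal_mul (by positivity)]
      _ ≤ ENNReal.ofReal (N1 * (1 + K3 * 2) * n ^ (3 / 2 : ℝ)) := by
          apply ENNReal.ofReal_le_ofReal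
          rw [mul_assoc N1]
          apply mul_le_mul_of_nonneg_left _ (by positivity)
          have e4 : (n : ℝ) * (K3 * (2 * Real.sqrt n)) = K3 * 2 * n ^ (3 / 2 : ℝ) := by
            rw [← hs]
            ring
          rw [e4]
          nlinarith

end Pool.Agent.Vrl
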